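import Pool.Agent.LibBChrom26.Reg2

namespace Pool.Agent.LibBChrom26

open SimpleGraph Classical

universe u

variable {V : Type u} [Fintype V] {C : Ctx V}

namespace Cuts

variable {K : Core C} (D : Cuts K)

/-- the path `u z .. x` through the contact `z`, inside `{u} ∪ Comp u z` -/
theorem cons_comp {z u x : V} (hz : z ∈ D.B) (hu : u ∈ K.R0) (hzu : C.G.Adj z u)
    (hx : x ∈ K.Comp u z) :
    ∃ P : C.G.Walk u x, P.IsPath ∧ (∀ y ∈ P.support, y = u ∨ y ∈ K.Comp u z) ∧
      z ∈ P.support ∧ P.length + K.R0.card + K.Kset.card ≤ C.k + 3 := by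
  obtain ⟨P, hP, hPY, hPC⟩ := K.Comp_path hx
  have hd := D.depth hz hu hzu P hP hPY
  refine ⟨Walk.cons hzu.symm P, ?_, ?_, ?_, ?_⟩
  · rw [Walk.cons_isPath_iff]
    exact ⟨hP, fun h => (hPY u h).2.1 hu⟩
  · intro y hy
    rw [Walk.support_cons, List.mem_cons] at hy
    rcases hy with hy | hy
    · exact Or.inl hy
    · exact Or.inr (hPC y hy)
  · rw [Walk.support_cons, List.mem_cons]
    exact Or.inr P.start_mem_support
  · rw [Walk.length_cons]
    omega

/-- (7) cut components are disjoint: if `z ≠ z'` then `|K| ≥ 3`, so the two paths from `u'` to `x`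
(`path_comp` via `z`, and `u' z' .. x` via `Comp_path`) have length `≤ k-1`; by `spp` they are
equal, so `z' ∈ Comp u z` and `comp_core` gives `z' = z`. -/
theorem comp_disj {z u z' u' x : V} (hz : z ∈ D.B) (hu : u ∈ K.R0) (hzu : C.G.Adj z u)
    (hz' : z' ∈ D.B) (hu' : u' ∈ K.R0) (hzu' : C.G.Adj z' u')
    (hx : x ∈ K.Comp u z) (hx' : x ∈ K.Comp u' z') : z = z' := by
  by_contra hne
  have h3 := D.three_le_card hz hz' hne
  have hR : 1 ≤ K.R0.card := Finset.card_pos.2 ⟨_, hu⟩
  obtain ⟨P, hP, hPs, hPl, -⟩ := D.path_comp hz hu hzu hx hu'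
  obtain ⟨P', hP', hPs', hz'P', hPl'⟩ := D.cons_comp hz' hu' hzu' hx'
  have heq : P = P' := spp C.hg P P' hP hP' (by omega)
  rw [← heq] at hz'P'
  have hz'R : z' ∉ K.R0 := (K.mem_Kset.1 (D.B1 z' hz')).2.1
  rcases hPs z' hz'P' with h | h
  · exact hz'R h
  · exact hne (D.comp_core hz hu hzu h hu' hzu').1.symm

/-- (7) two protected vertices of the region with the same owner: one is the centre.
Suppose not, `i = own a`; `a - ctr i - b` is a path `P0` of length 2 inside `Q`.
Same component: the walk `a .. z .. b` inside the component gives a path of length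
`≤ 2(k+2-|R0|-|K|) ≤ 2k-2` inside the component, so it is `P0`; so `f a = f b` (both differ from
`f (ctr i)`, two colours), so `a = b` by `hQ2`.
Different components (disjoint by `comp_disj`): the path `a .. z u .. u' z' .. b` has length
`≤ 2(k+3-|R0|-|K|)+|R0|-1 ≤ 2k-2` and contains `u ∉ Q`: contradiction to `spp`. -/
theorem same_owner {a b : V} (ha : a ∈ D.R) (hb : b ∈ D.R) (haQ : a ∈ C.Q) (hbQ : b ∈ C.Q)
    (hab : a ≠ b) (ho : C.own a = C.own b) : a = C.ctr (C.own a) ∨ b = C.ctr (C.own a) := by
  by_contra hcon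
  rw [not_or] at hcon
  obtain ⟨ha0, hb0⟩ := hcon
  have hQa := C.hQ1 a haQ
  have hQb := C.hQ1 b hbQ
  rw [← ho] at hQb
  have haadj : C.G.Adj a (C.ctr (C.own a)) := hQa.2.resolve_left ha0
  have hbadj : C.G.Adj b (C.ctr (C.own a)) := hQb.2.resolve_left hb0
  have hP0 : (Walk.cons haadj (Walk.cons hbadj.symm Walk.nil) : C.G.Walk a b).IsPath := by
    rw [Walk.cons_isPath_iff, Walk.cons_isPath_iff]
    refine ⟨⟨Walk.IsPath.nil, ?_⟩, ?_⟩
    · simp only [Walk.support_nil, List.mem_singleton]
      exact fun h => hb0 h.symm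
    · simp only [Walk.support_cons, Walk.support_nil, List.mem_cons, List.not_mem_nil, or_false]
      rintro (h | h)
      · exact ha0 h
      · exact hab h
  rcases ha with ha | ⟨z, hz, u, hu, hzu, hac⟩
  · exact K.hnQ a ha haQ
  rcases hb with hb | ⟨z', hz', u', hu', hzu', hbc⟩
  · exact K.hnQ b hb hbQ
  have hR : 1 ≤ K.R0.card := Finset.card_pos.2 ⟨_, hu⟩
  by_cases hzz : z = z'
  · subst hzz
    have huu : u = u' :=
      K.core_unique (K.mem_Kset.1 (D.B1 z hz)).2.1 hu hu' hzu hzu'
    subst huu
    have h2 := D.two_le_card hz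
    obtain ⟨Pa, hPa, hPaY, hPaC⟩ := K.Comp_path hac
    obtain ⟨Pb, hPb, hPbY, hPbC⟩ := K.Comp_path hbc
    have hda := D.depth hz hu hzu Pa hPa hPaY
    have hdb := D.depth hz hu hzu Pb hPb hPbY
    obtain ⟨P, hP, hPs, hPl⟩ := exists_path_of_walk (K.Comp u z) (Pa.reverse.append Pb) (by
      intro y hy
      rw [Walk.mem_support_append_iff] at hy
      rcases hy with hy | hy
      · rw [Walk.support_reverse, List.mem_reverse] at hy
        exact hPaC y hy
      · exact hPbC y hy)
    rw [Walk.length_append, Walk.length_reverse] at hPl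
    have heq := spp C.hg P _ hP hP0 (by
      simp only [Walk.length_cons, Walk.length_nil]
      omega)
    have hctr : C.ctr (C.own a) ∈ K.Comp u z := by
      apply hPs
      rw [heq]
      simp
    have h1 := (K.Comp_sub hac).2.2
    have h2' := (K.Comp_sub hbc).2.2
    have h3 := (K.Comp_sub hctr).2.2
    have hfa := C.f_ne_of_adj haadj
    have hfb := C.f_ne_of_adj hbadj
    have hfab : C.f a = C.f b := by
      rcases h3 with h3 | h3
      · rw [h3] at hfa hfb
        rw [h1.resolve_left hfa, h2'.resolve_left hfb]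
      · rw [h3] at hfa hfb
        rw [h1.resolve_right hfa, h2'.resolve_right hfb]
    apply hab
    apply C.hQ2 a haQ b hbQ ho
    rw [← C.hfQ a haQ, ← C.hfQ b hbQ]
    exact hfab
  · have h3 := D.three_le_card hz hz' hzz
    obtain ⟨P, hP, hPs, hPl, -⟩ := D.path_comp hz hu hzu hac hu'
    obtain ⟨P', hP', hPs', -, hPl'⟩ := D.cons_comp hz' hu' hzu' hbc
    have hPP : (P.reverse.append P').IsPath := by
      apply isPath_append _ _ hP.reverse hP'
      intro x hx hx'
      rw [Walk.support_reverse, List.mem_reverse] at hx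
      rcases hPs' x hx' with h | h
      · exact h
      · exfalso
        have hxR := (K.Comp_sub h).2.1
        rcases hPs x hx with h' | h'
        · exact hxR h'
        · exact hzz (D.comp_disj hz hu hzu hz' hu' hzu' h' h)
    have heq := spp C.hg _ _ hPP hP0 (by
      simp only [Walk.length_cons, Walk.length_nil, Walk.length_append, Walk.length_reverse]
      omega)
    have hmem : u' ∈ (P.reverse.append P').support := by
      rw [Walk.mem_support_append_iff]
      exact Or.inr P'.start_mem_support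
    rw [heq] at hmem
    simp only [Walk.support_cons, Walk.support_nil, List.mem_cons, List.not_mem_nil,
      or_false] at hmem
    apply K.hnQ u' hu'
    rcases hmem with h | h | h
    · rw [h]; exact haQ
    · rw [h]; exact hQa.1
    · rw [h]; exact hbQ

end Cuts

end Pool.Agent.LibBChrom26
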