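import Pool.Agent.LibBChrom26.Reg4
import Pool.Agent.LibBChrom26.Reg5

namespace Pool.Agent.LibBChrom26

open SimpleGraph Classical

universe u

variable {V : Type u} [Fintype V] {C : Ctx V}

namespace Cuts

variable {K : Core C} (D : Cuts K)

/-- two vertices on a path are joined (in one of the two directions) by a subpath -/
theorem subpath_aux {G : SimpleGraph V} {a b : V} (P : G.Walk a b) (hP : P.IsPath) {x y : V}
    (hx : x ∈ P.support) (hy : y ∈ P.support) :
    ∃ Q : G.Walk x y, Q.IsPath ∧ (∀ z ∈ Q.support, z ∈ P.support) ∧ Q.length ≤ P.length := by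
  have h1 : y ∈ (P.takeUntil x hx).support ∨ y ∈ (P.dropUntil x hx).support := by
    rw [← Walk.mem_support_append_iff, P.take_spec hx]
    exact hy
  rcases h1 with h | h
  · refine ⟨((P.takeUntil x hx).dropUntil y h).reverse, ?_, ?_, ?_⟩
    · exact ((hP.takeUntil hx).dropUntil h).reverse
    · intro z hz
      rw [Walk.support_reverse, List.mem_reverse] at hz
      exact P.support_takeUntil_subset_support hx
        ((P.takeUntil x hx).support_dropUntil_subset_support h hz)
    · rw [Walk.length_reverse]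
      exact ((P.takeUntil x hx).length_dropUntil_le_length h).trans
        (P.length_takeUntil_le_length hx)
  · refine ⟨(P.dropUntil x hx).takeUntil y h, ?_, ?_, ?_⟩
    · exact (hP.dropUntil hx).takeUntil h
    · intro z hz
      exact P.support_dropUntil_subset_support hx
        ((P.dropUntil x hx).support_takeUntil_subset_support h hz)
    · exact ((P.dropUntil x hx).length_takeUntil_le_length h).trans
        (P.length_dropUntil_le_length hx)

theorem S_Q_of_notR {x : V} (hx : x ∈ D.S) (hxR : x ∉ D.R) :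
    x ∈ C.Q ∧ x = C.ctr (C.ι x) ∧ C.ι x ≠ C.t ∧ C.ι x ∈ D.idx := by
  rcases hx with h | ⟨r, hr, hrQ, rfl⟩
  · exact absurd h hxR
  · have h1 := (C.hQ1 r hrQ).1
    have h2 : C.ι (C.ctr (C.own r)) = C.own r := by
      rw [C.ι_Q h1, C.hQ3 _ h1]
    refine ⟨h1, by rw [h2], by rw [h2]; exact D.own_ne_t hr hrQ, ?_⟩
    rw [h2]
    exact D.mem_idx.2 ⟨r, hr, C.ι_Q hrQ⟩

theorem S_con {r : V} (hr : r ∈ D.S) : C.Con r := by
  by_cases h : r ∈ D.R
  · exact D.R_con h
  · obtain ⟨h1, h2, h3, -⟩ := D.S_Q_of_notR hr h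
    refine ⟨?_, Or.inl h1⟩
    rw [C.hfQ r h1, h2, C.hctr]
    exact h3

theorem ι_S_mem {r : V} (hr : r ∈ D.S) : C.ι r ∈ D.idx := by
  by_cases h : r ∈ D.R
  · exact D.mem_idx.2 ⟨r, h, rfl⟩
  · exact (D.S_Q_of_notR hr h).2.2.2

/-- (8) paths in `S` are short. If `P.length + 1 ≥ 2m` (`m = D.idx.card ≤ k-1`), take the initial
part with exactly `2m` vertices (length `2m-1 ≤ 2k-3`). The index maps its vertices to `D.idx`;
by `window` two different vertices with the same index `i` are in `Q` with owner `i`, and one of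
them is `ctr i` (`same_owner` if both are in `R`; a vertex of `S \ R` is the centre of its
index), so every index is used at most twice; the index of `p` at most once (`ι_ne_p`).
So `2m ≤ 2(m-1)+1`, contradiction. -/
theorem S_path_short (hB : D.B.Nonempty) {a b : V} (P : C.G.Walk a b) (hP : P.IsPath)
    (hPS : ∀ y ∈ P.support, y ∈ D.S) : P.length + 2 ≤ 2 * D.idx.card := by
  by_contra hlt
  have hm := D.m_lt hB
  have hm2 := D.two_le_m hB
  set m := D.idx.card with hmdef
  -- shorten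
  have hl1 : 2 * m - 1 ≤ P.length := by omega
  set P' := P.take (2 * m - 1) with hP'def
  have hP' : P'.IsPath := hP.take _
  have hlen : P'.length = 2 * m - 1 := by
    rw [hP'def, Walk.take_length]
    omega
  have hP'S : ∀ y ∈ P'.support, y ∈ D.S := fun y hy =>
    hPS y ((P.isSubwalk_take _).support_subset hy)
  clear_value P'
  have key : ∀ x ∈ P'.support, ∀ y ∈ P'.support, x ≠ y → C.ι x = C.ι y →
      x ∈ C.Q ∧ y ∈ C.Q ∧ (x = C.ctr (C.ι x) ∨ y = C.ctr (C.ι x)) ∧ C.ι x ≠ C.t := by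
    intro x hx y hy hxy hι
    obtain ⟨Q, hQ, hQs, hQl⟩ := subpath_aux P' hP' hx hy
    have hw := C.window Q hQ hxy (fun z hz => D.S_con (hP'S z (hQs z hz))) (by omega) hι
    have hxQ := hw.1 x Q.start_mem_support
    have hyQ := hw.1 y Q.end_mem_support
    have hxS := hP'S x hx
    have hyS := hP'S y hy
    by_cases hxR : x ∈ D.R
    · by_cases hyR : y ∈ D.R
      · refine ⟨hxQ, hyQ, ?_, ?_⟩
        · rw [C.ι_Q hxQ]
          refine D.same_owner hxR hyR hxQ hyQ hxy ?_
          rw [← C.ι_Q hxQ, ← C.ι_Q hyQ, hι]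
        · rw [C.ι_Q hxQ]; exact D.own_ne_t hxR hxQ
      · obtain ⟨-, h2, h3, -⟩ := D.S_Q_of_notR hyS hyR
        rw [← hι] at h2 h3
        exact ⟨hxQ, hyQ, Or.inr h2, h3⟩
    · obtain ⟨-, h2, h3, -⟩ := D.S_Q_of_notR hxS hxR
      exact ⟨hxQ, hyQ, Or.inl h2, h3⟩
  have hcard : P'.support.toFinset.card = 2 * m := by
    rw [List.toFinset_card_of_nodup hP'.support_nodup, Walk.length_support, hlen]
    omega
  have htI : C.t ∈ D.idx := D.mem_idx.2 ⟨C.p, D.R0_sub K.hp, C.ι_p⟩
  have hmaps : ∀ x ∈ P'.support.toFinset, C.ι x ∈ D.idx := by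
    intro x hx
    exact D.ι_S_mem (hP'S x (List.mem_toFinset.1 hx))
  have hfib := Finset.card_eq_sum_card_fiberwise hmaps
  have hle : ∀ i ∈ D.idx, (P'.support.toFinset.filter (fun x => C.ι x = i)).card ≤
      if i = C.t then 1 else 2 := by
    intro i _
    split_ifs with hit
    · rw [Finset.card_le_one]
      intro x hx y hy
      rw [Finset.mem_filter, List.mem_toFinset] at hx hy
      by_contra hxy
      exact (key x hx.1 y hy.1 hxy (hx.2.trans hy.2.symm)).2.2.2 (hx.2.trans hit)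
    · by_contra h3
      rw [not_le, Finset.two_lt_card] at h3
      obtain ⟨x, hx, y, hy, z, hz, hxy, hxz, hyz⟩ := h3
      rw [Finset.mem_filter, List.mem_toFinset] at hx hy hz
      have h1 := (key x hx.1 y hy.1 hxy (hx.2.trans hy.2.symm)).2.2.1
      have h2 := (key x hx.1 z hz.1 hxz (hx.2.trans hz.2.symm)).2.2.1
      have h3 := (key y hy.1 z hz.1 hyz (hy.2.trans hz.2.symm)).2.2.1
      rw [hx.2] at h1 h2
      rw [hy.2] at h3
      rcases h1 with h1 | h1
      · rcases h3 with h3 | h3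
        · exact hxy (h1.trans h3.symm)
        · exact hxz (h1.trans h3.symm)
      · rcases h2 with h2 | h2
        · exact hxy (h2.trans h1.symm)
        · exact hyz (h1.trans h2.symm)
  have hsum : ∑ i ∈ D.idx, (if i = C.t then 1 else 2) = 2 * m - 1 := by
    rw [← Finset.add_sum_erase _ _ htI, if_pos rfl]
    rw [Finset.sum_congr rfl (g := fun _ => 2)]
    · rw [Finset.sum_const, Finset.card_erase_of_mem htI, smul_eq_mul]
      omega
    · intro i hi
      rw [if_neg (Finset.ne_of_mem_erase hi)]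
  have := Finset.sum_le_sum hle
  rw [hsum, ← hfib, hcard] at this
  omega

/-- (8) `S` is connected -/
theorem S_conn {a b : V} (ha : a ∈ D.S) (hb : b ∈ D.S) :
    ∃ P : C.G.Walk a b, P.IsPath ∧ (∀ y ∈ P.support, y ∈ D.S) := by
  have hto : ∀ x ∈ D.S, ∃ P : C.G.Walk C.p x, ∀ y ∈ P.support, y ∈ D.S := by
    intro x hx
    have hR : ∀ r ∈ D.R, ∃ P : C.G.Walk C.p r, ∀ y ∈ P.support, y ∈ D.S := by
      intro r hr
      obtain ⟨P, -, h, -⟩ := D.path_R K.hp hr
      exact ⟨P, fun y hy => Or.inl (h y hy)⟩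
    rcases hx with h | ⟨r, hr, hrQ, hrx⟩
    · exact hR x h
    · obtain ⟨P, hP⟩ := hR r hr
      rcases (C.hQ1 r hrQ).2 with h | h
      · have : r = x := h.trans hrx.symm
        subst this
        exact ⟨P, hP⟩
      · rw [← hrx] at h
        refine ⟨P.concat h, fun y hy => ?_⟩
        rw [Walk.support_concat, List.mem_append, List.mem_singleton] at hy
        rcases hy with hy | hy
        · exact hP y hy
        · exact Or.inr ⟨r, hr, hrQ, hy.trans hrx⟩
  obtain ⟨P, hP⟩ := hto a ha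
  obtain ⟨P', hP'⟩ := hto b hb
  obtain ⟨P'', h1, h2, -⟩ := exists_path_of_walk D.S (P.reverse.append P') (by
    intro x hx
    rw [Walk.mem_support_append_iff, Walk.support_reverse, List.mem_reverse] at hx
    rcases hx with hx | hx
    · exact hP x hx
    · exact hP' x hx)
  exact ⟨P'', h1, h2⟩

/-- (11) a `t`-coloured vertex with its owner among the indices of the region has a neighbour
in `S`. If `r ∉ Q`: `ι_nQ`, `t_unique`. If `r ∈ Q`: `own r ≠ t` and `ctr (own r) ∈ S`, `hQ1`. -/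
theorem t_adj_S {τ : V} (hτ : C.f τ = C.t) (h : C.own τ ∈ D.idx) :
    ∃ a ∈ D.S, C.G.Adj τ a := by
  obtain ⟨r, hr, hι⟩ := D.mem_idx.1 h
  by_cases hrQ : r ∈ C.Q
  · rw [C.ι_Q hrQ] at hι
    have hτQ := C.hft _ hτ
    rcases (C.hQ1 τ hτQ).2 with h1 | h1
    · exfalso
      have h2 := C.c_t hτ
      rw [h1, C.hctr] at h2
      exact D.own_ne_t hr hrQ (hι.trans h2)
    · exact ⟨_, Or.inr ⟨r, hr, hrQ, by rw [hι]⟩, h1⟩
  · obtain ⟨τ', h1, h2, h3⟩ := C.ι_nQ hrQ (D.R_con hr)
    have : τ = τ' := C.t_unique hτ h1 (by rw [h3, hι])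
    subst this
    exact ⟨r, Or.inl hr, h2.symm⟩

end Cuts

end Pool.Agent.LibBChrom26
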