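import Pool.Agent.LibBChrom26.Finish
import Pool.Agent.LibBChrom26.Reg6

/-!
# Cases 1 to 4
-/

namespace Pool.Agent.LibBChrom26

open SimpleGraph Classical

universe u

variable {V : Type u} [Fintype V] {C : Ctx V}

omit [Fintype V] in
/-- paths of length at most two in a star -/
theorem star_paths (G : SimpleGraph V) (S' : Set V) (z : V) (hz : z ∈ S')
    (h : ∀ a ∈ S', a = z ∨ G.Adj a z) : ∀ a ∈ S', ∀ a' ∈ S', ∃ P : G.Walk a a',
      P.IsPath ∧ (∀ x ∈ P.support, x ∈ S') ∧ P.length ≤ 2 := by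
  have key : ∀ a ∈ S', ∃ P : G.Walk a z, (∀ x ∈ P.support, x ∈ S') ∧ P.length ≤ 1 := by
    intro a ha
    rcases h a ha with rfl | h1
    · exact ⟨Walk.nil, by simpa using ha, by simp⟩
    · refine ⟨Walk.cons h1 Walk.nil, ?_, by simp⟩
      intro x hx
      rw [Walk.support_cons, Walk.support_nil, List.mem_cons, List.mem_singleton] at hx
      rcases hx with rfl | rfl
      · exact ha
      · exact hz
  intro a ha a' ha'
  obtain ⟨P, hP, hPl⟩ := key a ha
  obtain ⟨P', hP', hPl'⟩ := key a' ha'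
  obtain ⟨R, hR, hRS, hRl⟩ := exists_path_of_walk S' (P.append P'.reverse) (by
    intro x hx
    rw [Walk.mem_support_append_iff, Walk.support_reverse, List.mem_reverse] at hx
    rcases hx with hx | hx
    · exact hP x hx
    · exact hP' x hx)
  refine ⟨R, hR, hRS, ?_⟩
  rw [Walk.length_append, Walk.length_reverse] at hRl
  omega

/-- a `t`-coloured vertex whose owner is the index of a contact `a ∉ Q` is adjacent to `a` -/
theorem adj_of_own_nQ {a τ : V} (haQ : a ∉ C.Q) (ha : C.Con a) (hτ : C.f τ = C.t)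
    (h : C.own τ = C.ι a) : C.G.Adj τ a := by
  obtain ⟨τ', h1, h2, h3⟩ := C.ι_nQ haQ ha
  have : τ = τ' := C.t_unique hτ h1 (by rw [h, h3])
  subst this
  exact h2.symm

/-- if nothing is cut, the region is the core -/
theorem Cuts.R_sub_R0 {K : Core C} (D : Cuts K) (hB : ¬ D.B.Nonempty) {x : V} (hx : x ∈ D.R) :
    x ∈ K.R0 := by
  rcases hx with h | ⟨z, hz, _⟩
  · exact h
  · exact absurd ⟨z, hz⟩ hB

/-- case 1: some contact is cut. `finish` with `S' = D.S`, `L = 2m-2`, `A = D.idx`. -/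
theorem Cuts.case1 {K : Core C} (D : Cuts K) (hB : D.B.Nonempty) :
    IsAcyclicColouring C.G D.col := by
  have h1 := D.m_lt hB
  have h2 := D.two_le_m hB
  refine D.finish D.S (2 * D.idx.card - 2) D.idx ?_ (fun x hx => Or.inl hx)
    (fun x hx => D.S_con hx) (fun τ hτ h => D.t_adj_S hτ h) h2 (by omega)
  intro a ha a' ha'
  obtain ⟨P, hP, hPS⟩ := D.S_conn ha ha'
  have := D.S_path_short hB P hP hPS
  exact ⟨P, hP, hPS, by omega⟩

/-- case 2: no contact is cut, the core has at least two vertices. `finish` with `S' = R0`, `L = 2`,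
`A = {ι p, ι x}`, `x ∈ R0`, `x ≠ p` (vertices of `R0` are outside `Q`: `ι_nQ`, `t_unique`). -/
theorem Cuts.case2 {K : Core C} (D : Cuts K) (hB : ¬ D.B.Nonempty) (h : 2 ≤ K.R0.card) :
    IsAcyclicColouring C.G D.col := by
  have hk := C.hk
  obtain ⟨x, hx, hxp⟩ : ∃ x ∈ K.R0, x ≠ C.p := by
    by_contra hcon
    push Not at hcon
    have : K.R0.card ≤ 1 := Finset.card_le_one.2 (fun a ha b hb => by
      rw [hcon a ha, hcon b hb])
    omega
  have hne : C.ι C.p ≠ C.ι x := K.core_inj (Or.inl K.hp) (Or.inl hx) (Ne.symm hxp)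
  have hcard : ({C.ι C.p, C.ι x} : Finset (Fin C.k)).card = 2 := Finset.card_pair hne
  refine D.finish (↑K.R0) 2 {C.ι C.p, C.ι x} K.hconn (fun y hy => D.R_sub_R0 hB hy)
    (fun y hy => K.hcon y hy) ?_ (le_of_eq hcard.symm) (by rw [hcard]; omega)
  intro τ hτ hτo
  rw [Finset.mem_insert, Finset.mem_singleton] at hτo
  rcases hτo with h1 | h1
  · exact ⟨C.p, K.hp, adj_of_own_nQ (K.hnQ _ K.hp) (K.hcon _ K.hp) hτ h1⟩
  · exact ⟨x, hx, adj_of_own_nQ (K.hnQ _ hx) (K.hcon _ hx) hτ h1⟩

/-- case 3: no contact is cut, the core is `{p}`, there is a contact `z`. `finish` with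
`S' = {p, z}` if `z ∉ Q` and `S' = {p, z, ctr (own z)}` if `z ∈ Q` (then `own z ≠ t` because otherwise
`z ~ ctr t ~ p ~ z` would be a triangle), `L = 2`, `A = {ι p, ι z}`. -/
theorem Cuts.case3 {K : Core C} (D : Cuts K) (hB : ¬ D.B.Nonempty) (h : K.R0 = {C.p})
    {z : V} (hz : z ∈ K.Kset) : IsAcyclicColouring C.G D.col := by
  have hk := C.hk
  have hz' := K.mem_Kset.1 hz
  obtain ⟨hzc, hzR, u, hu, hzu⟩ := hz'
  rw [h, Finset.mem_singleton] at hu
  subst hu
  have hzp : z ≠ C.p := C.G.ne_of_adj hzu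
  have hne : C.ι C.p ≠ C.ι z := K.core_inj (Or.inl K.hp) (Or.inr hz) (Ne.symm hzp)
  have hcard : ({C.ι C.p, C.ι z} : Finset (Fin C.k)).card = 2 := Finset.card_pair hne
  have hR : ∀ x ∈ D.R, x = C.p := by
    intro x hx
    have := D.R_sub_R0 hB hx
    rwa [h, Finset.mem_singleton] at this
  by_cases hzQ : z ∈ C.Q
  · obtain ⟨hyQ, hyz⟩ := C.hQ1 z hzQ
    have hot : C.own z ≠ C.t := by
      intro hot
      rw [hot] at hyz
      rcases hyz with h1 | h1
      · exact hzc.1 (by rw [h1]; exact C.f_ctr_t)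
      · -- triangle
        have hP : (Walk.cons C.hpv Walk.nil : C.G.Walk C.p (C.ctr C.t)).IsPath := by
          rw [Walk.cons_isPath_iff]
          exact ⟨Walk.IsPath.nil, by simpa using C.G.ne_of_adj C.hpv⟩
        have hP' : (Walk.cons hzu.symm (Walk.cons h1 Walk.nil) :
            C.G.Walk C.p (C.ctr C.t)).IsPath := by
          rw [Walk.cons_isPath_iff, Walk.cons_isPath_iff]
          refine ⟨⟨Walk.IsPath.nil, by simpa using C.G.ne_of_adj h1⟩, ?_⟩
          rw [Walk.support_cons, Walk.support_nil, List.mem_cons, List.mem_singleton]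
          rintro (h2 | h2)
          · exact hzp h2.symm
          · exact C.G.ne_of_adj C.hpv h2
        have := spp C.hg _ _ hP hP' (by simp; omega)
        have := congrArg Walk.length this
        simp at this
    have hfy : C.f (C.ctr (C.own z)) = C.own z := by rw [C.hfQ _ hyQ, C.hctr]
    have hyc : C.Con (C.ctr (C.own z)) := ⟨by rw [hfy]; exact hot, Or.inl hyQ⟩
    refine D.finish {x | x = C.p ∨ x = z ∨ x = C.ctr (C.own z)} 2 {C.ι C.p, C.ι z}
      (star_paths C.G _ z (Or.inr (Or.inl rfl)) ?_) (fun x hx => Or.inl (hR x hx)) ?_ ?_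
      (le_of_eq hcard.symm) (by rw [hcard]; omega)
    · rintro a (rfl | rfl | rfl)
      · exact Or.inr hzu.symm
      · exact Or.inl rfl
      · rcases hyz with h1 | h1
        · exact Or.inl h1.symm
        · exact Or.inr h1.symm
    · rintro x (rfl | rfl | rfl)
      · exact C.con_p
      · exact hzc
      · exact hyc
    · intro τ hτ hτo
      rw [Finset.mem_insert, Finset.mem_singleton] at hτo
      rcases hτo with h1 | h1
      · exact ⟨C.p, Or.inl rfl, adj_of_own_nQ C.hpQ C.con_p hτ h1⟩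
      · rw [C.ι_Q hzQ] at h1
        refine ⟨C.ctr (C.own z), Or.inr (Or.inr rfl), ?_⟩
        obtain ⟨_, h2⟩ := C.hQ1 τ (C.hft τ hτ)
        rw [h1] at h2
        rcases h2 with h2 | h2
        · exact absurd (by rw [← h2]; exact hτ) hyc.1
        · exact h2
  · refine D.finish {x | x = C.p ∨ x = z} 2 {C.ι C.p, C.ι z}
      (star_paths C.G _ z (Or.inr rfl) ?_) (fun x hx => Or.inl (hR x hx)) ?_ ?_
      (le_of_eq hcard.symm) (by rw [hcard]; omega)
    · rintro a (rfl | rfl)
      · exact Or.inr hzu.symm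
      · exact Or.inl rfl
    · rintro x (rfl | rfl)
      · exact C.con_p
      · exact hzc
    · intro τ hτ hτo
      rw [Finset.mem_insert, Finset.mem_singleton] at hτo
      rcases hτo with h1 | h1
      · exact ⟨C.p, Or.inl rfl, adj_of_own_nQ C.hpQ C.con_p hτ h1⟩
      · exact ⟨z, Or.inr rfl, adj_of_own_nQ hzQ hzc hτ h1⟩

/-- case 4: the core is `{p}`, `p` has a second neighbour `τ` of colour `t`.
`finish` with `S' = {p}`, `L = 0`, `A = {t, own τ}`. -/
theorem Cuts.case4 {K : Core C} (D : Cuts K) (hB : ¬ D.B.Nonempty) (h : K.R0 = {C.p})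
    {τ : V} (hτ : C.f τ = C.t) (hτp : C.G.Adj C.p τ) (hne : τ ≠ C.ctr C.t) :
    IsAcyclicColouring C.G D.col := by
  have hk := C.hk
  have hot : C.t ≠ C.own τ := by
    intro ho
    exact hne (C.t_unique hτ C.f_ctr_t (by rw [C.own_ctr_t, ho]))
  have hcard : ({C.t, C.own τ} : Finset (Fin C.k)).card = 2 := Finset.card_pair hot
  refine D.finish {x | x = C.p} 0 {C.t, C.own τ} ?_ ?_ ?_ ?_
      (le_of_eq hcard.symm) (by rw [hcard]; omega)
  · rintro a rfl a' rfl
    exact ⟨Walk.nil, Walk.IsPath.nil, by simp, by simp⟩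
  · intro x hx
    have := D.R_sub_R0 hB hx
    rwa [h, Finset.mem_singleton] at this
  · rintro x rfl
    exact C.con_p
  · intro σ hσ hσo
    rw [Finset.mem_insert, Finset.mem_singleton] at hσo
    refine ⟨C.p, rfl, ?_⟩
    rcases hσo with h1 | h1
    · have : σ = C.ctr C.t := C.t_unique hσ C.f_ctr_t (by rw [h1, C.own_ctr_t])
      rw [this]
      exact C.hpv.symm
    · have : σ = τ := C.t_unique hσ hτ h1
      rw [this]
      exact hτp.symm

end Pool.Agent.LibBChrom26
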