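import Pool.Agent.LibBChrom26.Reg2

namespace Pool.Agent.LibBChrom26

open SimpleGraph Classical

universe u

variable {V : Type u} [Fintype V] {C : Ctx V}

namespace Cuts

variable {K : Core C} (D : Cuts K)

theorem ColP_not_W {x : V} (hx : C.Gam x) : x ∉ D.W := fun h => D.W_not_Gam h hx

theorem ColP_col_W {x : V} (hx : x ∈ D.W) : D.col x = C.t := by simp [col, hx]

theorem ColP_col_nW {x : V} (hx : x ∉ D.W) : D.col x = K.hcol x := by simp [col, hx]

theorem col_Q {q : V} (hq : q ∈ C.Q) : D.col q = C.c q := by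
  rw [D.ColP_col_nW (D.ColP_not_W (Or.inl hq)), K.hcol_not_mem (fun h => K.hnQ q h hq), C.hfQ q hq]

theorem col_p : D.col C.p = C.c C.p := by
  rw [D.ColP_col_nW (D.ColP_not_W C.con_p.2), K.hcol_mem K.hp, K.h0p]

/-- every shield vertex has a neighbour in the region -/
theorem W_adj {w : V} (hw : w ∈ D.W) : ∃ r ∈ D.R, C.G.Adj w r := by
  obtain ⟨_, h | h⟩ := hw
  · obtain ⟨u, hu, hwu⟩ := h
    exact ⟨u, D.R0_sub hu, hwu⟩
  · obtain ⟨z, hz, u, hu, hzu, x, hx, hwx, _⟩ := h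
    exact ⟨x, Or.inr ⟨z, hz, u, hu, hzu, hx⟩, hwx⟩

theorem col_eq_t {x : V} (h : D.col x = C.t) : x ∈ D.W ∨ C.f x = C.t := by
  by_cases hW : x ∈ D.W
  · exact Or.inl hW
  · right
    rw [D.ColP_col_nW hW] at h
    by_cases hR : x ∈ K.R0
    · rw [K.hcol_mem hR] at h
      exact absurd h (K.h0t x hR)
    · rwa [K.hcol_not_mem hR] at h

theorem col_con_ne_t {x : V} (h : C.Con x) : D.col x ≠ C.t := by
  intro hx
  rcases D.col_eq_t hx with h1 | h1
  · exact D.W_not_Gam h1 h.2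
  · exact h.1 h1

theorem ColP_WW (S' : Set V) (L : ℕ) (hL : ∀ a ∈ S', ∀ a' ∈ S', ∃ P : C.G.Walk a a',
    P.IsPath ∧ (∀ x ∈ P.support, x ∈ S') ∧ P.length ≤ L) (hL2 : L + 3 ≤ 2 * C.k)
    (hRS : ∀ x ∈ D.R, x ∈ S') (hSC : ∀ x ∈ S', C.Con x) {u v : V} (huv : C.G.Adj u v)
    (hu : u ∈ D.W) (hv : v ∈ D.W) : False := by
  obtain ⟨a, ha, hua⟩ := D.W_adj hu
  obtain ⟨b, hb, hvb⟩ := D.W_adj hv
  obtain ⟨P, hP, hPS, hPL⟩ := hL a (hRS a ha) b (hRS b hb)
  have huS : u ∉ S' := fun h => D.W_not_Gam hu (hSC u h).2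
  have hvS : v ∉ S' := fun h => D.W_not_Gam hv (hSC v h).2
  have hP1 : (P.concat hvb.symm).IsPath :=
    hP.concat (fun h => hvS (hPS v h)) hvb.symm
  have hP2 : (Walk.cons hua (P.concat hvb.symm)).IsPath := by
    rw [Walk.cons_isPath_iff]
    refine ⟨hP1, ?_⟩
    rw [Walk.support_concat, List.mem_append, List.mem_singleton]
    rintro (h | h)
    · exact huS (hPS u h)
    · exact huv.ne h
  have hP3 : (Walk.cons huv Walk.nil).IsPath := by
    rw [Walk.cons_isPath_iff]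
    refine ⟨Walk.IsPath.nil, ?_⟩
    rw [Walk.support_nil, List.mem_singleton]
    exact huv.ne
  have heq := spp C.hg _ _ hP2 hP3 (by
    rw [Walk.length_cons, Walk.length_concat, Walk.length_cons, Walk.length_nil]
    omega)
  have hmem : a ∈ (Walk.cons hua (P.concat hvb.symm)).support := by
    rw [Walk.support_cons, Walk.support_concat]
    simp
  rw [heq, Walk.support_cons, Walk.support_nil] at hmem
  simp only [List.mem_cons, List.not_mem_nil, or_false] at hmem
  rcases hmem with h | h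
  · exact huS (h ▸ hRS a ha)
  · exact hvS (h ▸ hRS a ha)

theorem ColP_W_n {u v : V} (huv : C.G.Adj u v) (hu : u ∈ D.W) (hv : v ∉ D.W) :
    D.col u ≠ D.col v := by
  rw [D.ColP_col_W hu]
  intro h
  rcases D.col_eq_t h.symm with h1 | h1
  · exact hv h1
  · exact D.W_not_Gam hu (Or.inr ⟨v, h1, huv⟩)

theorem ColP_R0 {u v : V} (huv : C.G.Adj u v) (hu : u ∈ K.R0) (hv : v ∉ D.W) :
    K.hcol u ≠ K.hcol v := by
  rw [K.hcol_mem hu]
  by_cases hc : C.Con v
  · exact K.hprop u hu v hc huv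
  · by_cases ht : C.f v = C.t
    · have hvR : v ∉ K.R0 := fun h => (K.hcon v h).1 ht
      rw [K.hcol_not_mem hvR, ht]
      exact K.h0t u hu
    · exfalso
      apply hv
      exact ⟨fun hg => hc ⟨ht, hg⟩, Or.inl ⟨u, hu, huv.symm⟩⟩

/-- properness of the new colouring, if the region lies in a set `S'` of small diameter.
Two adjacent vertices of `W` would give a path of length `≤ L+2` besides the edge (`spp`);
`W` and `t`-coloured vertices are not adjacent (`W` is outside `Γ`); `K.hprop`; a non-`Γ`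
neighbour of `R0` is in `W`; otherwise `f` is proper. -/
theorem col_proper (S' : Set V) (L : ℕ) (hL : ∀ a ∈ S', ∀ a' ∈ S', ∃ P : C.G.Walk a a',
    P.IsPath ∧ (∀ x ∈ P.support, x ∈ S') ∧ P.length ≤ L) (hL2 : L + 3 ≤ 2 * C.k)
    (hRS : ∀ x ∈ D.R, x ∈ S') (hSC : ∀ x ∈ S', C.Con x) : Proper C.G D.col := by
  intro u v huv
  by_cases hu : u ∈ D.W
  · by_cases hv : v ∈ D.W
    · exact (D.ColP_WW S' L hL hL2 hRS hSC huv hu hv).elim
    · exact D.ColP_W_n huv hu hv
  · by_cases hv : v ∈ D.W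
    · exact (D.ColP_W_n huv.symm hv hu).symm
    · rw [D.ColP_col_nW hu, D.ColP_col_nW hv]
      by_cases huR : u ∈ K.R0
      · exact D.ColP_R0 huv huR hv
      · by_cases hvR : v ∈ K.R0
        · exact (D.ColP_R0 huv.symm hvR hu).symm
        · rw [K.hcol_not_mem huR, K.hcol_not_mem hvR]
          exact C.f_ne_of_adj huv

end Cuts

end Pool.Agent.LibBChrom26
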