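import Pool.Agent.LibBChrom26.Ctx

/-!
# The core: recoloured vertices around `p`
-/

namespace Pool.Agent.LibBChrom26

open SimpleGraph Classical

universe u

/-- colour after recolouring the core only -/
noncomputable def hcolOf {V : Type u} [Fintype V] (C : Ctx V) (R0 : Finset V)
    (h0 : V → Fin C.k) (z : V) : Fin C.k := if z ∈ R0 then h0 z else C.f z

/-- The recoloured core (point (2) of the notes). `hdead`: no two-coloured cycle uses an edge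
inside the core (`E` stands for the set of edges of the cycle). -/
structure Core {V : Type u} [Fintype V] (C : Ctx V) where
  R0 : Finset V
  h0 : V → Fin C.k
  hp : C.p ∈ R0
  h0p : h0 C.p = C.c C.p
  hcon : ∀ x ∈ R0, C.Con x
  hnQ : ∀ x ∈ R0, x ∉ C.Q
  hconn : ∀ x ∈ R0, ∀ y ∈ R0, ∃ P : C.G.Walk x y, P.IsPath ∧ (∀ z ∈ P.support, z ∈ R0) ∧
    P.length ≤ 2
  h0t : ∀ x ∈ R0, h0 x ≠ C.t
  hprop : ∀ x ∈ R0, ∀ y, C.Con y → C.G.Adj x y → h0 x ≠ hcolOf C R0 h0 y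
  hdead : ∀ E : Set (Sym2 V),
    (∀ x ∈ R0, ∀ g, s(x, g) ∈ E → C.G.Adj x g ∧ C.Con g) →
    (∀ x ∈ R0, ∀ g, s(x, g) ∈ E → ∃ g', g' ≠ g ∧ s(x, g') ∈ E) →
    (∀ x ∈ R0, ∀ g g', s(x, g) ∈ E → s(x, g') ∈ E →
      hcolOf C R0 h0 g = hcolOf C R0 h0 g') →
    ∀ x ∈ R0, ∀ y ∈ R0, s(x, y) ∉ E

end Pool.Agent.LibBChrom26
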