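import Pool.Agent.LibBChrom26.Defs

/-!
# The context of the Step Lemma, contacts, indices
-/

namespace Pool.Agent.LibBChrom26

open SimpleGraph Classical

universe u

/-- All data of the Step Lemma. -/
structure Ctx (V : Type u) [Fintype V] where
  G : SimpleGraph V
  k : ℕ
  hk : 4 ≤ k
  hg : ∀ (v : V) (w : G.Walk v v), w.IsCycle → 2 * k < w.length
  c : V → Fin k
  hc : Proper G c
  ctr : Fin k → V
  hctr : ∀ i, c (ctr i) = i
  Q : Set V
  own : V → Fin k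
  hQ1 : ∀ q ∈ Q, ctr (own q) ∈ Q ∧ (q = ctr (own q) ∨ G.Adj q (ctr (own q)))
  hQ2 : ∀ q ∈ Q, ∀ q' ∈ Q, own q = own q' → c q = c q' → q = q'
  hQ3 : ∀ i, ctr i ∈ Q → own (ctr i) = i
  f : V → Fin k
  hf : IsAcyclicColouring G f
  hfQ : ∀ q ∈ Q, f q = c q
  t : Fin k
  hft : ∀ x, f x = t → x ∈ Q
  htQ : ctr t ∈ Q
  p : V
  hpv : G.Adj p (ctr t)
  hpQ : p ∉ Q
  hfp : f p ≠ c p

namespace Ctx

variable {V : Type u} [Fintype V] (C : Ctx V)

/-- `z` is in `Γ`: protected or adjacent to a `t`-coloured vertex. -/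
def Gam (z : V) : Prop := z ∈ C.Q ∨ ∃ τ, C.f τ = C.t ∧ C.G.Adj z τ

/-- contacts: `Γ` minus the `t`-coloured vertices. -/
def Con (z : V) : Prop := C.f z ≠ C.t ∧ C.Gam z

/-- the index function -/
noncomputable def ι (z : V) : Fin C.k :=
  if z ∈ C.Q then C.own z else if z = C.p then C.t else
    if h : ∃ τ, C.f τ = C.t ∧ C.G.Adj z τ then C.own h.choose else C.t

theorem c_t {τ : V} (h : C.f τ = C.t) : C.c τ = C.t := by
  rw [← C.hfQ τ (C.hft τ h)]; exact h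

theorem f_ctr_t : C.f (C.ctr C.t) = C.t := by
  rw [C.hfQ _ C.htQ, C.hctr]

theorem cp_ne_t : C.c C.p ≠ C.t := by
  have := C.hc _ _ C.hpv
  rwa [C.hctr] at this

theorem fp_ne_t : C.f C.p ≠ C.t := fun h => C.hpQ (C.hft _ h)

theorem con_p : C.Con C.p := ⟨C.fp_ne_t, Or.inr ⟨_, C.f_ctr_t, C.hpv⟩⟩

/-- two `t`-coloured vertices with the same owner are equal -/
theorem t_unique {τ τ' : V} (h : C.f τ = C.t) (h' : C.f τ' = C.t) (ho : C.own τ = C.own τ') :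
    τ = τ' :=
  C.hQ2 _ (C.hft _ h) _ (C.hft _ h') ho ((C.c_t h).trans (C.c_t h').symm)

theorem own_ctr_t : C.own (C.ctr C.t) = C.t := C.hQ3 _ C.htQ

theorem f_ne_of_adj {x y : V} (h : C.G.Adj x y) : C.f x ≠ C.f y := C.hf.1 x y h

theorem ι_Q {z : V} (h : z ∈ C.Q) : C.ι z = C.own z := by
  simp [ι, h]

theorem ι_p : C.ι C.p = C.t := by
  simp [ι, C.hpQ]

theorem ι_nQ {z : V} (h : z ∉ C.Q) (hz : C.Con z) :
    ∃ τ, C.f τ = C.t ∧ C.G.Adj z τ ∧ C.own τ = C.ι z := by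
  by_cases hzp : z = C.p
  · subst hzp
    exact ⟨C.ctr C.t, C.f_ctr_t, C.hpv, by rw [C.ι_p, C.own_ctr_t]⟩
  · have h' : ∃ τ, C.f τ = C.t ∧ C.G.Adj z τ := by
      rcases hz.2 with h1 | h1
      · exact absurd h1 h
      · exact h1
    refine ⟨h'.choose, h'.choose_spec.1, h'.choose_spec.2, ?_⟩
    simp [ι, h, hzp, h']

end Ctx

end Pool.Agent.LibBChrom26
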