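import Mathlib

/-!
# Acyclic b-chromatic number: definitions (MP_d0a63c_co)
-/

namespace Pool.Agent.LibBChrom26

open SimpleGraph

universe u

variable {V : Type u}

/-- `c` is a proper colouring of `G` (adjacent vertices get different colours). -/
def Proper (G : SimpleGraph V) {k : ℕ} (c : V → Fin k) : Prop :=
  ∀ u v, G.Adj u v → c u ≠ c v

/-- `v` is a b-vertex of the colouring `c`: every other colour occurs on a neighbour of `v`. -/
def IsBVertex (G : SimpleGraph V) {k : ℕ} (c : V → Fin k) (v : V) : Prop :=
  ∀ j, j ≠ c v → ∃ w, G.Adj v w ∧ c w = j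

/-- A b-colouring with `k` colours: proper, all `k` colours used, a b-vertex in every class. -/
def IsBColouring (G : SimpleGraph V) {k : ℕ} (c : V → Fin k) : Prop :=
  Proper G c ∧ Function.Surjective c ∧ ∀ i, ∃ v, c v = i ∧ IsBVertex G c v

/-- The b-chromatic number: largest `k` such that a b-colouring with `k` colours exists. -/
noncomputable def bChromaticNumber (G : SimpleGraph V) : ℕ :=
  sSup {k : ℕ | ∃ c : V → Fin k, IsBColouring G c}

/-- Acyclic colouring: proper, and any two colour classes induce a forest. -/
def IsAcyclicColouring (G : SimpleGraph V) {k : ℕ} (c : V → Fin k) : Prop :=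
  Proper G c ∧ ∀ i j, (G.induce {v | c v = i ∨ c v = j}).IsAcyclic

/-- `c'` is obtained from `c` by an acyclic recolouring step removing the colour `i`:
every vertex of colour `i` gets a colour different from `i` that does not occur in its closed
neighbourhood, the other vertices keep their colours, and the new colouring is acyclic. -/
def IsAcyclicStep (G : SimpleGraph V) {k : ℕ} (c c' : V → Fin k) (i : Fin k) : Prop :=
  (∀ v, c v ≠ i → c' v = c v) ∧
  (∀ v, c v = i → c' v ≠ i ∧ ∀ w, G.Adj v w → c w ≠ c' v) ∧
  IsAcyclicColouring G c'

/-- The acyclic b-chromatic number: largest number of colours of an acyclic colouring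
(all colours used) that admits no acyclic recolouring step. -/
noncomputable def acyclicBChromaticNumber (G : SimpleGraph V) : ℕ :=
  sSup {k : ℕ | ∃ c : V → Fin k, Function.Surjective c ∧ IsAcyclicColouring G c ∧
    ¬ ∃ (i : Fin k) (c' : V → Fin k), IsAcyclicStep G c c' i}

end Pool.Agent.LibBChrom26
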