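import Pool.Agent.LibBChrom26.Defs

namespace Pool.Agent.LibBChrom26

open SimpleGraph

universe u

variable {V : Type u}

/-- Working form of acyclicity: no cycle of `G` has all its vertices in two colours.
(map a cycle of the induced graph into `G`; conversely `Walk.induce`.) -/
theorem isAcyclicColouring_iff (G : SimpleGraph V) {k : ℕ} (c : V → Fin k) :
    IsAcyclicColouring G c ↔ Proper G c ∧ ∀ (i j : Fin k) (v : V) (w : G.Walk v v), w.IsCycle →
      ¬ ∀ x ∈ w.support, c x = i ∨ c x = j := by
  unfold IsAcyclicColouring
  refine and_congr_right fun _ => ?_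
  constructor
  · intro h i j v w hw hx
    have hs : ∀ x ∈ w.support, x ∈ {v | c v = i ∨ c v = j} := hx
    have hm := Walk.map_induce w hs
    refine h i j (w.induce _ hs) ?_
    have := hw
    rw [← hm] at this
    exact (Walk.isCycle_map_iff_of_injective
      (f := (Embedding.induce (G := G) {v | c v = i ∨ c v = j}).toHom)
      (Embedding.induce (G := G) {v | c v = i ∨ c v = j}).injective).1 this
  · intro h i j v w hw
    refine h i j _ (w.map (Embedding.induce {v | c v = i ∨ c v = j}).toHom) ?_ ?_
    · exact (Walk.isCycle_map_iff_of_injective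
        (f := (Embedding.induce (G := G) {v | c v = i ∨ c v = j}).toHom)
        (Embedding.induce (G := G) {v | c v = i ∨ c v = j}).injective).2 hw
    · intro x hx
      rw [Walk.support_map, List.mem_map] at hx
      obtain ⟨y, _, rfl⟩ := hx
      exact y.2

end Pool.Agent.LibBChrom26
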