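import Pool.Agent.LibBChrom26.DepthSp

namespace Pool.Agent.LibBChrom26

open SimpleGraph Classical

universe u

variable {V : Type u} [Fintype V] {C : Ctx V}

namespace Cuts

variable {K : Core C} (D : Cuts K)

/-- DEPTH LEMMA (point (4)). If it fails, shorten `P` (`Walk.take`) to `P.length + |R0| + |K| = k+3`.
Special case `k = 4`, `|R0| = 1`, `|K| = 2`: `depth_special`. Otherwise the index is injective on
`R0 ∪ (K \ {z}) ∪ (support P \ {ctr (f z), ctr (h0 u)})`, which has `> k` elements:
* `R0 ∪ K`: `core_inj`;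
* `g ∈ R0` and `y ∈ P`: path `g .. u z .. y` (`path_through`) and `window'`;
* `o ∈ K \ z`, attached to `u'`, and `y ∈ P`: path `o u' .. u z .. y` (note `o ∉ P.support` by `spp`)
  of length `≤ k+4-|K| ≤ 2k-3`, resp. if `|K| = 2` then `u' = u` and the length is `≤ k+3-|R0|`;
* `P` itself: `inj_off_centres`. -/
theorem depth {z u x : V} (hz : z ∈ D.B) (hu : u ∈ K.R0) (hzu : C.G.Adj z u)
    (P : C.G.Walk z x) (hP : P.IsPath) (hPY : ∀ y ∈ P.support, y ∈ K.Y u z) :
    P.length + K.R0.card + K.Kset.card ≤ C.k + 2 := by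
  by_contra hcon
  have hk := C.hk
  have hzK := D.B1 z hz
  have hzR : z ∉ K.R0 := (K.mem_Kset.1 hzK).2.1
  obtain ⟨o, hoK, hoB, hou, hfo, -⟩ := D.B2 z hz u hu hzu
  have hoz : o ≠ z := fun h => hoB (h ▸ hz)
  have hK2 : 2 ≤ K.Kset.card := by
    have : ({o, z} : Finset V).card ≤ K.Kset.card := Finset.card_le_card (by
      intro v hv
      simp only [Finset.mem_insert, Finset.mem_singleton] at hv
      rcases hv with rfl | rfl
      · exact hoK
      · exact hzK)
    rwa [Finset.card_pair hoz] at this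
  have hle := K.card_le
  have hR1 : 1 ≤ K.R0.card := Finset.card_pos.2 ⟨_, K.hp⟩
  -- shorten
  obtain ⟨n, hn⟩ : ∃ n, n + K.R0.card + K.Kset.card = C.k + 3 :=
    ⟨C.k + 3 - K.R0.card - K.Kset.card, by omega⟩
  have hPl : n ≤ P.length := by omega
  set P0 := P.take n with hP0
  have hP0l : P0.length = n := by rw [hP0, Walk.take_length]; exact min_eq_left hPl
  have hP0p : P0.IsPath := hP.take n
  have hP0s : ∀ y ∈ P0.support, y ∈ P.support := by
    intro y hy
    rw [hP0, Walk.support_take] at hy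
    exact List.mem_of_mem_take hy
  have hP0Y : ∀ y ∈ P0.support, y ∈ K.Y u z := fun y hy => hPY y (hP0s y hy)
  by_cases hsp : C.k = 4 ∧ K.R0.card = 1 ∧ K.Kset.card = 2
  · exact D.depth_special hsp.1 hsp.2.1 hsp.2.2 hz hu hzu P0 hP0p hP0Y (by omega)
  set T : Finset V := P0.support.toFinset \ {C.ctr (C.f z), C.ctr (K.h0 u)} with hT
  have hTcard : n + 1 ≤ T.card + 2 := by
    have h1 : P0.support.toFinset.card = n + 1 := by
      rw [List.toFinset_card_of_nodup hP0p.support_nodup, Walk.length_support, hP0l]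
    have h2 := Finset.le_card_sdiff {C.ctr (C.f z), C.ctr (K.h0 u)} P0.support.toFinset
    have h3 : ({C.ctr (C.f z), C.ctr (K.h0 u)} : Finset V).card ≤ 2 := Finset.card_le_two
    rw [hT]
    omega
  have hTmem : ∀ y ∈ T, y ∈ P0.support ∧ y ≠ C.ctr (C.f z) ∧ y ≠ C.ctr (K.h0 u) := by
    intro y hy
    rw [hT, Finset.mem_sdiff, List.mem_toFinset] at hy
    refine ⟨hy.1, ?_, ?_⟩
    · rintro rfl; exact hy.2 (by simp)
    · rintro rfl; exact hy.2 (by simp)
  -- distances
  have hoth : ∀ o' ∈ K.Kset, o' ≠ z → ∀ y ∈ P0.support, C.ι o' ≠ C.ι y := by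
    intro o' ho' hne y hy
    obtain ⟨hc, hnR, u', hu', hadj⟩ := K.mem_Kset.1 ho'
    refine contact_ne_path hu hzu hzR P0 hP0p hP0Y hne hnR hc hu' hadj (by omega) ?_ hy
    by_cases h3 : 3 ≤ K.Kset.card
    · left; omega
    · right
      have hK2' : K.Kset.card = 2 := by omega
      have ho'o : o' = o := by
        by_contra hne'
        have : ({o', o, z} : Finset V).card ≤ K.Kset.card := Finset.card_le_card (by
          intro v hv
          simp only [Finset.mem_insert, Finset.mem_singleton] at hv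
          rcases hv with rfl | rfl | rfl
          · exact ho'
          · exact hoK
          · exact hzK)
        rw [Finset.card_eq_three.2 ⟨o', o, z, hne', hne, hoz, rfl⟩] at this
        omega
      subst ho'o
      refine ⟨K.core_unique hnR hu' hu hadj hou, ?_⟩
      omega
  have hcor : ∀ g ∈ K.R0, ∀ y ∈ P0.support, C.ι g ≠ C.ι y := by
    intro g hg y hy
    exact core_ne_path hu hzu P0 hP0p hP0Y hg hy (by omega)
  -- injectivity
  set A : Finset V := (K.R0 ∪ K.Kset.erase z) ∪ T with hA
  have hinj : Set.InjOn C.ι (A : Set V) := by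
    intro a ha b hb hab
    by_contra hne
    rw [hA, Finset.coe_union, Finset.coe_union, Set.mem_union, Set.mem_union, Finset.mem_coe,
      Finset.mem_coe, Finset.mem_coe, Finset.mem_erase] at ha hb
    rcases ha with (ha | ha) | ha <;> rcases hb with (hb | hb) | hb
    · exact K.core_inj (Or.inl ha) (Or.inl hb) hne hab
    · exact K.core_inj (Or.inl ha) (Or.inr hb.2) hne hab
    · exact hcor a ha b (hTmem b hb).1 hab
    · exact K.core_inj (Or.inr ha.2) (Or.inl hb) hne hab
    · exact K.core_inj (Or.inr ha.2) (Or.inr hb.2) hne hab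
    · exact hoth a ha.2 ha.1 b (hTmem b hb).1 hab
    · exact hcor b hb a (hTmem a ha).1 hab.symm
    · exact hoth b hb.2 hb.1 a (hTmem a ha).1 hab.symm
    · exact inj_off_centres P0 hP0p hP0Y (by omega) (hTmem a ha).1 (hTmem b hb).1 hne
        (hTmem a ha).2.1 (hTmem a ha).2.2 (hTmem b hb).2.1 (hTmem b hb).2.2 hab
  have hAle : A.card ≤ C.k := by
    rw [← Finset.card_image_of_injOn hinj]
    exact (Finset.card_le_univ _).trans (by simp)
  have hd1 : Disjoint K.R0 (K.Kset.erase z) := by
    rw [Finset.disjoint_left]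
    intro a ha hb
    exact (K.mem_Kset.1 (Finset.mem_of_mem_erase hb)).2.1 ha
  have hd2 : Disjoint (K.R0 ∪ K.Kset.erase z) T := by
    rw [Finset.disjoint_left]
    intro a ha hb
    rw [Finset.mem_union] at ha
    rcases ha with ha | ha
    · exact (hP0Y a (hTmem a hb).1).2.1 ha
    · rw [Finset.mem_erase] at ha
      exact hoth a ha.2 ha.1 a (hTmem a hb).1 rfl
  have hAc : A.card = K.R0.card + (K.Kset.card - 1) + T.card := by
    rw [hA, Finset.card_union_of_disjoint hd2, Finset.card_union_of_disjoint hd1,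
      Finset.card_erase_of_mem hzK]
  omega

end Cuts

end Pool.Agent.LibBChrom26
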