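import Pool.Agent.LibBChrom26.DepthTools

namespace Pool.Agent.LibBChrom26

open SimpleGraph Classical

universe u

variable {V : Type u} [Fintype V] {C : Ctx V}

namespace Cuts

variable {K : Core C}

/-- two different vertices with the same index on a two-coloured path -/
theorem dup_index {u z x : V} (P : C.G.Walk z x) (hP : P.IsPath)
    (hPY : ∀ y ∈ P.support, y ∈ K.Y u z) (hlen : P.length + 3 ≤ 2 * C.k)
    {a b : V} (ha : a ∈ P.support) (hb : b ∈ P.support) (hab : a ≠ b) (hι : C.ι a = C.ι b) :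
    (C.ι a = C.f z ∨ C.ι a = K.h0 u) ∧ (a = C.ctr (C.ι a) ∨ b = C.ctr (C.ι a)) := by
  obtain ⟨P', hP', hsub, hl⟩ := subpath_exists P hP ha hb
  obtain ⟨hQ, -, hc⟩ := C.window P' hP' hab (fun y hy => (hPY y (hsub y hy)).1) (by omega) hι
  have haQ : a ∈ C.Q := hQ a P'.start_mem_support
  have hbQ : b ∈ C.Q := hQ b P'.end_mem_support
  have hcQ : C.ctr (C.ι a) ∈ C.Q := hQ _ hc
  have hfc : C.f (C.ctr (C.ι a)) = C.ι a := by rw [C.hfQ _ hcQ, C.hctr]
  have hcY := (hPY _ (hsub _ hc)).2.2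
  rw [hfc] at hcY
  refine ⟨hcY, ?_⟩
  by_contra hcon
  push Not at hcon
  obtain ⟨hac, hbc⟩ := hcon
  have hoa : C.own a = C.ι a := (C.ι_Q haQ).symm
  have hob : C.own b = C.ι a := by rw [hι]; exact (C.ι_Q hbQ).symm
  have adja : C.G.Adj a (C.ctr (C.ι a)) := by
    rcases (C.hQ1 a haQ).2 with h | h
    · exact absurd (hoa ▸ h) hac
    · rwa [hoa] at h
  have adjb : C.G.Adj b (C.ctr (C.ι a)) := by
    rcases (C.hQ1 b hbQ).2 with h | h
    · exact absurd (hob ▸ h) hbc
    · rwa [hob] at h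
  have h1 := C.f_ne_of_adj adja
  have h2 := C.f_ne_of_adj adjb
  rw [hfc] at h1 h2
  have hfa := (hPY a ha).2.2
  have hfb := (hPY b hb).2.2
  have hfab : C.f a = C.f b := by
    rcases hcY with h | h <;> rcases hfa with h3 | h3 <;> rcases hfb with h4 | h4 <;>
      simp_all
  have hcab : C.c a = C.c b := by
    rw [← C.hfQ a haQ, ← C.hfQ b hbQ]; exact hfab
  exact hab (C.hQ2 a haQ b hbQ (hoa.trans hob.symm) hcab)

theorem no_three {u z x : V} (P : C.G.Walk z x) (hP : P.IsPath)
    (hPY : ∀ y ∈ P.support, y ∈ K.Y u z) (hlen : P.length + 3 ≤ 2 * C.k)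
    {a b c : V} (ha : a ∈ P.support) (hb : b ∈ P.support) (hc : c ∈ P.support)
    (hab : a ≠ b) (hac : a ≠ c) (hbc : b ≠ c) (h1 : C.ι a = C.ι b) (h2 : C.ι a = C.ι c) :
    False := by
  have e1 := (dup_index P hP hPY hlen ha hb hab h1).2
  have e2 := (dup_index P hP hPY hlen ha hc hac h2).2
  have e3 := (dup_index P hP hPY hlen hb hc hbc (h1.symm.trans h2)).2
  rw [← h1] at e3
  rcases e1 with e1 | e1
  · rcases e3 with e3 | e3
    · exact hab (e1.trans e3.symm)
    · exact hac (e1.trans e3.symm)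
  · rcases e2 with e2 | e2
    · exact hab (e2.trans e1.symm)
    · exact hbc (e1.trans e2.symm)

variable (D : Cuts K)

/-- DEPTH LEMMA, special case `k = 4`, `R0 = {p}`, two contacts (end of point (4)). `P = z1..z5`.
`o` = the open contact of `B2`. Since `Comp u z` has at least 5 elements so has `Comp u o`, so there
is `o2 ∈ Comp u o` adjacent to `o`. Indices of `z1..z4` differ from `ι p = t` and `ι o` (paths
`u z1 ..`, `o u z1 .. z4` of length `≤ 5`, `window'`). So `z1..z4` use only two indices, each at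
most twice, and by `window` equal indices occur only at adjacent vertices one of which is the
centre, whose `f`-colour is the index; so `{ι z1, ι z3} = {f z, h0 u}`. The path
`o2 o u z1 z2 z3` has length 5, so `ι o2 ∉ {t, ι z1, ι z3}`, hence `ι o2 = ι o`, and by `window`
`ι o` is the colour of `o` or `o2`, i.e. `f z` or `h0 u`. Contradiction. -/
theorem depth_special (hk : C.k = 4) (hR : K.R0.card = 1) (hKc : K.Kset.card = 2)
    {z u x : V} (hz : z ∈ D.B) (hu : u ∈ K.R0) (hzu : C.G.Adj z u) (P : C.G.Walk z x)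
    (hP : P.IsPath) (hPY : ∀ y ∈ P.support, y ∈ K.Y u z) (hlen : P.length = 4) : False := by
  have hzK := D.B1 z hz
  have hzR : z ∉ K.R0 := (K.mem_Kset.1 hzK).2.1
  obtain ⟨o, hoK, hoB, hou, hfo, hcard⟩ := D.B2 z hz u hu hzu
  have hoz : o ≠ z := fun h => hoB (h ▸ hz)
  obtain ⟨hoC, hoR, -⟩ := K.mem_Kset.1 hoK
  -- destructure the path
  obtain ⟨z2, z3, z4, h12, h23, h34, h45, rfl⟩ : ∃ (z2 z3 z4 : V) (h12 : C.G.Adj z z2)
      (h23 : C.G.Adj z2 z3) (h34 : C.G.Adj z3 z4) (h45 : C.G.Adj z4 x),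
      P = Walk.cons h12 (Walk.cons h23 (Walk.cons h34 (Walk.cons h45 Walk.nil))) := by
    clear hP hPY
    cases P with
    | nil => simp at hlen
    | cons a1 P =>
      cases P with
      | nil => simp at hlen
      | cons a2 P =>
        cases P with
        | nil => simp at hlen
        | cons a3 P =>
          cases P with
          | nil => simp at hlen
          | cons a4 P =>
            cases P with
            | nil => exact ⟨_, _, _, a1, a2, a3, a4, rfl⟩
            | cons a5 P => simp at hlen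
  set P := Walk.cons h12 (Walk.cons h23 (Walk.cons h34 (Walk.cons h45 Walk.nil))) with hPdef
  have hsup : P.support = [z, z2, z3, z4, x] := by simp [hPdef]
  have hnd := hP.support_nodup
  rw [hsup] at hnd
  simp only [List.nodup_cons, List.mem_cons, List.not_mem_nil, or_false, not_or] at hnd
  obtain ⟨⟨n12, n13, n14, n15⟩, ⟨n23, n24, n25⟩, ⟨n34, n35⟩, n45, -⟩ := hnd
  have m1 : z ∈ P.support := by rw [hsup]; simp
  have m2 : z2 ∈ P.support := by rw [hsup]; simp
  have m3 : z3 ∈ P.support := by rw [hsup]; simp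
  have m4 : z4 ∈ P.support := by rw [hsup]; simp
  have hlen3 : P.length + 3 ≤ 2 * C.k := by omega
  -- o is not on the path
  have hoP : o ∉ P.support := contact_not_mem hu hzu hzR P hP hPY hoz hoR hu hou (by omega)
  -- the shorter path
  set P3 := Walk.cons h12 (Walk.cons h23 (Walk.cons h34 Walk.nil)) with hP3def
  have hsup3 : P3.support = [z, z2, z3, z4] := by simp [hP3def]
  have hP3 : P3.IsPath := by
    rw [Walk.isPath_def, hsup3]
    simp only [List.nodup_cons, List.mem_cons, List.not_mem_nil, or_false, not_or]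
    exact ⟨⟨n12, n13, n14⟩, ⟨n23, n24⟩, n34, by simp⟩
  have hP3s : ∀ y ∈ P3.support, y ∈ P.support := by
    intro y hy
    rw [hsup3] at hy
    rw [hsup]
    simp only [List.mem_cons, List.not_mem_nil, or_false] at hy ⊢
    tauto
  have hP3Y : ∀ y ∈ P3.support, y ∈ K.Y u z := fun y hy => hPY y (hP3s y hy)
  have hP3l : P3.length = 3 := by simp [hP3def]
  -- indices
  have hιu : ∀ y ∈ P.support, C.ι y ≠ C.ι u := fun y hy =>
    (core_ne_path hu hzu P hP hPY hu hy (by omega)).symm
  have hιo : ∀ y ∈ P3.support, C.ι y ≠ C.ι o := fun y hy =>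
    (contact_ne_path hu hzu hzR P3 hP3 hP3Y hoz hoR hoC hu hou (by omega)
      (Or.inr ⟨rfl, by omega⟩) hy).symm
  have huo : C.ι u ≠ C.ι o := K.core_inj (Or.inl hu) (Or.inr hoK)
    (fun h => hoR (h ▸ hu))
  obtain ⟨s1, s2, hs12, hs⟩ : ∃ s1 s2, s1 ≠ s2 ∧
      ((Finset.univ : Finset (Fin C.k)) \ {C.ι u, C.ι o}) = {s1, s2} := by
    have : ((Finset.univ : Finset (Fin C.k)) \ {C.ι u, C.ι o}).card = 2 := by
      rw [Finset.card_sdiff_of_subset (Finset.subset_univ _), Finset.card_pair huo]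
      simp [hk]
    obtain ⟨a, b, h1, h2⟩ := Finset.card_eq_two.1 this
    exact ⟨a, b, h1, h2⟩
  have hmem : ∀ i : Fin C.k, i ≠ C.ι u → i ≠ C.ι o → i = s1 ∨ i = s2 := by
    intro i h1 h2
    have : i ∈ ((Finset.univ : Finset (Fin C.k)) \ {C.ι u, C.ι o}) := by
      simp [h1, h2]
    rw [hs] at this
    simpa using this
  have hs1o : s1 ≠ C.ι o ∧ s1 ≠ C.ι u := by
    have : s1 ∈ ((Finset.univ : Finset (Fin C.k)) \ {C.ι u, C.ι o}) := by rw [hs]; simp
    simp at this
    exact ⟨this.2, this.1⟩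
  have hs2o : s2 ≠ C.ι o ∧ s2 ≠ C.ι u := by
    have : s2 ∈ ((Finset.univ : Finset (Fin C.k)) \ {C.ι u, C.ι o}) := by rw [hs]; simp
    simp at this
    exact ⟨this.2, this.1⟩
  have c1 : C.ι z = s1 ∨ C.ι z = s2 := hmem _ (hιu z m1) (hιo z (by rw [hsup3]; simp))
  have c2 : C.ι z2 = s1 ∨ C.ι z2 = s2 := hmem _ (hιu z2 m2) (hιo z2 (by rw [hsup3]; simp))
  have c3 : C.ι z3 = s1 ∨ C.ι z3 = s2 := hmem _ (hιu z3 m3) (hιo z3 (by rw [hsup3]; simp))
  have c4 : C.ι z4 = s1 ∨ C.ι z4 = s2 := hmem _ (hιu z4 m4) (hιo z4 (by rw [hsup3]; simp))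
  have no3 : ∀ {a b c : V}, a ∈ P.support → b ∈ P.support → c ∈ P.support → a ≠ b → a ≠ c →
      b ≠ c → C.ι a = C.ι b → C.ι a = C.ι c → False := fun ha hb hc h1 h2 h3 h4 h5 =>
    no_three P hP hPY hlen3 ha hb hc h1 h2 h3 h4 h5
  have du : ∀ {a b : V}, a ∈ P.support → b ∈ P.support → a ≠ b → C.ι a = C.ι b →
      (C.ι a = C.f z ∨ C.ι a = K.h0 u) := fun ha hb h1 h2 =>
    (dup_index P hP hPY hlen3 ha hb h1 h2).1
  have key : (s1 = C.f z ∨ s1 = K.h0 u) ∧ (s2 = C.f z ∨ s2 = K.h0 u) ∧
      (C.ι z = s1 ∨ C.ι z2 = s1 ∨ C.ι z3 = s1) ∧ (C.ι z = s2 ∨ C.ι z2 = s2 ∨ C.ι z3 = s2) := by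
    rcases c1 with c1 | c1 <;> rcases c2 with c2 | c2 <;> rcases c3 with c3 | c3 <;>
      rcases c4 with c4 | c4
    · exact (no3 m1 m2 m3 n12 n13 n23 (c1.trans c2.symm) (c1.trans c3.symm)).elim
    · exact (no3 m1 m2 m3 n12 n13 n23 (c1.trans c2.symm) (c1.trans c3.symm)).elim
    · exact (no3 m1 m2 m4 n12 n14 n24 (c1.trans c2.symm) (c1.trans c4.symm)).elim
    · refine ⟨?_, ?_, Or.inl c1, Or.inr (Or.inr c3)⟩
      · rw [← c1]; exact du m1 m2 n12 (c1.trans c2.symm)
      · rw [← c3]; exact du m3 m4 n34 (c3.trans c4.symm)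
    · exact (no3 m1 m3 m4 n13 n14 n34 (c1.trans c3.symm) (c1.trans c4.symm)).elim
    · refine ⟨?_, ?_, Or.inl c1, Or.inr (Or.inl c2)⟩
      · rw [← c1]; exact du m1 m3 n13 (c1.trans c3.symm)
      · rw [← c2]; exact du m2 m4 n24 (c2.trans c4.symm)
    · refine ⟨?_, ?_, Or.inl c1, Or.inr (Or.inl c2)⟩
      · rw [← c1]; exact du m1 m4 n14 (c1.trans c4.symm)
      · rw [← c2]; exact du m2 m3 n23 (c2.trans c3.symm)
    · exact (no3 m2 m3 m4 n23 n24 n34 (c2.trans c3.symm) (c2.trans c4.symm)).elim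
    · exact (no3 m2 m3 m4 n23 n24 n34 (c2.trans c3.symm) (c2.trans c4.symm)).elim
    · refine ⟨?_, ?_, Or.inr (Or.inl c2), Or.inl c1⟩
      · rw [← c2]; exact du m2 m3 n23 (c2.trans c3.symm)
      · rw [← c1]; exact du m1 m4 n14 (c1.trans c4.symm)
    · refine ⟨?_, ?_, Or.inr (Or.inl c2), Or.inl c1⟩
      · rw [← c2]; exact du m2 m4 n24 (c2.trans c4.symm)
      · rw [← c1]; exact du m1 m3 n13 (c1.trans c3.symm)
    · exact (no3 m1 m3 m4 n13 n14 n34 (c1.trans c3.symm) (c1.trans c4.symm)).elim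
    · refine ⟨?_, ?_, Or.inr (Or.inr c3), Or.inl c1⟩
      · rw [← c3]; exact du m3 m4 n34 (c3.trans c4.symm)
      · rw [← c1]; exact du m1 m2 n12 (c1.trans c2.symm)
    · exact (no3 m1 m2 m4 n12 n14 n24 (c1.trans c2.symm) (c1.trans c4.symm)).elim
    · exact (no3 m1 m2 m3 n12 n13 n23 (c1.trans c2.symm) (c1.trans c3.symm)).elim
    · exact (no3 m1 m2 m3 n12 n13 n23 (c1.trans c2.symm) (c1.trans c3.symm)).elim
  obtain ⟨k1, k2, k3, k4⟩ := key
  -- the colours f z and h0 u are not the index of o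
  have hio1 : C.ι o ≠ C.f z := by
    intro h
    rcases k1 with k1 | k1
    · exact hs1o.1 (k1.trans h.symm)
    · rcases k2 with k2 | k2
      · exact hs2o.1 (k2.trans h.symm)
      · exact hs12 (k1.trans k2.symm)
  have hio2 : C.ι o ≠ K.h0 u := by
    intro h
    rcases k1 with k1 | k1
    · rcases k2 with k2 | k2
      · exact hs12 (k1.trans k2.symm)
      · exact hs2o.1 (k2.trans h.symm)
    · exact hs1o.1 (k1.trans h.symm)
  -- the vertex o2
  have hY : K.Y u o = K.Y u z := by
    unfold Core.Y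
    rw [hfo]
  have hcomp2 : 2 ≤ (K.Comp u z).ncard := by
    have hsub : ({z, z2} : Set V) ⊆ K.Comp u z := by
      intro y hy
      simp only [Set.mem_insert_iff, Set.mem_singleton_iff] at hy
      rcases hy with rfl | rfl
      · exact K.self_mem_Comp hzK
      · exact K.Comp_ext (K.self_mem_Comp hzK) h12 (hPY _ m2)
    have := Set.ncard_le_ncard hsub (Set.toFinite _)
    rwa [Set.ncard_pair n12] at this
  obtain ⟨o2, hoo2, ho2Y⟩ : ∃ o2, C.G.Adj o o2 ∧ o2 ∈ K.Y u z := by
    have h2 : 2 ≤ (K.Comp u o).ncard := hcomp2.trans hcard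
    have : ∃ y ∈ K.Comp u o, y ≠ o := by
      by_contra hcon
      push Not at hcon
      have : K.Comp u o ⊆ {o} := fun y hy => hcon y hy
      have := Set.ncard_le_ncard this (Set.toFinite _)
      rw [Set.ncard_singleton] at this
      omega
    obtain ⟨y, ⟨R, hR⟩, hyo⟩ := this
    cases R with
    | nil => exact absurd rfl hyo
    | cons a R =>
      refine ⟨_, a, ?_⟩
      rw [← hY]
      apply hR
      rw [Walk.support_cons]
      exact List.mem_cons_of_mem _ R.start_mem_support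
  have hoY : o ∈ K.Y u z := by
    rw [← hY]; exact K.Comp_sub (K.self_mem_Comp hoK)
  have huR := K.hnQ u hu
  have huo' : u ≠ o := fun h => hoR (h ▸ hu)
  have huo2 : u ≠ o2 := by
    rintro rfl
    exact ho2Y.2.1 hu
  have hoo2' : o ≠ o2 := C.G.ne_of_adj hoo2
  -- o2 not on P
  have ho2P : o2 ∉ P.support := by
    intro h
    obtain ⟨P', q1, q2, q3, -, -, q6⟩ := K.path_through hu hu hzu (P.takeUntil o2 h)
      (hP.takeUntil h) (fun v hv => (hPY v (P.support_takeUntil_subset_support h hv)).2.1)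
    have q6 := q6 rfl
    have hl := P.length_takeUntil_le_length h
    set P2 : C.G.Walk u o2 := Walk.cons hou.symm (Walk.cons hoo2 Walk.nil) with hP2
    have hP2p : P2.IsPath := by
      rw [Walk.isPath_def]
      simp [hP2, huo', huo2, hoo2']
    have heq := spp C.hg P' P2 q1 hP2p (by
      have : P2.length = 2 := by simp [hP2]
      omega)
    have : o ∈ P'.support := by rw [heq]; simp [hP2]
    rcases q2 o this with h' | h'
    · exact hoR h'
    · exact hoP (P.support_takeUntil_subset_support h h')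
  -- index of o2 differs from that of u
  have e1 : C.ι o2 ≠ C.ι u := by
    set P2 : C.G.Walk u o2 := Walk.cons hou.symm (Walk.cons hoo2 Walk.nil) with hP2
    have hP2p : P2.IsPath := by
      rw [Walk.isPath_def]
      simp [hP2, huo', huo2, hoo2']
    refine (C.window' P2 hP2p huo2 ?_ (by simp [hP2]; omega) P2.start_mem_support huR).symm
    intro v hv
    have : v = u ∨ v = o ∨ v = o2 := by simpa [hP2] using hv
    rcases this with rfl | rfl | rfl
    · exact K.hcon _ hu
    · exact hoC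
    · exact ho2Y.1
  -- index of o2 differs from those of z, z2, z3
  have e2 : ∀ y ∈ P.support, (∃ Py : C.G.Walk z y, Py.IsPath ∧ (∀ v ∈ Py.support, v ∈ P.support) ∧
      Py.length ≤ 2) → C.ι o2 ≠ C.ι y := by
    rintro y hy ⟨Py, q1, q2, q3⟩
    obtain ⟨P', r1, r2, r3, -, -, r6⟩ := K.path_through hu hu hzu Py q1
      (fun v hv => (hPY v (q2 v hv)).2.1)
    have r6 := r6 rfl
    have hoP' : o ∉ P'.support := by
      intro h
      rcases r2 o h with h | h
      · exact hoR h
      · exact hoP (q2 _ h)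
    have ho2P' : o2 ∉ P'.support := by
      intro h
      rcases r2 o2 h with h | h
      · exact ho2Y.2.1 h
      · exact ho2P (q2 _ h)
    have hpath : (Walk.cons hoo2.symm (Walk.cons hou P')).IsPath := by
      rw [Walk.cons_isPath_iff, Walk.cons_isPath_iff]
      refine ⟨⟨r1, hoP'⟩, ?_⟩
      rw [Walk.support_cons, List.mem_cons]
      push Not
      exact ⟨hoo2'.symm, ho2P'⟩
    refine C.window' _ hpath ?_ ?_ ?_ (y := u) ?_ huR
    · rintro rfl; exact ho2P hy
    · intro v hv
      rw [Walk.support_cons, Walk.support_cons, List.mem_cons, List.mem_cons] at hv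
      rcases hv with rfl | rfl | hv
      · exact ho2Y.1
      · exact hoC
      · rcases r2 v hv with h | h
        · exact K.hcon v h
        · exact (hPY v (q2 v h)).1
    · rw [Walk.length_cons, Walk.length_cons]; omega
    · rw [Walk.support_cons, Walk.support_cons]
      exact List.mem_cons_of_mem _ (List.mem_cons_of_mem _ P'.start_mem_support)
  have e21 : C.ι o2 ≠ C.ι z := e2 z m1 ⟨Walk.nil, Walk.IsPath.nil, by
    intro v hv
    rw [Walk.support_nil, List.mem_singleton] at hv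
    subst hv; exact m1, by simp⟩
  have e22 : C.ι o2 ≠ C.ι z2 := e2 z2 m2 ⟨Walk.cons h12 Walk.nil, by
    rw [Walk.isPath_def]; simp [n12], by
    intro v hv
    have : v = z ∨ v = z2 := by simpa using hv
    rcases this with rfl | rfl
    · exact m1
    · exact m2, by simp⟩
  have e23 : C.ι o2 ≠ C.ι z3 := e2 z3 m3 ⟨Walk.cons h12 (Walk.cons h23 Walk.nil), by
    rw [Walk.isPath_def]; simp [n12, n13, n23], by
    intro v hv
    have : v = z ∨ v = z2 ∨ v = z3 := by simpa using hv
    rcases this with rfl | rfl | rfl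
    · exact m1
    · exact m2
    · exact m3, by simp⟩
  -- so the index of o2 is that of o
  have e3 : C.ι o2 = C.ι o := by
    by_contra hne
    rcases hmem _ e1 hne with h | h
    · rcases k3 with k | k | k
      · exact e21 (h.trans k.symm)
      · exact e22 (h.trans k.symm)
      · exact e23 (h.trans k.symm)
    · rcases k4 with k | k | k
      · exact e21 (h.trans k.symm)
      · exact e22 (h.trans k.symm)
      · exact e23 (h.trans k.symm)
  have hPe : (Walk.cons hoo2 Walk.nil : C.G.Walk o o2).IsPath := by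
    rw [Walk.isPath_def]; simp [hoo2']
  have hw := C.window (Walk.cons hoo2 Walk.nil) hPe hoo2' (by
    intro v hv
    have : v = o ∨ v = o2 := by simpa using hv
    rcases this with rfl | rfl
    · exact hoC
    · exact ho2Y.1) (by simp; omega) e3.symm
  obtain ⟨w1, -, w3⟩ := hw
  have hcQ := w1 _ w3
  have hfc : C.f (C.ctr (C.ι o)) = C.ι o := by rw [C.hfQ _ hcQ, C.hctr]
  have : C.ctr (C.ι o) = o ∨ C.ctr (C.ι o) = o2 := by simpa using w3
  have hY' : C.ctr (C.ι o) ∈ K.Y u z := by
    rcases this with h | h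
    · rw [h]; exact hoY
    · rw [h]; exact ho2Y
  rcases hY'.2.2 with h | h
  · exact hio1 (hfc.symm.trans h)
  · exact hio2 (hfc.symm.trans h)

end Cuts

end Pool.Agent.LibBChrom26
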