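import Pool.Agent.LibBChrom26.Reg1

namespace Pool.Agent.LibBChrom26

open SimpleGraph Classical

universe u

/-- the part of a path between two of its vertices -/
theorem subpath_exists {W : Type u} {G : SimpleGraph W} {x y : W} (P : G.Walk x y)
    (hP : P.IsPath) {a b : W} (ha : a ∈ P.support) (hb : b ∈ P.support) :
    ∃ P' : G.Walk a b, P'.IsPath ∧ (∀ z ∈ P'.support, z ∈ P.support) ∧
      P'.length ≤ P.length := by
  have hspec := P.take_spec ha
  have hb' : b ∈ (P.takeUntil a ha).support ∨ b ∈ (P.dropUntil a ha).support := by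
    rw [← hspec] at hb
    exact (Walk.mem_support_append_iff _ _).1 hb
  rcases hb' with h | h
  · refine ⟨((P.takeUntil a ha).dropUntil b h).reverse, ?_, ?_, ?_⟩
    · exact ((hP.takeUntil ha).dropUntil h).reverse
    · intro z hz
      rw [Walk.support_reverse, List.mem_reverse] at hz
      exact P.support_takeUntil_subset_support ha
        ((P.takeUntil a ha).support_dropUntil_subset_support h hz)
    · rw [Walk.length_reverse]
      exact ((P.takeUntil a ha).length_dropUntil_le_length h).trans (P.length_takeUntil_le_length ha)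
  · refine ⟨(P.dropUntil a ha).takeUntil b h, ?_, ?_, ?_⟩
    · exact (hP.dropUntil ha).takeUntil h
    · intro z hz
      exact P.support_dropUntil_subset_support ha
        ((P.dropUntil a ha).support_takeUntil_subset_support h hz)
    · exact ((P.dropUntil a ha).length_takeUntil_le_length h).trans (P.length_dropUntil_le_length ha)

variable {V : Type u} [Fintype V] {C : Ctx V}

namespace Cuts

variable {K : Core C}

/-- inside a two-coloured path of contacts of length `≤ 2k-3` the index is injective apart from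
the two centres of the colours of the path -/
theorem inj_off_centres {u z x : V} (P : C.G.Walk z x) (hP : P.IsPath)
    (hPY : ∀ y ∈ P.support, y ∈ K.Y u z) (hlen : P.length + 3 ≤ 2 * C.k)
    {a b : V} (ha : a ∈ P.support) (hb : b ∈ P.support) (hab : a ≠ b)
    (ha1 : a ≠ C.ctr (C.f z)) (ha2 : a ≠ C.ctr (K.h0 u)) (hb1 : b ≠ C.ctr (C.f z))
    (hb2 : b ≠ C.ctr (K.h0 u)) : C.ι a ≠ C.ι b := by
  intro hι
  obtain ⟨P', hP', hsub, hl⟩ := subpath_exists P hP ha hb
  obtain ⟨hQ, -, hc⟩ := C.window P' hP' hab (fun y hy => (hPY y (hsub y hy)).1) (by omega) hι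
  have haQ : a ∈ C.Q := hQ a P'.start_mem_support
  have hbQ : b ∈ C.Q := hQ b P'.end_mem_support
  have hcQ : C.ctr (C.ι a) ∈ C.Q := hQ _ hc
  have hfc : C.f (C.ctr (C.ι a)) = C.ι a := by rw [C.hfQ _ hcQ, C.hctr]
  have hcY := (hPY _ (hsub _ hc)).2.2
  rw [hfc] at hcY
  have hac : a ≠ C.ctr (C.ι a) := by
    rcases hcY with h | h
    · rw [h]; exact ha1
    · rw [h]; exact ha2
  have hbc : b ≠ C.ctr (C.ι a) := by
    rcases hcY with h | h
    · rw [h]; exact hb1
    · rw [h]; exact hb2
  have hoa : C.own a = C.ι a := (C.ι_Q haQ).symm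
  have hob : C.own b = C.ι a := by rw [hι]; exact (C.ι_Q hbQ).symm
  have adja : C.G.Adj a (C.ctr (C.ι a)) := by
    rcases (C.hQ1 a haQ).2 with h | h
    · exact absurd (hoa ▸ h) hac
    · rwa [hoa] at h
  have adjb : C.G.Adj b (C.ctr (C.ι a)) := by
    rcases (C.hQ1 b hbQ).2 with h | h
    · exact absurd (hob ▸ h) hbc
    · rwa [hob] at h
  have h1 := C.f_ne_of_adj adja
  have h2 := C.f_ne_of_adj adjb
  rw [hfc] at h1 h2
  have hfa := (hPY a ha).2.2
  have hfb := (hPY b hb).2.2
  have hfab : C.f a = C.f b := by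
    rcases hcY with h | h <;> rcases hfa with h3 | h3 <;> rcases hfb with h4 | h4 <;>
      simp_all
  have hcab : C.c a = C.c b := by
    rw [← C.hfQ a haQ, ← C.hfQ b hbQ]; exact hfab
  exact hab (C.hQ2 a haQ b hbQ (hoa.trans hob.symm) hcab)

/-- path from a core vertex to a contact of the core -/
theorem core_contact_path {g u o : V} (hg : g ∈ K.R0) (hu : u ∈ K.R0) (hou : C.G.Adj o u)
    (hoR : o ∉ K.R0) :
    ∃ P' : C.G.Walk g o, P'.IsPath ∧ (∀ y, y ∈ P'.support → y ∈ K.R0 ∨ y = o) ∧
      P'.length ≤ 3 := by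
  obtain ⟨P', h1, h2, -, h4, -, -⟩ := K.path_through (x := o) hg hu hou Walk.nil
    Walk.IsPath.nil (by intro y hy; rw [Walk.support_nil, List.mem_singleton] at hy; subst hy; exact hoR)
  refine ⟨P', h1, fun y hy => ?_, by simpa using h4⟩
  rcases h2 y hy with h | h
  · exact Or.inl h
  · rw [Walk.support_nil, List.mem_singleton] at h
    exact Or.inr h

/-- indices of core vertices do not occur on the path -/
theorem core_ne_path {z u x g y : V} (hu : u ∈ K.R0) (hzu : C.G.Adj z u)
    (P : C.G.Walk z x) (hP : P.IsPath) (hPY : ∀ y ∈ P.support, y ∈ K.Y u z)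
    (hg : g ∈ K.R0) (hy : y ∈ P.support)
    (hlen : P.length + K.R0.card + 3 ≤ 2 * C.k) : C.ι g ≠ C.ι y := by
  obtain ⟨P', h1, h2, h3, -, h5, -⟩ := K.path_through hg hu hzu (P.takeUntil y hy)
    (hP.takeUntil hy) (fun v hv => (hPY v (P.support_takeUntil_subset_support hy hv)).2.1)
  have hl := P.length_takeUntil_le_length hy
  refine C.window' P' h1 ?_ ?_ (by omega) P'.start_mem_support (K.hnQ g hg)
  · rintro rfl
    exact (hPY _ hy).2.1 hg
  · intro v hv
    rcases h2 v hv with h | h
    · exact K.hcon v h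
    · exact (hPY v (P.support_takeUntil_subset_support hy h)).1

/-- other contacts are not on the path -/
theorem contact_not_mem {z u x o u' : V} (hu : u ∈ K.R0) (hzu : C.G.Adj z u)
    (hzR : z ∉ K.R0) (P : C.G.Walk z x) (hP : P.IsPath)
    (hPY : ∀ y ∈ P.support, y ∈ K.Y u z)
    (hoz : o ≠ z) (hoR : o ∉ K.R0) (hu' : u' ∈ K.R0) (hou : C.G.Adj o u')
    (hlen : P.length + 4 ≤ 2 * C.k) : o ∉ P.support := by
  intro ho
  obtain ⟨P', h1, h2, h3, -, -, h6⟩ := K.path_through hu hu hzu (P.takeUntil o ho)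
    (hP.takeUntil ho) (fun v hv => (hPY v (P.support_takeUntil_subset_support ho hv)).2.1)
  have h6 := h6 rfl
  have hl := P.length_takeUntil_le_length ho
  obtain ⟨P2, k1, k2, k3⟩ := core_contact_path (K := K) hu hu' hou hoR
  have heq := spp C.hg P' P2 h1 k1 (by omega)
  have hz : z ∈ P2.support := by
    rw [← heq]
    exact h3 z (P.takeUntil o ho).start_mem_support
  rcases k2 z hz with h | h
  · exact hzR h
  · exact hoz h.symm

/-- indices of other contacts do not occur on the path -/
theorem contact_ne_path {z u x o u' y : V} (hu : u ∈ K.R0) (hzu : C.G.Adj z u)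
    (hzR : z ∉ K.R0) (P : C.G.Walk z x) (hP : P.IsPath)
    (hPY : ∀ y ∈ P.support, y ∈ K.Y u z)
    (hoz : o ≠ z) (hoR : o ∉ K.R0) (hoC : C.Con o) (hu' : u' ∈ K.R0) (hou : C.G.Adj o u')
    (hlen : P.length + 4 ≤ 2 * C.k)
    (hlen2 : P.length + K.R0.card + 4 ≤ 2 * C.k ∨ (u' = u ∧ P.length + 5 ≤ 2 * C.k))
    (hy : y ∈ P.support) : C.ι o ≠ C.ι y := by
  have hoP := contact_not_mem hu hzu hzR P hP hPY hoz hoR hu' hou hlen
  obtain ⟨P', h1, h2, h3, -, h5, h6⟩ := K.path_through hu' hu hzu (P.takeUntil y hy)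
    (hP.takeUntil hy) (fun v hv => (hPY v (P.support_takeUntil_subset_support hy hv)).2.1)
  have hl := P.length_takeUntil_le_length hy
  have hoP' : o ∉ P'.support := by
    intro h
    rcases h2 o h with h | h
    · exact hoR h
    · exact hoP (P.support_takeUntil_subset_support hy h)
  have hlen' : P'.length + 4 ≤ 2 * C.k := by
    rcases hlen2 with h | ⟨h, h'⟩
    · omega
    · have := h6 h
      omega
  have hpath : (Walk.cons hou P').IsPath := (Walk.cons_isPath_iff _ _).2 ⟨h1, hoP'⟩
  refine C.window' (Walk.cons hou P') hpath ?_ ?_ (by rw [Walk.length_cons]; omega)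
    (y := u') ?_ (K.hnQ u' hu')
  · rintro rfl
    exact hoP hy
  · intro v hv
    rw [Walk.support_cons, List.mem_cons] at hv
    rcases hv with rfl | hv
    · exact hoC
    rcases h2 v hv with h | h
    · exact K.hcon v h
    · exact (hPY v (P.support_takeUntil_subset_support hy h)).1
  · rw [Walk.support_cons]
    exact List.mem_cons_of_mem _ P'.start_mem_support

end Cuts

end Pool.Agent.LibBChrom26
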