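import Pool.Agent.LibBChrom26.DefsIff

namespace Pool.Agent.LibBChrom26

open SimpleGraph Classical

universe u

variable {V : Type u} [Fintype V]

/-- a rainbow colouring is acyclic -/
theorem Descend_rainbow (G : SimpleGraph V) {m : ℕ} (f : V → Fin m) (hf : Function.Injective f) :
    IsAcyclicColouring G f := by
  rw [isAcyclicColouring_iff]
  refine ⟨fun u v huv h => huv.ne (hf h), ?_⟩
  intro i j v w hw hall
  have h3 : 3 ≤ w.length := hw.three_le_length
  have hnd := hw.support_nodup
  have hlen : w.support.tail.length = w.length := by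
    rw [List.length_tail, Walk.length_support]
    omega
  have hcard : w.support.tail.toFinset.card = w.length := by
    rw [List.toFinset_card_of_nodup hnd, hlen]
  have hinj : (w.support.tail.toFinset.image f).card = w.length := by
    rw [Finset.card_image_of_injective _ hf, hcard]
  have hsub : w.support.tail.toFinset.image f ⊆ {i, j} := by
    intro x hx
    rw [Finset.mem_image] at hx
    obtain ⟨y, hy, rfl⟩ := hx
    have := hall y (List.mem_of_mem_tail (List.mem_toFinset.1 hy))
    simpa using this
  have h2 := (Finset.card_le_card hsub).trans Finset.card_le_two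
  omega

/-- removing an unused colour -/
theorem Descend_remove (G : SimpleGraph V) {m : ℕ} (i : Fin (m + 1)) (f f' : V → Fin (m + 1))
    (hf : Function.Surjective f) (hstep : IsAcyclicStep G f f' i) :
    ∃ g : V → Fin m, Function.Surjective g ∧ IsAcyclicColouring G g := by
  obtain ⟨h1, h2, h3⟩ := hstep
  have hne : ∀ v, f' v ≠ i := by
    intro v
    by_cases hv : f v = i
    · exact (h2 v hv).1
    · rw [h1 v hv]
      exact hv
  choose g hg using fun v => Fin.exists_succAbove_eq (hne v)
  refine ⟨g, ?_, ?_⟩
  · intro y
    obtain ⟨v, hv⟩ := hf (i.succAbove y)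
    refine ⟨v, ?_⟩
    have hvi : f v ≠ i := by
      rw [hv]
      exact Fin.succAbove_ne i y
    apply Fin.succAbove_right_injective (p := i)
    rw [hg, h1 v hvi, hv]
  · rw [isAcyclicColouring_iff] at h3 ⊢
    refine ⟨fun u v huv h => h3.1 u v huv ?_, ?_⟩
    · rw [← hg u, ← hg v, h]
    · intro a b v w hw hall
      refine h3.2 (i.succAbove a) (i.succAbove b) v w hw fun x hx => ?_
      rcases hall x hx with h | h
      · left
        rw [← hg x, h]
      · right
        rw [← hg x, h]

/-- descending from the rainbow colouring: if every surjective acyclic colouring with at least `n`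
colours admits an acyclic step then there is a surjective acyclic colouring with `m` colours for
all `n - 1 ≤ m ≤ |V|`. (downward induction; the step from `m+1` to `m` removes the colour `i` and
renames the remaining colours.) -/
theorem descend (G : SimpleGraph V) (n : ℕ) (hn : 1 ≤ n)
    (hred : ∀ (k : ℕ), n ≤ k → ∀ f : V → Fin k, Function.Surjective f → IsAcyclicColouring G f →
      ∃ (i : Fin k) (f' : V → Fin k), IsAcyclicStep G f f' i) (m : ℕ) (hm : n ≤ m + 1)
    (hmV : m ≤ Fintype.card V) :
    ∃ f : V → Fin m, Function.Surjective f ∧ IsAcyclicColouring G f := by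
  obtain ⟨d, hd⟩ := Nat.exists_eq_add_of_le hmV
  clear hmV
  induction d generalizing m with
  | zero =>
    rw [add_zero] at hd
    subst hd
    exact ⟨Fintype.equivFin V, (Fintype.equivFin V).surjective,
      Descend_rainbow G _ (Fintype.equivFin V).injective⟩
  | succ d ih =>
    obtain ⟨f, hf, hac⟩ := ih (m + 1) (by omega) (by omega)
    obtain ⟨i, f', hstep⟩ := hred (m + 1) hm f hf hac
    exact Descend_remove G i f f' hf hstep

/-- a graph with an acyclic colouring with at most two colours is a forest, so every proper
colouring is acyclic -/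
theorem small_case (G : SimpleGraph V) {k : ℕ} (c : V → Fin k) (hc : Proper G c)
    (m : ℕ) (hm : m ≤ 2) (f : V → Fin m) (hf : IsAcyclicColouring G f) :
    IsAcyclicColouring G c := by
  rw [isAcyclicColouring_iff] at hf ⊢
  refine ⟨hc, ?_⟩
  intro i j v w hw _
  have hm0 : 0 < m := lt_of_le_of_lt (Nat.zero_le _) (f v).2
  refine hf.2 ⟨0, hm0⟩ ⟨m - 1, by omega⟩ v w hw fun x _ => ?_
  have hx := (f x).2
  by_cases h0 : (f x).val = 0
  · left
    exact Fin.ext h0
  · right
    apply Fin.ext
    show (f x).val = m - 1
    omega

/-- a b-vertex of colour `i` blocks the removal of `i` -/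
theorem bvertex_blocks (G : SimpleGraph V) {k : ℕ} (c : V → Fin k) (v : V)
    (hv : IsBVertex G c v) (c' : V → Fin k) : ¬ IsAcyclicStep G c c' (c v) := by
  rintro ⟨-, h2, -⟩
  obtain ⟨hne, hall⟩ := h2 v rfl
  obtain ⟨w, hw, hcw⟩ := hv (c' v) hne
  exact hall w hw hcw

/-- a surjective colouring with `k` colours needs `k` vertices -/
theorem card_le_of_surj {k : ℕ} (c : V → Fin k) (hc : Function.Surjective c) :
    k ≤ Fintype.card V := by
  have := Fintype.card_le_of_surjective c hc
  rwa [Fintype.card_fin] at this

end Pool.Agent.LibBChrom26
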