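import Pool.Agent.LibBChrom26.Window

/-!
# Indices on a star of contacts
-/

namespace Pool.Agent.LibBChrom26

open SimpleGraph Classical

universe u

variable {V : Type u} [Fintype V]

/-- Two distinct vertices of a set (core `A` and its contacts) have different indices.
`A` is a set of contacts outside `Q`, any two vertices of which are joined in `A` by a path of
length `≤ 2`. (Join `a` and `b` by a path of length `≤ 4` through `A` and use `window'`.) -/
theorem star_inj (C : Ctx V) (A : Set V) (hA : ∀ x ∈ A, C.Con x) (hAQ : ∀ x ∈ A, x ∉ C.Q)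
    (hconn : ∀ x ∈ A, ∀ y ∈ A, ∃ P : C.G.Walk x y, P.IsPath ∧ (∀ z ∈ P.support, z ∈ A) ∧
      P.length ≤ 2)
    {a b : V} (ha : a ∈ A ∨ (C.Con a ∧ ∃ u ∈ A, C.G.Adj a u))
    (hb : b ∈ A ∨ (C.Con b ∧ ∃ u ∈ A, C.G.Adj b u)) (hab : a ≠ b) : C.ι a ≠ C.ι b := by
  have hk := C.hk
  -- a path starting in `A` and ending in `b`
  have key : ∀ x ∈ A, x ≠ b → ∃ P : C.G.Walk x b, P.IsPath ∧
      (∀ z ∈ P.support, z ∈ A ∨ z = b) ∧ P.length ≤ 3 := by
    intro x hx hxb
    by_cases hbA : b ∈ A
    · obtain ⟨P, hP, hPA, hPl⟩ := hconn x hx b hbA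
      exact ⟨P, hP, fun z hz => Or.inl (hPA z hz), by omega⟩
    · obtain ⟨_, u', hu', hbu'⟩ := hb.resolve_left hbA
      obtain ⟨P, hP, hPA, hPl⟩ := hconn x hx u' hu'
      refine ⟨P.concat hbu'.symm, hP.concat (fun h => hbA (hPA b h)) _, ?_, ?_⟩
      · intro z hz
        rw [Walk.support_concat, List.mem_append, List.mem_singleton] at hz
        rcases hz with h | h
        · exact Or.inl (hPA z h)
        · exact Or.inr h
      · rw [Walk.length_concat]; omega
  have hCb : C.Con b := hb.elim (fun h => hA b h) (fun h => h.1)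
  have hcon : ∀ z, z ∈ A ∨ z = b → C.Con z := by
    rintro z (h | rfl)
    · exact hA z h
    · exact hCb
  by_cases haA : a ∈ A
  · obtain ⟨P, hP, hPA, hPl⟩ := key a haA hab
    exact C.window' P hP hab (fun x hx => hcon x (hPA x hx)) (by omega)
      (Walk.start_mem_support P) (hAQ a haA)
  · obtain ⟨hCa, u, hu, hau⟩ := ha.resolve_left haA
    by_cases hub : u = b
    · subst hub
      have hP : (Walk.cons hau (Walk.nil : C.G.Walk u u)).IsPath := by
        rw [Walk.cons_isPath_iff]
        exact ⟨Walk.IsPath.nil, by simpa using hab⟩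
      refine C.window' _ hP hab ?_ ?_ (Walk.end_mem_support _) (hAQ u hu)
      · intro x hx
        rw [Walk.support_cons, List.mem_cons] at hx
        rcases hx with rfl | hx
        · exact hCa
        · rw [Walk.support_nil, List.mem_singleton] at hx
          subst hx
          exact hCb
      · simp only [Walk.length_cons, Walk.length_nil]; omega
    · obtain ⟨P, hP, hPA, hPl⟩ := key u hu hub
      have ha' : a ∉ P.support := by
        intro h
        rcases hPA a h with h | h
        · exact haA h
        · exact hab h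
      have hP' : (Walk.cons hau P).IsPath := by
        rw [Walk.cons_isPath_iff]
        exact ⟨hP, ha'⟩
      refine C.window' _ hP' hab ?_ ?_ (y := u) ?_ (hAQ u hu)
      · intro x hx
        rw [Walk.support_cons, List.mem_cons] at hx
        rcases hx with rfl | hx
        · exact hCa
        · exact hcon x (hPA x hx)
      · rw [Walk.length_cons]; omega
      · rw [Walk.support_cons, List.mem_cons]
        exact Or.inr (Walk.start_mem_support P)

end Pool.Agent.LibBChrom26
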