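import Pool.Agent.LibBChrom26.CoreDef
import Pool.Agent.LibBChrom26.StarInj

/-!
# Existence of the core (point (2) of the notes)
-/

namespace Pool.Agent.LibBChrom26

open SimpleGraph Classical

universe u

variable {V : Type u} [Fintype V]

theorem exCore_tri (C : Ctx V) {a b d : V} (h1 : C.G.Adj a b) (h2 : C.G.Adj b d)
    (h3 : C.G.Adj a d) : False := by
  have hk := C.hk
  have had : a ≠ d := h3.ne
  have hP : (Walk.cons h3 Walk.nil : C.G.Walk a d).IsPath := by simp [had]
  have hP' : (Walk.cons h1 (Walk.cons h2 Walk.nil) : C.G.Walk a d).IsPath := by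
    simp [h1.ne, h2.ne, had]
  have h := spp (N := 2 * C.k) C.hg _ _ hP hP' (by simp; omega)
  have h' := congrArg Walk.length h
  simp at h'

theorem exCore_conn (C : Ctx V) (A : Set V) (o : V) (ho : o ∈ A)
    (h : ∀ x ∈ A, x = o ∨ C.G.Adj x o) : ∀ x ∈ A, ∀ y ∈ A, ∃ P : C.G.Walk x y, P.IsPath ∧
      (∀ z ∈ P.support, z ∈ A) ∧ P.length ≤ 2 := by
  intro x hx y hy
  by_cases hxy : x = y
  · subst hxy
    exact ⟨Walk.nil, by simp, by simpa using hx, by simp⟩
  · rcases h x hx with rfl | h1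
    · rcases h y hy with rfl | h2
      · exact absurd rfl hxy
      · refine ⟨Walk.cons h2.symm Walk.nil, by simp [hxy], ?_, by simp⟩
        intro z hz
        simp at hz
        rcases hz with rfl | rfl
        · exact hx
        · exact hy
    · rcases h y hy with rfl | h2
      · refine ⟨Walk.cons h1 Walk.nil, by simp [hxy], ?_, by simp⟩
        intro z hz
        simp at hz
        rcases hz with rfl | rfl
        · exact hx
        · exact hy
      · refine ⟨Walk.cons h1 (Walk.cons h2.symm Walk.nil), by simp [hxy, h1.ne, h2.ne'], ?_, by simp⟩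
        intro z hz
        simp at hz
        rcases hz with rfl | rfl | rfl
        · exact hx
        · exact ho
        · exact hy

theorem exCore_card (C : Ctx V) (A : Set V) (hA : ∀ x ∈ A, C.Con x) (hAQ : ∀ x ∈ A, x ∉ C.Q)
    (o : V) (ho : o ∈ A) (h : ∀ x ∈ A, x = o ∨ C.G.Adj x o) (T : Finset V)
    (hT : ∀ a ∈ T, a ∈ A ∨ (C.Con a ∧ ∃ u ∈ A, C.G.Adj a u)) : T.card ≤ C.k := by
  have hinj : Set.InjOn C.ι T := by
    intro a ha b hb hab
    by_contra hne
    exact star_inj C A hA hAQ (exCore_conn C A o ho h) (hT a ha) (hT b hb) hne hab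
  have := Finset.card_le_card_of_injOn (t := (Finset.univ : Finset (Fin C.k))) C.ι
    (fun _ _ => Finset.mem_univ _) hinj
  simpa using this

/-- contacts of `x` other than `p` -/
noncomputable def exCoreK (C : Ctx V) (x : V) : Finset V :=
  Finset.univ.filter fun z => C.Con z ∧ C.G.Adj z x ∧ z ≠ C.p

theorem mem_exCoreK (C : Ctx V) (x z : V) : z ∈ exCoreK C x ↔ C.Con z ∧ C.G.Adj z x ∧ z ≠ C.p := by
  simp [exCoreK]

/-- the vertices that have to be recoloured with `p` -/
noncomputable def exCoreX (C : Ctx V) : Finset V :=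
  Finset.univ.filter fun x => C.G.Adj x C.p ∧ C.Con x ∧ x ∉ C.Q ∧ C.f x = C.c C.p

theorem mem_exCoreX (C : Ctx V) (x : V) :
    x ∈ exCoreX C ↔ C.G.Adj x C.p ∧ C.Con x ∧ x ∉ C.Q ∧ C.f x = C.c C.p := by
  simp [exCoreX]

/-- case (a) -/
theorem exCore_a (C : Ctx V) (γ : V → Fin C.k)
    (hγ : ∀ x ∈ exCoreX C, γ x ≠ C.t ∧ γ x ≠ C.c C.p ∧ ∀ z ∈ exCoreK C x, C.f z ≠ γ x) :
    Nonempty (Core C) := by
  have hpX : C.p ∉ exCoreX C := fun h => ((mem_exCoreX C _).1 h).1.ne rfl
  have hadjX : ∀ x ∈ exCoreX C, ∀ y ∈ exCoreX C, ¬ C.G.Adj x y := by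
    intro x hx y hy h
    exact C.f_ne_of_adj h ((((mem_exCoreX C _).1 hx).2.2.2).trans (((mem_exCoreX C _).1 hy).2.2.2).symm)
  set R0 : Finset V := insert C.p (exCoreX C) with hR0
  set h0 : V → Fin C.k := fun z => if z = C.p then C.c C.p else γ z with hh0
  have hR : ∀ {z}, z ∈ R0 ↔ z = C.p ∨ z ∈ exCoreX C := fun {z} => by simp [hR0]
  have hh0p : h0 C.p = C.c C.p := by simp [hh0]
  have hh0x : ∀ x ∈ exCoreX C, h0 x = γ x := by
    intro x hx
    have : x ≠ C.p := fun h => hpX (h ▸ hx)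
    simp [hh0, this]
  have hcolp : hcolOf C R0 h0 C.p = C.c C.p := by
    unfold hcolOf
    rw [if_pos (hR.2 (Or.inl rfl)), hh0p]
  have hcolx : ∀ x ∈ exCoreX C, hcolOf C R0 h0 x = γ x := by
    intro x hx
    unfold hcolOf
    rw [if_pos (hR.2 (Or.inr hx)), hh0x x hx]
  have hcolo : ∀ z, z ∉ R0 → hcolOf C R0 h0 z = C.f z := by
    intro z hz
    unfold hcolOf
    rw [if_neg hz]
  refine ⟨⟨R0, h0, hR.2 (Or.inl rfl), hh0p, ?_, ?_, ?_, ?_, ?_, ?_⟩⟩
  · intro x hx
    rcases hR.1 hx with rfl | hx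
    · exact C.con_p
    · exact ((mem_exCoreX C _).1 hx).2.1
  · intro x hx
    rcases hR.1 hx with rfl | hx
    · exact C.hpQ
    · exact ((mem_exCoreX C _).1 hx).2.2.1
  · have := exCore_conn C (R0 : Set V) C.p (by simp [hR0]) (by
      intro x hx
      rcases hR.1 hx with rfl | hx
      · exact Or.inl rfl
      · exact Or.inr ((mem_exCoreX C _).1 hx).1)
    simpa using this
  · intro x hx
    rcases hR.1 hx with rfl | hx
    · rw [hh0p]; exact C.cp_ne_t
    · rw [hh0x x hx]; exact (hγ x hx).1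
  · intro x hx y hy hxy
    rcases hR.1 hx with rfl | hx
    · rw [hh0p]
      by_cases hyR : y ∈ R0
      · rcases hR.1 hyR with rfl | hyX
        · exact absurd rfl hxy.ne
        · rw [hcolx y hyX]
          exact (hγ y hyX).2.1.symm
      · rw [hcolo y hyR]
        intro hcon
        by_cases hyQ : y ∈ C.Q
        · rw [C.hfQ y hyQ] at hcon
          exact C.hc _ _ hxy hcon
        · exact hyR (hR.2 (Or.inr ((mem_exCoreX C _).2 ⟨hxy.symm, hy, hyQ, hcon.symm⟩)))
    · rw [hh0x x hx]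
      by_cases hyR : y ∈ R0
      · rcases hR.1 hyR with rfl | hyX
        · rw [hcolp]
          exact (hγ x hx).2.1
        · exact absurd hxy (hadjX x hx y hyX)
      · rw [hcolo y hyR]
        have hyp : y ≠ C.p := fun h => hyR (hR.2 (Or.inl h))
        exact ((hγ x hx).2.2 y ((mem_exCoreK C _ _).2 ⟨hy, hxy.symm, hyp⟩)).symm
  · intro E h1 h2 h3
    have key : ∀ x ∈ exCoreX C, s(x, C.p) ∉ E := by
      intro x hx hE
      have hxR : x ∈ R0 := hR.2 (Or.inr hx)
      obtain ⟨g, hg, hgE⟩ := h2 x hxR _ hE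
      have hg1 := h1 x hxR g hgE
      have hcol := h3 x hxR _ _ hE hgE
      rw [hcolp] at hcol
      have hgR : g ∉ R0 := by
        intro h
        rcases hR.1 h with rfl | hgX
        · exact hg rfl
        · exact hadjX x hx g hgX hg1.1
      rw [hcolo g hgR] at hcol
      exact C.f_ne_of_adj hg1.1 ((((mem_exCoreX C _).1 hx).2.2.2).trans hcol)
    intro x hx y hy hE
    have hadj := (h1 x hx y hE).1
    rcases hR.1 hx with rfl | hx
    · rcases hR.1 hy with rfl | hy
      · exact hadj.ne rfl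
      · rw [Sym2.eq_swap] at hE
        exact key y hy hE
    · rcases hR.1 hy with rfl | hy
      · exact key x hx hE
      · exact hadjX x hx y hy hadj

/-- case (b) -/
theorem exCore_b (C : Ctx V) (x : V) (hx : x ∈ exCoreX C)
    (hall : ∀ γ : Fin C.k, γ ≠ C.t → γ ≠ C.c C.p → ∃ z ∈ exCoreK C x, C.f z = γ) :
    Nonempty (Core C) := by
  obtain ⟨hxp, hxc, hxQ, hfx⟩ := (mem_exCoreX C _).1 hx
  have hxp' : x ≠ C.p := hxp.ne
  have hk := C.hk
  have hjt : C.c C.p ≠ C.t := C.cp_ne_t
  -- number of contacts of `x`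
  have himg : C.k - 2 ≤ ((exCoreK C x).image C.f).card := by
    have hsub : (Finset.univ \ {C.t, C.c C.p} : Finset (Fin C.k)) ⊆ (exCoreK C x).image C.f := by
      intro γ hγ
      simp at hγ
      obtain ⟨z, hz, hzγ⟩ := hall γ hγ.1 hγ.2
      exact Finset.mem_image.2 ⟨z, hz, hzγ⟩
    have h2 : ({C.t, C.c C.p} : Finset (Fin C.k)).card = 2 := Finset.card_pair hjt.symm
    have h1 : (Finset.univ \ {C.t, C.c C.p} : Finset (Fin C.k)).card = C.k - 2 := by
      rw [Finset.card_sdiff_of_subset (Finset.subset_univ _), h2]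
      simp
    rw [← h1]
    exact Finset.card_le_card hsub
  have hK1 : C.k - 2 ≤ (exCoreK C x).card := himg.trans Finset.card_image_le
  have hpK : C.p ∉ exCoreK C x := fun h => ((mem_exCoreK C _ _).1 h).2.2 rfl
  have hxK : x ∉ exCoreK C x := fun h => ((mem_exCoreK C _ _).1 h).2.1.ne rfl
  have hT0 : (insert C.p (insert x (exCoreK C x))).card = (exCoreK C x).card + 2 := by
    rw [Finset.card_insert_of_notMem (by simp [hxp'.symm, hpK]), Finset.card_insert_of_notMem hxK]
  -- general counting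
  have hcount : ∀ A : Set V, (∀ x ∈ A, C.Con x) → (∀ x ∈ A, x ∉ C.Q) → C.p ∈ A → x ∈ A →
      (∀ z ∈ A, z = x ∨ C.G.Adj z x) → ∀ g, C.Con g → (∃ u ∈ A, C.G.Adj g u) →
      g ∈ insert C.p (insert x (exCoreK C x)) := by
    intro A hA hAQ hpA hxA hAs g hg hgu
    by_contra hgT
    have hc1 := exCore_card C A hA hAQ x hxA hAs (insert g (insert C.p (insert x (exCoreK C x)))) (by
      intro a ha
      rcases Finset.mem_insert.1 ha with rfl | ha
      · exact Or.inr ⟨hg, hgu⟩
      · rcases Finset.mem_insert.1 ha with rfl | ha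
        · exact Or.inl hpA
        · rcases Finset.mem_insert.1 ha with rfl | ha
          · exact Or.inl hxA
          · obtain ⟨h1, h2, -⟩ := (mem_exCoreK C _ _).1 ha
            exact Or.inr ⟨h1, x, hxA, h2⟩)
    rw [Finset.card_insert_of_notMem hgT, hT0] at hc1
    omega
  -- A = {p, x}
  have hA1 : ∀ z ∈ ({C.p, x} : Set V), C.Con z := by
    rintro z (rfl | rfl)
    · exact C.con_p
    · exact hxc
  have hA2 : ∀ z ∈ ({C.p, x} : Set V), z ∉ C.Q := by
    rintro z (rfl | rfl)
    · exact C.hpQ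
    · exact hxQ
  have hA3 : ∀ z ∈ ({C.p, x} : Set V), z = x ∨ C.G.Adj z x := by
    rintro z (rfl | rfl)
    · exact Or.inr hxp.symm
    · exact Or.inl rfl
  have hpcon : ∀ g, C.Con g → C.G.Adj g C.p → g = x := by
    intro g hg hgp
    have h := hcount {C.p, x} hA1 hA2 (by simp) (by simp) hA3 g hg ⟨C.p, by simp, hgp⟩
    rcases Finset.mem_insert.1 h with h | h
    · exact absurd h hgp.ne
    · rcases Finset.mem_insert.1 h with h | h
      · exact h
      · obtain ⟨-, h2, -⟩ := (mem_exCoreK C _ _).1 h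
        exact (exCore_tri C h2 hxp hgp).elim
  have hK2 : (exCoreK C x).card + 2 ≤ C.k := by
    rw [← hT0]
    refine exCore_card C {C.p, x} hA1 hA2 x (by simp) hA3 _ ?_
    intro a ha
    rcases Finset.mem_insert.1 ha with rfl | ha
    · exact Or.inl (by simp)
    · rcases Finset.mem_insert.1 ha with rfl | ha
      · exact Or.inl (by simp)
      · obtain ⟨h1, h2, -⟩ := (mem_exCoreK C _ _).1 ha
        exact Or.inr ⟨h1, x, by simp, h2⟩
  have hinj : Set.InjOn C.f (exCoreK C x) := by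
    apply Finset.injOn_of_card_image_eq
    have := Finset.card_image_le (s := exCoreK C x) (f := C.f)
    omega
  -- the colour of `x`
  obtain ⟨τ, hτ, hxτ, -⟩ := C.ι_nQ hxQ hxc
  have hcxt : C.c x ≠ C.t := by
    have := C.hc _ _ hxτ
    rwa [C.c_t hτ] at this
  have hcxj : C.c x ≠ C.c C.p := C.hc _ _ hxp
  obtain ⟨y, hyK, hfy⟩ := hall _ hcxt hcxj
  obtain ⟨hyc, hyx, hyp⟩ := (mem_exCoreK C _ _).1 hyK
  have hyQ : y ∉ C.Q := by
    intro h
    rw [C.hfQ y h] at hfy
    exact C.hc _ _ hyx hfy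
  -- A = {p, x, y}
  have hycon : ∀ g, C.Con g → C.G.Adj g y → g = x := by
    intro g hg hgy
    have h := hcount {C.p, x, y} (by
        rintro z (rfl | rfl | rfl)
        · exact C.con_p
        · exact hxc
        · exact hyc) (by
        rintro z (rfl | rfl | rfl)
        · exact C.hpQ
        · exact hxQ
        · exact hyQ) (by simp) (by simp) (by
        rintro z (rfl | rfl | rfl)
        · exact Or.inr hxp.symm
        · exact Or.inl rfl
        · exact Or.inr hyx) g hg ⟨y, by simp, hgy⟩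
    rcases Finset.mem_insert.1 h with h | h
    · subst h
      exact (exCore_tri C hgy hyx hxp.symm).elim
    · rcases Finset.mem_insert.1 h with h | h
      · exact h
      · obtain ⟨-, h2, -⟩ := (mem_exCoreK C _ _).1 h
        exact (exCore_tri C hgy hyx h2).elim
  have hyx' : y ≠ x := hyx.ne
  set R0 : Finset V := {C.p, x, y} with hR0
  set h0 : V → Fin C.k := fun z => if z = x then C.c x else C.c C.p with hh0
  have hR : ∀ {z}, z ∈ R0 ↔ z = C.p ∨ z = x ∨ z = y := fun {z} => by simp [hR0]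
  have hcolx : hcolOf C R0 h0 x = C.c x := by
    unfold hcolOf
    rw [if_pos (hR.2 (Or.inr (Or.inl rfl)))]
    simp [hh0]
  have hcolp : hcolOf C R0 h0 C.p = C.c C.p := by
    unfold hcolOf
    rw [if_pos (hR.2 (Or.inl rfl))]
    simp [hh0, hxp'.symm]
  have hcoly : hcolOf C R0 h0 y = C.c C.p := by
    unfold hcolOf
    rw [if_pos (hR.2 (Or.inr (Or.inr rfl)))]
    simp [hh0, hyx']
  have hcolo : ∀ z, z ∉ R0 → hcolOf C R0 h0 z = C.f z := by
    intro z hz
    unfold hcolOf
    rw [if_neg hz]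
  have hh0p : h0 C.p = C.c C.p := by simp [hh0, hxp'.symm]
  have hh0x : h0 x = C.c x := by simp [hh0]
  have hh0y : h0 y = C.c C.p := by simp [hh0, hyx']
  refine ⟨⟨R0, h0, hR.2 (Or.inl rfl), hh0p, ?_, ?_, ?_, ?_, ?_, ?_⟩⟩
  · intro z hz
    rcases hR.1 hz with rfl | rfl | rfl
    · exact C.con_p
    · exact hxc
    · exact hyc
  · intro z hz
    rcases hR.1 hz with rfl | rfl | rfl
    · exact C.hpQ
    · exact hxQ
    · exact hyQ
  · have := exCore_conn C (R0 : Set V) x (by simp [hR0]) (by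
      intro z hz
      rcases hR.1 hz with rfl | rfl | rfl
      · exact Or.inr hxp.symm
      · exact Or.inl rfl
      · exact Or.inr hyx)
    simpa using this
  · intro z hz
    rcases hR.1 hz with h | h | h
    · rw [h, hh0p]; exact hjt
    · rw [h, hh0x]; exact hcxt
    · rw [h, hh0y]; exact hjt
  · intro z hz g hg hzg
    rcases hR.1 hz with h | h | h
    · subst h
      rw [hpcon g hg hzg.symm, hh0p, hcolx]
      exact hcxj.symm
    · subst h
      rw [hh0x]
      by_cases hgR : g ∈ R0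
      · rcases hR.1 hgR with h | h | h
        · rw [h, hcolp]; exact hcxj
        · exact absurd h.symm hzg.ne
        · rw [h, hcoly]; exact hcxj
      · rw [hcolo g hgR, ← hfy]
        intro hcon
        have hgK : g ∈ exCoreK C z := (mem_exCoreK C _ _).2 ⟨hg, hzg.symm, fun h => hgR (hR.2 (Or.inl h))⟩
        exact hgR (hR.2 (Or.inr (Or.inr (hinj hyK hgK hcon).symm)))
    · subst h
      rw [hycon g hg hzg.symm, hh0y, hcolx]
      exact hcxj.symm
  · intro E h1 h2 h3
    have keyp : ∀ g, s(C.p, g) ∉ E := by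
      intro g hE
      have hpR : C.p ∈ R0 := hR.2 (Or.inl rfl)
      obtain ⟨g', hg', hgE⟩ := h2 _ hpR _ hE
      have e1 := h1 _ hpR _ hE
      have e2 := h1 _ hpR _ hgE
      exact hg' ((hpcon g' e2.2 e2.1.symm).trans (hpcon g e1.2 e1.1.symm).symm)
    have keyy : ∀ g, s(y, g) ∉ E := by
      intro g hE
      have hpR : y ∈ R0 := hR.2 (Or.inr (Or.inr rfl))
      obtain ⟨g', hg', hgE⟩ := h2 _ hpR _ hE
      have e1 := h1 _ hpR _ hE
      have e2 := h1 _ hpR _ hgE
      exact hg' ((hycon g' e2.2 e2.1.symm).trans (hycon g e1.2 e1.1.symm).symm)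
    intro z hz w hw hE
    have hadj := (h1 z hz w hE).1
    rcases hR.1 hz with h | h | h
    · subst h; exact keyp _ hE
    · rcases hR.1 hw with h' | h' | h'
      · subst h'
        rw [Sym2.eq_swap] at hE
        exact keyp _ hE
      · rw [h, h'] at hadj
        exact hadj.ne rfl
      · subst h'
        rw [Sym2.eq_swap] at hE
        exact keyy _ hE
    · subst h; exact keyy _ hE

/-- Existence of the core. `j := C.c C.p`, `X := {x | Adj x p, Con x, x ∉ Q, f x = j}`,
`Kx x := {z | Con z, Adj z x, z ≠ p}`.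
Case (a): for all `x ∈ X` there is a colour `γ x ∉ {t, j} ∪ f(Kx x)`. Then `R0 = {p} ∪ X`,
`h0 p = j`, `h0 x = γ x`.
Case (b): for some `x ∈ X` all colours `≠ t, j` occur in `f(Kx x)`. `star_inj` with `A = {p, x}` (or
`{p} ∪ X`) shows: `p` has no contact except `x` (so `X = {x}`), `f` is injective on `Kx x`
(which has exactly `k - 2` elements). `c x ≠ t` (as `x` has a neighbour of `f`-colour `t`, which has
`c`-colour `t`), `c x ≠ j`. Let `y ∈ Kx x`, `f y = c x`; `y ∉ Q` (else `f y = c y ≠ c x`). `y` has no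
contact except `x` (`star_inj` with `A = {p, x, y}`, counting indices). `R0 = {p, x, y}`, `h0 p = j`,
`h0 x = c x`, `h0 y = j`. -/
theorem exists_core (C : Ctx V) : Nonempty (Core C) := by
  by_cases hcase : ∃ x ∈ exCoreX C, ∀ γ : Fin C.k, γ ≠ C.t → γ ≠ C.c C.p →
      ∃ z ∈ exCoreK C x, C.f z = γ
  · obtain ⟨x, hx, hall⟩ := hcase
    exact exCore_b C x hx hall
  · push Not at hcase
    have hch : ∀ x : V, ∃ γ : Fin C.k, x ∈ exCoreX C →
        (γ ≠ C.t ∧ γ ≠ C.c C.p ∧ ∀ z ∈ exCoreK C x, C.f z ≠ γ) := by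
      intro x
      by_cases hx : x ∈ exCoreX C
      · obtain ⟨γ, h1, h2, h3⟩ := hcase x hx
        exact ⟨γ, fun _ => ⟨h1, h2, h3⟩⟩
      · exact ⟨C.t, fun h => absurd h hx⟩
    choose γ hγ using hch
    exact exCore_a C γ hγ

end Pool.Agent.LibBChrom26
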