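import Pool.Agent.LibBChrom26.Reg1

namespace Pool.Agent.LibBChrom26

open SimpleGraph Classical

universe u

variable {V : Type u} [Fintype V] {C : Ctx V}

/-- Existence of cuts: for `u ∈ R0` and a colour `d` with `{z ∈ Kset | Adj z u, f z = d}` nonempty
choose an element `o u d` of this set with `(Comp u o).ncard` maximal;
`B := {z ∈ Kset | ∃ u ∈ R0, Adj z u ∧ z ≠ o u (f z)}` (use `core_unique`). -/
theorem exists_cuts (K : Core C) : Nonempty (Cuts K) := by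
  have h1 : ∀ (u : V) (d : Fin C.k), ∃ o : V, ∀ z ∈ K.Kset, C.G.Adj z u → C.f z = d →
      o ∈ K.Kset ∧ C.G.Adj o u ∧ C.f o = d ∧ (K.Comp u z).ncard ≤ (K.Comp u o).ncard := by
    intro u d
    by_cases hne : (K.Kset.filter fun z => C.G.Adj z u ∧ C.f z = d).Nonempty
    · obtain ⟨o, ho, hmax⟩ := Finset.exists_max_image _ (fun z => (K.Comp u z).ncard) hne
      refine ⟨o, fun z hz hzu hzd => ?_⟩
      rw [Finset.mem_filter] at ho
      exact ⟨ho.1, ho.2.1, ho.2.2, hmax z (Finset.mem_filter.2 ⟨hz, hzu, hzd⟩)⟩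
    · refine ⟨u, fun z hz hzu hzd => absurd ⟨z, ?_⟩ hne⟩
      exact Finset.mem_filter.2 ⟨hz, hzu, hzd⟩
  choose o ho using h1
  refine ⟨⟨{z | z ∈ K.Kset ∧ ∃ u ∈ K.R0, C.G.Adj z u ∧ z ≠ o u (C.f z)}, ?_, ?_, ?_⟩⟩
  · rintro z ⟨hz, -⟩
    exact hz
  · rintro z ⟨hz, -⟩ u hu hzu
    obtain ⟨h2, h3, h4, h5⟩ := ho u (C.f z) z hz hzu rfl
    refine ⟨o u (C.f z), h2, ?_, h3, h4, h5⟩
    rintro ⟨-, u', hu', h6, h7⟩
    have h8 : u' = u := K.core_unique (K.mem_Kset.1 h2).2.1 hu' hu h6 h3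
    rw [h8, h4] at h7
    exact h7 rfl
  · intro u hu z₁ hz₁ z₂ hz₂ hne h3 h4 hf
    by_cases h5 : z₁ = o u (C.f z₁)
    · right
      refine ⟨hz₂, u, hu, h4, fun h6 => hne ?_⟩
      rw [h5, h6, hf]
    · left
      exact ⟨hz₁, u, hu, h3, h5⟩

end Pool.Agent.LibBChrom26
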