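import Pool.Agent.LibBChrom26.LemmaB
import Pool.Agent.LibBChrom26.Ctx
import Pool.Agent.LibBChrom26.DefsIff

/-!
# Case 5, the exceptional case (point (12) of the notes)
-/

namespace Pool.Agent.LibBChrom26

open SimpleGraph Classical

universe u

variable {V : Type u} [Fintype V]

/-- no triangles -/
theorem Ctx.excep_no_triangle (C : Ctx V) {x y z : V} (h1 : C.G.Adj x y) (h2 : C.G.Adj y z)
    (h3 : C.G.Adj x z) : False := by
  have hP : (Walk.cons h1 (Walk.cons h2 Walk.nil)).IsPath := by
    simp [Walk.cons_isPath_iff, h1.ne, h2.ne, h3.ne]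
  have hP' : (Walk.cons h3 Walk.nil).IsPath := by
    simp [Walk.cons_isPath_iff, h3.ne]
  have := spp (N := 2 * C.k) C.hg _ _ hP hP' (by
    have := C.hk
    simp only [Walk.length_cons, Walk.length_nil]
    omega)
  have := congrArg Walk.length this
  simp at this

/-- no four-cycles -/
theorem Ctx.excep_no_square (C : Ctx V) {a x y b : V} (hxy : x ≠ y) (h1 : C.G.Adj a x)
    (h2 : C.G.Adj x b) (h3 : C.G.Adj a y) (h4 : C.G.Adj y b) (hab : a ≠ b) : False := by
  have hP : (Walk.cons h1 (Walk.cons h2 Walk.nil)).IsPath := by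
    simp [Walk.cons_isPath_iff, h1.ne, h2.ne, hab]
  have hP' : (Walk.cons h3 (Walk.cons h4 Walk.nil)).IsPath := by
    simp [Walk.cons_isPath_iff, h3.ne, h4.ne, hab]
  have h5 := spp (N := 2 * C.k) C.hg _ _ hP hP' (by
    have := C.hk
    simp only [Walk.length_cons, Walk.length_nil]
    omega)
  have h6 := congrArg Walk.support h5
  simp at h6
  exact hxy h6

/-- case 5, the exceptional case: the only neighbour of `p` in `Γ` is the centre `v = ctr t`.
Let `h x = c p` if `x = p`, `h x = t` if `x ~ p`, `x ≠ v`, and `h x = f x` otherwise. `h` is proper.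
Two-coloured cycles of `h` not using colour `t`: avoid `p` (all neighbours of `p` have colour `t`), so
they are cycles of `f`. Cycles with colours `(b, t)`: `lemmaB` with `S = {p}`, `L = 0`, `m = 1`,
`T1 = {τ | f τ = t, τ ≠ v}` (at most `k-1` elements by `t_unique`): such a cycle has length
`≤ 2k+2` and contains `p` and all of `T1`; in particular `b = c p`.
If `h` has no such cycle, take `g = h`. Otherwise let `Z` be one, `w ≠ v` a neighbour of `p` on `Z`,
`e₁ ≠ p` the other neighbour of `w` on `Z`, `τ₁ ≠ w` the other neighbour of `e₁` on `Z`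
(`h τ₁ = t`, `τ₁` is not adjacent to `p`, so `f τ₁ = t`, `τ₁ ≠ v`, `τ₁ ∈ T1`).
`g := h` except `g w = f w`. `f w ≠ c p` because `f e₁ = h e₁ = c p`. `g` is proper. A two-coloured
cycle of `g` without colour `t`: does not contain `p` (its only neighbour not coloured `t` is
`w`), so it is a cycle of `f`. A `(b, t)`-cycle `Z'` of `g` does not contain `w` (no neighbour of
`w` has `g`-colour `t`: `w ∉ Γ`, girth), so it is a cycle of `h`, has length `≤ 2k+2`, contains `p` and
`τ₁`; by `cycle_two_paths` there is a path from `p` to `τ₁` of length `≤ k+1` inside `Z'`, not containing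
`w`; and `p w e₁ τ₁` is a path of length 3. `spp`: contradiction since `k+4 ≤ 2k`. -/
theorem exceptional (C : Ctx V) (h : ∀ z, C.G.Adj C.p z → C.Gam z → z = C.ctr C.t) :
    ∃ g : V → Fin C.k, IsAcyclicColouring C.G g ∧ (∀ q ∈ C.Q, g q = C.c q) ∧
      g C.p = C.c C.p := by
  have hk := C.hk
  set v : V := C.ctr C.t with hv
  have hfv : C.f v = C.t := C.f_ctr_t
  have hpv : C.G.Adj C.p v := C.hpv
  have hjt : C.c C.p ≠ C.t := C.cp_ne_t
  set hh : V → Fin C.k := fun x =>
    if x = C.p then C.c C.p else if C.G.Adj C.p x ∧ x ≠ v then C.t else C.f x with hhh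
  have hhp : hh C.p = C.c C.p := by simp [hhh]
  have hhW : ∀ x, C.G.Adj C.p x → hh x = C.t := by
    intro x hx
    by_cases hxv : x = v
    · simp only [hhh]
      rw [if_neg hx.ne', if_neg (by simp [hxv]), hxv, hfv]
    · simp only [hhh]
      rw [if_neg hx.ne', if_pos ⟨hx, hxv⟩]
  have hhf : ∀ x, x ≠ C.p → ¬ (C.G.Adj C.p x ∧ x ≠ v) → hh x = C.f x := by
    intro x hx hx2
    simp only [hhh]
    rw [if_neg hx, if_neg hx2]
  have hWGam : ∀ x, C.G.Adj C.p x → x ≠ v → ¬ C.Gam x := fun x hx hxv hG => hxv (h x hx hG)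
  have hWQ : ∀ x, C.G.Adj C.p x → x ≠ v → x ∉ C.Q := fun x hx hxv hG => hWGam x hx hxv (Or.inl hG)
  have hWτ : ∀ x, C.G.Adj C.p x → x ≠ v → ∀ τ, C.G.Adj x τ → C.f τ ≠ C.t :=
    fun x hx hxv τ hτ hf => hWGam x hx hxv (Or.inr ⟨τ, hf, hτ⟩)
  have hWf : ∀ x, C.G.Adj C.p x → x ≠ v → C.f x ≠ C.t :=
    fun x hx hxv hf => hWQ x hx hxv (C.hft x hf)
  have hhQ : ∀ q ∈ C.Q, hh q = C.c q := by
    intro q hq
    rw [hhf q (fun h' => C.hpQ (h' ▸ hq)) (fun h' => hWQ q h'.1 h'.2 hq), C.hfQ q hq]
  -- half of properness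
  have hhalf : ∀ x y, C.G.Adj x y → (C.G.Adj C.p x ∧ x ≠ v) → y ≠ C.p → hh x ≠ hh y := by
    intro x y hxy hx hy
    have hy2 : ¬ (C.G.Adj C.p y ∧ y ≠ v) := fun h' => C.excep_no_triangle hx.1 hxy h'.1
    rw [hhW x hx.1, hhf y hy hy2]
    exact fun h' => hWτ x hx.1 hx.2 y hxy h'.symm
  have hhprop : ∀ x y, C.G.Adj x y → hh x ≠ hh y := by
    intro x y hxy
    by_cases hx : x = C.p
    · subst hx
      rw [hhp, hhW y hxy]; exact hjt
    by_cases hy : y = C.p
    · subst hy
      rw [hhp, hhW x hxy.symm]; exact hjt.symm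
    by_cases hxW : C.G.Adj C.p x ∧ x ≠ v
    · exact hhalf x y hxy hxW hy
    by_cases hyW : C.G.Adj C.p y ∧ y ≠ v
    · exact (hhalf y x hxy.symm hyW hx).symm
    rw [hhf x hx hxW, hhf y hy hyW]
    exact C.hf.1 x y hxy
  have hfcyc := ((isAcyclicColouring_iff C.G C.f).1 C.hf).2
  -- cycles of `hh` without colour `t`
  have hA : ∀ (a b : Fin C.k), a ≠ C.t → b ≠ C.t → ∀ (x : V) (w : C.G.Walk x x), w.IsCycle →
      ¬ ∀ y ∈ w.support, hh y = a ∨ hh y = b := by
    intro a b ha hb x w hw hcol
    have hp : C.p ∉ w.support := by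
      intro hp
      obtain ⟨g₁, g₂, P, _, h1, _, _, _, _, h2, _⟩ := cycle_at w hw hp
      have h3 : g₁ ∈ w.support := (h2 g₁).2 (Or.inr P.start_mem_support)
      have h4 := hcol g₁ h3
      rw [hhW g₁ h1] at h4
      rcases h4 with h4 | h4
      · exact ha h4.symm
      · exact hb h4.symm
    refine hfcyc a b x w hw fun y hy => ?_
    rw [← hhf y (fun h' => hp (h' ▸ hy)) (fun h' => ?_)]
    · exact hcol y hy
    · have h4 := hcol y hy
      rw [hhW y h'.1] at h4
      rcases h4 with h4 | h4
      · exact ha h4.symm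
      · exact hb h4.symm
  -- cycles of `hh` with colour `t`
  set T1 : Finset V := Finset.univ.filter fun τ => C.f τ = C.t ∧ τ ≠ v with hT1
  have hT1card : T1.card + 1 ≤ C.k := by
    have h1 : T1.card ≤ (Finset.univ.erase C.t : Finset (Fin C.k)).card := by
      refine Finset.card_le_card_of_injOn C.own ?_ ?_
      · intro τ hτ
        simp only [hT1, Finset.coe_filter, Finset.mem_univ, true_and, Set.mem_setOf_eq] at hτ
        simp only [Finset.coe_erase, Finset.coe_univ, Set.mem_sdiff, Set.mem_univ,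
          Set.mem_singleton_iff, true_and]
        intro ho
        exact hτ.2 (C.t_unique hτ.1 hfv (by rw [ho, hv, C.own_ctr_t]))
      · intro τ hτ τ' hτ' ho
        simp only [hT1, Finset.coe_filter, Finset.mem_univ, true_and, Set.mem_setOf_eq] at hτ hτ'
        exact C.t_unique hτ.1 hτ'.1 ho
    rw [Finset.card_erase_of_mem (Finset.mem_univ _), Finset.card_univ, Fintype.card_fin] at h1
    omega
  have hB : ∀ (b : Fin C.k), b ≠ C.t → ∀ (x : V) (w : C.G.Walk x x), w.IsCycle →
      (∀ y ∈ w.support, hh y = b ∨ hh y = C.t) →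
      w.length ≤ 2 * C.k + 2 ∧ (∀ y ∈ T1, y ∈ w.support) ∧ C.p ∈ w.support ∧ b = C.c C.p := by
    intro b hb x w hw hcol
    have := lemmaB (G := C.G) C.hg hh hhprop C.t b hb {C.p} 0 1 (by
        intro a ha a' ha'
        rw [Set.mem_singleton_iff] at ha ha'
        subst ha
        subst ha'
        exact ⟨Walk.nil, by simp, by simp, by simp⟩) (by
        intro a ha
        rw [Set.mem_singleton_iff] at ha
        subst ha
        rw [hhp]; exact hjt) T1 (by
        intro y hy hyT
        refine ⟨C.p, rfl, ?_⟩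
        by_contra hyp
        have hy1 : y ≠ C.p := by
          rintro rfl
          rw [hhp] at hy
          exact hjt hy
        rw [hhf y hy1 (fun h' => hyp h'.1.symm)] at hy
        refine hyT ?_
        rw [hT1, Finset.mem_filter]
        refine ⟨Finset.mem_univ _, hy, ?_⟩
        rintro rfl
        exact hyp hpv.symm) hT1card le_rfl (by omega) w hw hcol
    obtain ⟨_, h1, h2, a, ha, haw, hab⟩ := this
    rw [Set.mem_singleton_iff] at ha
    subst ha
    exact ⟨h1, h2, haw, by rw [← hab, hhp]⟩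
  by_cases hno : ∃ (x : V) (w : C.G.Walk x x), w.IsCycle ∧
      ∀ y ∈ w.support, hh y = C.c C.p ∨ hh y = C.t
  swap
  · -- `hh` is acyclic
    refine ⟨hh, (isAcyclicColouring_iff C.G hh).2 ⟨hhprop, ?_⟩, hhQ, hhp⟩
    have hkey : ∀ (b : Fin C.k) (x : V) (w : C.G.Walk x x), w.IsCycle →
        (∀ y ∈ w.support, hh y = b ∨ hh y = C.t) → False := by
      intro b x w hw hcol
      by_cases hb : b = C.t
      · refine hno ⟨x, w, hw, fun y hy => Or.inr ?_⟩
        have := hcol y hy
        rw [hb, or_self] at this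
        exact this
      · have := hB b hb x w hw hcol
        rw [this.2.2.2] at hcol
        exact hno ⟨x, w, hw, hcol⟩
    intro a b x w hw hcol
    by_cases ha : a = C.t
    · exact hkey b x w hw fun y hy => ((hcol y hy).symm).imp_right fun h' => h'.trans ha
    by_cases hb : b = C.t
    · exact hkey a x w hw fun y hy => (hcol y hy).imp_right fun h' => h'.trans hb
    exact hA a b ha hb x w hw hcol
  · obtain ⟨x0, Z, hZ, hZcol⟩ := hno
    obtain ⟨hZ1, hZ2, hZp, _⟩ := hB _ hjt x0 Z hZ hZcol
    -- the neighbour `w` of `p`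
    obtain ⟨w, hpw, hwv, hwe, hwZ⟩ : ∃ w, C.G.Adj C.p w ∧ w ≠ v ∧ s(C.p, w) ∈ Z.edges ∧
        w ∈ Z.support := by
      obtain ⟨g₁, g₂, P, h12, h1, h2, _, _, _, h3, h4, h5, _⟩ := cycle_at Z hZ hZp
      by_cases hg1 : g₁ = v
      · exact ⟨g₂, h2, fun h' => h12 (hg1.trans h'.symm), h5,
          (h3 _).2 (Or.inr P.end_mem_support)⟩
      · exact ⟨g₁, h1, hg1, h4, (h3 _).2 (Or.inr P.start_mem_support)⟩
    have hhw : hh w = C.t := hhW w hpw
    obtain ⟨e1, he1p, he1⟩ := cycle_edges_at Z hZ (u := w) (g := C.p) (by rwa [Sym2.eq_swap])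
    have hwe1 : C.G.Adj w e1 := Z.adj_of_mem_edges he1
    have he1Z : e1 ∈ Z.support := Z.snd_mem_support_of_mem_edges he1
    have hhe1 : hh e1 = C.c C.p := by
      rcases hZcol e1 he1Z with h' | h'
      · exact h'
      · exact absurd (hhw.trans h'.symm) (hhprop w e1 hwe1)
    have he1W : ¬ (C.G.Adj C.p e1 ∧ e1 ≠ v) := fun h' => by
      rw [hhW e1 h'.1] at hhe1
      exact hjt hhe1.symm
    have hfe1 : C.f e1 = C.c C.p := by rw [← hhf e1 he1p he1W, hhe1]
    have hfw : C.f w ≠ C.c C.p := fun h' => C.f_ne_of_adj hwe1 (h'.trans hfe1.symm)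
    obtain ⟨τ1, hτ1w, hτ1⟩ := cycle_edges_at Z hZ (u := e1) (g := w) (by rwa [Sym2.eq_swap])
    have he1τ : C.G.Adj e1 τ1 := Z.adj_of_mem_edges hτ1
    have hτZ : τ1 ∈ Z.support := Z.snd_mem_support_of_mem_edges hτ1
    have hhτ : hh τ1 = C.t := by
      rcases hZcol τ1 hτZ with h' | h'
      · exact absurd (hhe1.trans h'.symm) (hhprop e1 τ1 he1τ)
      · exact h'
    have hτp : τ1 ≠ C.p := by
      rintro rfl
      rw [hhp] at hhτ
      exact hjt hhτ
    have hτnp : ¬ C.G.Adj C.p τ1 := fun h' =>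
      C.excep_no_square hτ1w.symm hpw hwe1 h' he1τ.symm he1p.symm
    have hτT1 : τ1 ∈ T1 := by
      rw [hT1, Finset.mem_filter]
      refine ⟨Finset.mem_univ _, ?_, ?_⟩
      · rw [← hhf τ1 hτp (fun h' => hτnp h'.1), hhτ]
      · rintro rfl
        exact hτnp hpv
    -- the colouring `g`
    have hwp : w ≠ C.p := hpw.ne'
    set g : V → Fin C.k := fun x => if x = w then C.f w else hh x with hg
    have hgw : g w = C.f w := by simp [hg]
    have hgn : ∀ x, x ≠ w → g x = hh x := fun x hx => by simp [hg, hx]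
    have hghalf : ∀ y, C.G.Adj w y → g w ≠ g y := by
      intro y hy
      rw [hgw, hgn y hy.ne']
      by_cases hyp : y = C.p
      · subst hyp
        rw [hhp]; exact hfw
      · rw [hhf y hyp (fun h' => C.excep_no_triangle hpw hy h'.1)]
        exact C.f_ne_of_adj hy
    have hgprop : ∀ x y, C.G.Adj x y → g x ≠ g y := by
      intro x y hxy
      by_cases hx : x = w
      · subst hx; exact hghalf y hxy
      by_cases hy : y = w
      · subst hy; exact (hghalf x hxy.symm).symm
      rw [hgn x hx, hgn y hy]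
      exact hhprop x y hxy
    have hgt : g w ≠ C.t := by rw [hgw]; exact hWf w hpw hwv
    refine ⟨g, (isAcyclicColouring_iff C.G g).2 ⟨hgprop, ?_⟩, ?_, ?_⟩
    · have hkey : ∀ (b : Fin C.k), b ≠ C.t → ∀ (x : V) (Z' : C.G.Walk x x), Z'.IsCycle →
          (∀ y ∈ Z'.support, g y = b ∨ g y = C.t) → False := by
        intro b hb x Z' hZ' hcol
        have hwZ' : w ∉ Z'.support := by
          intro hwZ'
          obtain ⟨g₁, g₂, P, _, h1, _, _, _, _, h3, _⟩ := cycle_at Z' hZ' hwZ'
          have h4 : g₁ ∈ Z'.support := (h3 g₁).2 (Or.inr P.start_mem_support)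
          have hgwb : g w = b := (hcol w hwZ').resolve_right hgt
          have h5 : g g₁ = C.t := by
            rcases hcol g₁ h4 with h' | h'
            · exact absurd (hgwb.trans h'.symm) (hgprop w g₁ h1)
            · exact h'
          rw [hgn g₁ h1.ne'] at h5
          have h6 : g₁ ≠ C.p := by
            rintro rfl
            rw [hhp] at h5
            exact hjt h5
          rw [hhf g₁ h6 (fun h' => C.excep_no_triangle hpw h1 h'.1)] at h5
          exact hWτ w hpw hwv g₁ h1 h5
        have hcol' : ∀ y ∈ Z'.support, hh y = b ∨ hh y = C.t := fun y hy => by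
          rw [← hgn y (fun h' => hwZ' (h' ▸ hy))]
          exact hcol y hy
        obtain ⟨h1, h2, h3, _⟩ := hB b hb x Z' hZ' hcol'
        obtain ⟨P, P', hP, hP', _, hlen, hPs, hPs'⟩ := cycle_two_paths Z' hZ' h3 (h2 τ1 hτT1) hτp.symm
        have hpath : (Walk.cons hpw (Walk.cons hwe1 (Walk.cons he1τ Walk.nil))).IsPath := by
          simp [Walk.cons_isPath_iff, he1p.symm, hτp.symm, hτ1w.symm, hwe1.ne, he1τ.ne, hpw.ne]
        have hfin : ∀ R : C.G.Walk C.p τ1, R.IsPath → (∀ y ∈ R.support, y ∈ Z'.support) →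
            R.length ≤ C.k + 1 → False := by
          intro R hR hRs hRl
          have h4 := spp (N := 2 * C.k) C.hg _ _ hpath hR (by
            simp only [Walk.length_cons, Walk.length_nil]
            omega)
          refine hwZ' (hRs w ?_)
          rw [← h4]
          simp
        rcases le_total P.length P'.length with h4 | h4
        · exact hfin P hP hPs (by omega)
        · exact hfin P' hP' hPs' (by omega)
      have hkey' : ∀ (b : Fin C.k) (x : V) (Z' : C.G.Walk x x), Z'.IsCycle →
          (∀ y ∈ Z'.support, g y = b ∨ g y = C.t) → False := by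
        intro b x Z' hZ' hcol
        by_cases hb : b = C.t
        · refine hkey _ hjt x Z' hZ' fun y hy => Or.inr ?_
          have := hcol y hy
          rw [hb, or_self] at this
          exact this
        · exact hkey b hb x Z' hZ' hcol
      intro a b x Z' hZ' hcol
      by_cases ha : a = C.t
      · exact hkey' b x Z' hZ' fun y hy => ((hcol y hy).symm).imp_right fun h' => h'.trans ha
      by_cases hb : b = C.t
      · exact hkey' a x Z' hZ' fun y hy => (hcol y hy).imp_right fun h' => h'.trans hb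
      have hnt : ∀ y ∈ Z'.support, g y ≠ C.t := by
        intro y hy hyt
        rcases hcol y hy with h' | h'
        · exact ha (h'.symm.trans hyt)
        · exact hb (h'.symm.trans hyt)
      have hnW : ∀ y ∈ Z'.support, C.G.Adj C.p y → y = w := by
        intro y hy hpy
        by_contra hyw
        refine hnt y hy ?_
        rw [hgn y hyw, hhW y hpy]
      have hpZ' : C.p ∉ Z'.support := by
        intro hp
        obtain ⟨g₁, g₂, P, h12, h1, h2, _, _, _, h3, _⟩ := cycle_at Z' hZ' hp
        exact h12 ((hnW g₁ ((h3 _).2 (Or.inr P.start_mem_support)) h1).trans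
          (hnW g₂ ((h3 _).2 (Or.inr P.end_mem_support)) h2).symm)
      refine hfcyc a b x Z' hZ' fun y hy => ?_
      have : g y = C.f y := by
        by_cases hyw : y = w
        · rw [hyw, hgw]
        · rw [hgn y hyw, hhf y (fun h' => hpZ' (h' ▸ hy)) (fun h' => hyw (hnW y hy h'.1))]
      rw [← this]
      exact hcol y hy
    · intro q hq
      rw [hgn q (fun h' => hWQ w hpw hwv (h' ▸ hq)), hhQ q hq]
    · rw [hgn _ hwp.symm, hhp]

end Pool.Agent.LibBChrom26
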