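import Pool.Agent.LibBChrom26.Cases
import Pool.Agent.LibBChrom26.Excep
import Pool.Agent.LibBChrom26.ExCore
import Pool.Agent.LibBChrom26.ExCuts

/-!
# The Step Lemma
-/

namespace Pool.Agent.LibBChrom26

open SimpleGraph Classical

universe u

variable {V : Type u} [Fintype V]

theorem step (C : Ctx V) :
    ∃ g : V → Fin C.k, IsAcyclicColouring C.G g ∧ (∀ q ∈ C.Q, g q = C.c q) ∧
      g C.p = C.c C.p := by
  by_cases hex : ∀ z, C.G.Adj C.p z → C.Gam z → z = C.ctr C.t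
  · exact exceptional C hex
  · obtain ⟨K⟩ := exists_core C
    obtain ⟨D⟩ := exists_cuts K
    refine ⟨D.col, ?_, fun q hq => D.col_Q hq, D.col_p⟩
    by_cases hB : D.B.Nonempty
    · exact D.case1 hB
    by_cases h2 : 2 ≤ K.R0.card
    · exact D.case2 hB h2
    have hR : K.R0 = {C.p} := by
      have h1 : K.R0.card ≤ 1 := by omega
      have hp := K.hp
      exact Finset.eq_singleton_iff_unique_mem.2 ⟨hp, fun x hx =>
        (Finset.card_le_one.1 h1) x hx _ hp⟩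
    push Not at hex
    obtain ⟨z, hz, hzG, hne⟩ := hex
    by_cases hzt : C.f z = C.t
    · exact D.case4 hB hR hzt hz hne
    · have : z ∈ K.Kset := by
        rw [K.mem_Kset]
        refine ⟨⟨hzt, hzG⟩, ?_, C.p, K.hp, hz.symm⟩
        rw [hR]
        intro h
        rw [Finset.mem_singleton] at h
        exact C.G.ne_of_adj hz h.symm
      exact D.case3 hB hR this

/-- STEP LEMMA, unbundled. -/
theorem step_lemma (G : SimpleGraph V) (k : ℕ) (hk : 4 ≤ k)
    (hg : ∀ (v : V) (w : G.Walk v v), w.IsCycle → 2 * k < w.length)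
    (c : V → Fin k) (hc : Proper G c) (ctr : Fin k → V) (hctr : ∀ i, c (ctr i) = i)
    (Q : Set V) (own : V → Fin k)
    (hQ1 : ∀ q ∈ Q, ctr (own q) ∈ Q ∧ (q = ctr (own q) ∨ G.Adj q (ctr (own q))))
    (hQ2 : ∀ q ∈ Q, ∀ q' ∈ Q, own q = own q' → c q = c q' → q = q')
    (hQ3 : ∀ i, ctr i ∈ Q → own (ctr i) = i)
    (f : V → Fin k) (hf : IsAcyclicColouring G f) (hfQ : ∀ q ∈ Q, f q = c q)
    (t : Fin k) (hft : ∀ x, f x = t → x ∈ Q) (htQ : ctr t ∈ Q)
    (p : V) (hpv : G.Adj p (ctr t)) (hpQ : p ∉ Q) :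
    ∃ g : V → Fin k, IsAcyclicColouring G g ∧ (∀ q ∈ Q, g q = c q) ∧ g p = c p := by
  by_cases hfp : f p = c p
  · exact ⟨f, hf, hfQ, hfp⟩
  · exact step ⟨G, k, hk, hg, c, hc, ctr, hctr, Q, own, hQ1, hQ2, hQ3, f, hf, hfQ, t, hft,
      htQ, p, hpv, hpQ, hfp⟩

end Pool.Agent.LibBChrom26
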