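import Pool.Agent.LibBChrom26.StateDef
import Pool.Agent.LibBChrom26.Step

/-!
# Main argument (point 0 of the notes)
-/

namespace Pool.Agent.LibBChrom26

open SimpleGraph Classical

universe u

variable {V : Type u} [Fintype V]

/-- a duplicate-free list has at most `|T|` entries in `T` -/
theorem countP_le_card_of_nodup (L : List V) (hL : L.Nodup) (T : Finset V) :
    L.countP (fun x => decide (x ∈ T)) ≤ T.card := by
  rw [List.countP_eq_length_filter]
  have h1 : (L.filter (fun x => decide (x ∈ T))).Nodup := hL.filter _
  rw [← List.toFinset_card_of_nodup h1]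
  apply Finset.card_le_card
  intro x hx
  rw [List.mem_toFinset, List.mem_filter] at hx
  simpa using hx.2

/-- a cycle in which every edge has an end in `T` has length at most `2|T|` -/
theorem cycle_le_two_card {G : SimpleGraph V} {v : V} (w : G.Walk v v) (hw : w.IsCycle)
    (T : Finset V) (h : ∀ x ∈ w.support, ∀ y ∈ w.support, G.Adj x y → x ∉ T → y ∈ T) :
    w.length ≤ 2 * T.card := by
  have h1 : w.support.tail.Nodup := hw.support_nodup
  have h2 : w.support.dropLast.Nodup := by
    have h3 := hw.reverse.support_nodup
    rw [Walk.support_reverse, List.tail_reverse, List.nodup_reverse] at h3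
    exact h3
  have e1 : w.darts.countP (fun d => decide (d.fst ∈ T)) ≤ T.card := by
    have := countP_le_card_of_nodup _ h2 T
    rw [← Walk.map_fst_darts, List.countP_map] at this
    exact this
  have e2 : w.darts.countP (fun d => decide (d.snd ∈ T)) ≤ T.card := by
    have := countP_le_card_of_nodup _ h1 T
    rw [← Walk.map_snd_darts, List.countP_map] at this
    exact this
  have e3 : w.darts.length = w.darts.countP (fun d => decide (d.fst ∈ T)) +
      w.darts.countP (fun d => decide (¬ (decide (d.fst ∈ T)) = true)) :=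
    List.length_eq_countP_add_countP _
  have e4 : w.darts.countP (fun d => decide (¬ (decide (d.fst ∈ T)) = true)) ≤
      w.darts.countP (fun d => decide (d.snd ∈ T)) := by
    apply List.countP_mono_left
    intro d hd hdT
    have a1 : d.fst ∈ w.support := w.dart_fst_mem_support_of_mem_darts hd
    have a2 : d.snd ∈ w.support := w.dart_snd_mem_support_of_mem_darts hd
    have := h _ a1 _ a2 d.adj (by simpa using hdT)
    simpa using this
  rw [← Walk.length_darts]
  omega

/-- giving colour `t` (absent so far) to an independent set of at most `k` vertices keeps the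
colouring acyclic if the girth is `> 2k` -/
theorem put_back (G : SimpleGraph V) (k : ℕ)
    (hg : ∀ (v : V) (w : G.Walk v v), w.IsCycle → 2 * k < w.length)
    (f : V → Fin k) (hf : IsAcyclicColouring G f) (t : Fin k) (ht : ∀ x, f x ≠ t)
    (T : Finset V) (hT : T.card ≤ k) (hind : ∀ x ∈ T, ∀ y ∈ T, ¬ G.Adj x y) :
    IsAcyclicColouring G (fun x => if x ∈ T then t else f x) := by
  have hprop : Proper G (fun x => if x ∈ T then t else f x) := by
    intro u v huv
    by_cases hu : u ∈ T <;> by_cases hv : v ∈ T
    · exact absurd huv (hind u hu v hv)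
    · simp only [hu, hv, if_true, if_false]
      exact fun h => ht v h.symm
    · simp only [hu, hv, if_true, if_false]
      exact ht u
    · simp only [hu, hv, if_false]
      exact hf.1 u v huv
  rw [isAcyclicColouring_iff]
  refine ⟨hprop, ?_⟩
  rw [isAcyclicColouring_iff] at hf
  have hT' : ∀ x, (if x ∈ T then t else f x) = t → x ∈ T := by
    intro x hx
    by_contra hxT
    rw [if_neg hxT] at hx
    exact ht x hx
  -- a cycle in the colours `t` and `j`
  have key : ∀ (j : Fin k) (v : V) (w : G.Walk v v), w.IsCycle →
      ¬ ∀ x ∈ w.support, (if x ∈ T then t else f x) = t ∨ (if x ∈ T then t else f x) = j := by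
    intro j v w hw hcol
    have hlen := cycle_le_two_card w hw T (by
      intro x hx y hy hxy hxT
      have cx := hcol x hx
      have cy := hcol y hy
      have hne := hprop x y hxy
      simp only at hne
      rcases cy with cy | cy
      · exact hT' y cy
      · rcases cx with cx | cx
        · exact absurd (hT' x cx) hxT
        · exact absurd (cx.trans cy.symm) hne)
    have := hg v w hw
    omega
  intro i j v w hw hcol
  by_cases hi : i = t
  · subst hi
    exact key j v w hw hcol
  by_cases hj : j = t
  · subst hj
    exact key i v w hw (fun x hx => (hcol x hx).symm)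
  apply hf.2 i j v w hw
  intro x hx
  have := hcol x hx
  by_cases hxT : x ∈ T
  · rw [if_pos hxT] at this
    rcases this with h | h
    · exact absurd h.symm hi
    · exact absurd h.symm hj
  · rwa [if_neg hxT] at this

/-- enlarging by a missing centre -/
theorem enlarge_ctr (G : SimpleGraph V) (k : ℕ)
    (hg : ∀ (v : V) (w : G.Walk v v), w.IsCycle → 2 * k < w.length)
    (c : V → Fin k) (hc : Proper G c) (ctr : Fin k → V) (hctr : ∀ i, c (ctr i) = i)
    (Q : Set V) (own : V → Fin k)
    (hQ1 : ∀ q ∈ Q, ctr (own q) ∈ Q ∧ (q = ctr (own q) ∨ G.Adj q (ctr (own q))))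
    (hQ2 : ∀ q ∈ Q, ∀ q' ∈ Q, own q = own q' → c q = c q' → q = q')
    (hQ3 : ∀ i, ctr i ∈ Q → own (ctr i) = i)
    (f : V → Fin k) (hf : IsAcyclicColouring G f) (t : Fin k) (hft : ∀ x, f x ≠ t)
    (hfQ : ∀ q ∈ Q, c q ≠ t → f q = c q) (htQ : ctr t ∉ Q) :
    ∃ Q' : Set V, Q ⊂ Q' ∧ IsState G c ctr Q' := by
  set T : Finset V := Finset.univ.filter (fun x => c x = t ∧ (x ∈ Q ∨ x = ctr t)) with hTdef
  have hmemT : ∀ x, x ∈ T ↔ c x = t ∧ (x ∈ Q ∨ x = ctr t) := by
    intro x
    simp [hTdef]
  have hT : T.card ≤ k := by
    have : T.card ≤ (Finset.univ : Finset (Fin k)).card := by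
      apply Finset.card_le_card_of_injOn (fun x => if x = ctr t then t else own x)
      · intro x _
        simp
      · intro x hx y hy hxy
        rw [Finset.mem_coe, hmemT] at hx hy
        simp only at hxy
        have aux : ∀ z, z ≠ ctr t → (c z = t ∧ (z ∈ Q ∨ z = ctr t)) → own z ≠ t := by
          rintro z hz ⟨_, hz1 | hz1⟩ hzt
          · have := (hQ1 z hz1).1
            rw [hzt] at this
            exact htQ this
          · exact hz hz1
        by_cases hx1 : x = ctr t <;> by_cases hy1 : y = ctr t
        · rw [hx1, hy1]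
        · rw [if_pos hx1, if_neg hy1] at hxy
          exact absurd hxy.symm (aux y hy1 hy)
        · rw [if_neg hx1, if_pos hy1] at hxy
          exact absurd hxy (aux x hx1 hx)
        · rw [if_neg hx1, if_neg hy1] at hxy
          exact hQ2 x (hx.2.resolve_right hx1) y (hy.2.resolve_right hy1) hxy
            (hx.1.trans hy.1.symm)
    simpa using this
  have hind : ∀ x ∈ T, ∀ y ∈ T, ¬ G.Adj x y := by
    intro x hx y hy hxy
    rw [hmemT] at hx hy
    exact hc x y hxy (hx.1.trans hy.1.symm)
  have hnew := put_back G k hg f hf t hft T hT hind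
  refine ⟨insert (ctr t) Q, ?_, fun x => if x = ctr t then t else own x, _, ?_, ?_, ?_, hnew, ?_⟩
  · exact Set.ssubset_insert htQ
  · intro q hq
    by_cases hqt : q = ctr t
    · subst hqt
      simp
    · have hqQ : q ∈ Q := (Set.mem_insert_iff.1 hq).resolve_left hqt
      simp only [if_neg hqt]
      exact ⟨Set.mem_insert_of_mem _ (hQ1 q hqQ).1, (hQ1 q hqQ).2⟩
  · have aux : ∀ z ∈ Q, own z ≠ t := by
      intro z hz hzt
      have := (hQ1 z hz).1
      rw [hzt] at this
      exact htQ this
    intro q hq q' hq' ho hcc
    by_cases hqt : q = ctr t <;> by_cases hqt' : q' = ctr t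
    · rw [hqt, hqt']
    · have hqQ' : q' ∈ Q := (Set.mem_insert_iff.1 hq').resolve_left hqt'
      simp only [if_pos hqt, if_neg hqt'] at ho
      exact absurd ho.symm (aux q' hqQ')
    · have hqQ : q ∈ Q := (Set.mem_insert_iff.1 hq).resolve_left hqt
      simp only [if_neg hqt, if_pos hqt'] at ho
      exact absurd ho (aux q hqQ)
    · have hqQ' : q' ∈ Q := (Set.mem_insert_iff.1 hq').resolve_left hqt'
      have hqQ : q ∈ Q := (Set.mem_insert_iff.1 hq).resolve_left hqt
      simp only [if_neg hqt, if_neg hqt'] at ho
      exact hQ2 q hqQ q' hqQ' ho hcc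
  · intro i hi
    by_cases hit : ctr i = ctr t
    · have : i = t := by rw [← hctr i, hit, hctr]
      simp [hit, this]
    · have hiQ : ctr i ∈ Q := (Set.mem_insert_iff.1 hi).resolve_left hit
      simp only [if_neg hit]
      exact hQ3 i hiQ
  · intro q hq
    by_cases hqt : q = ctr t
    · subst hqt
      rw [if_pos ((hmemT _).2 ⟨hctr t, Or.inr rfl⟩), hctr]
    · have hqQ : q ∈ Q := (Set.mem_insert_iff.1 hq).resolve_left hqt
      by_cases hcq : c q = t
      · rw [if_pos ((hmemT _).2 ⟨hcq, Or.inl hqQ⟩), hcq]
      · rw [if_neg (fun h => hcq ((hmemT _).1 h).1)]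
        exact hfQ q hqQ hcq

/-- every state can be enlarged, if all surjective acyclic colourings with `k` colours admit an
acyclic recolouring step (points (a), (b) of section 0 of the notes; the last case uses
`step_lemma`) -/
theorem enlarge (G : SimpleGraph V) (k : ℕ) (hk : 4 ≤ k)
    (hg : ∀ (v : V) (w : G.Walk v v), w.IsCycle → 2 * k < w.length)
    (c : V → Fin k) (hc : Proper G c) (ctr : Fin k → V) (hctr : ∀ i, c (ctr i) = i)
    (hb : ∀ i, IsBVertex G c (ctr i))
    (hred : ∀ f : V → Fin k, Function.Surjective f → IsAcyclicColouring G f →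
      ∃ (i : Fin k) (f' : V → Fin k), IsAcyclicStep G f f' i)
    (Q : Set V) (hQ : IsState G c ctr Q) : ∃ Q' : Set V, Q ⊂ Q' ∧ IsState G c ctr Q' := by
  obtain ⟨own, f, hQ1, hQ2, hQ3, hf, hfQ⟩ := hQ
  by_cases hsurj : Function.Surjective f
  · obtain ⟨t, f₁, hs1, hs2, hs3⟩ := hred f hsurj hf
    have hf1t : ∀ x, f₁ x ≠ t := by
      intro x
      by_cases hx : f x = t
      · exact (hs2 x hx).1
      · rw [hs1 x hx]; exact hx
    have hf1Q : ∀ q ∈ Q, c q ≠ t → f₁ q = c q := by
      intro q hq hcq
      rw [← hfQ q hq] at hcq ⊢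
      exact hs1 q hcq
    by_cases htQ : ctr t ∈ Q
    · -- the centre is protected
      set T : Finset V := Finset.univ.filter (fun x => c x = t ∧ x ∈ Q) with hTdef
      have hmemT : ∀ x, x ∈ T ↔ c x = t ∧ x ∈ Q := by
        intro x
        simp [hTdef]
      have hT : T.card ≤ k := by
        have : T.card ≤ (Finset.univ : Finset (Fin k)).card := by
          apply Finset.card_le_card_of_injOn own
          · intro x _
            simp
          · intro x hx y hy hxy
            rw [Finset.mem_coe, hmemT] at hx hy
            exact hQ2 x hx.2 y hy.2 hxy (hx.1.trans hy.1.symm)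
        simpa using this
      have hind : ∀ x ∈ T, ∀ y ∈ T, ¬ G.Adj x y := by
        intro x hx y hy hxy
        rw [hmemT] at hx hy
        exact hc x y hxy (hx.1.trans hy.1.symm)
      have hnew := put_back G k hg f₁ hs3 t hf1t T hT hind
      have hnewQ : ∀ q ∈ Q, (if q ∈ T then t else f₁ q) = c q := by
        intro q hq
        by_cases hcq : c q = t
        · rw [if_pos ((hmemT _).2 ⟨hcq, hq⟩), hcq]
        · rw [if_neg (fun h => hcq ((hmemT _).1 h).1)]
          exact hf1Q q hq hcq
      have hnewt : ∀ x, (if x ∈ T then t else f₁ x) = t → x ∈ Q := by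
        intro x hx
        by_cases hxT : x ∈ T
        · exact ((hmemT _).1 hxT).2
        · rw [if_neg hxT] at hx
          exact absurd hx (hf1t x)
      have hfctr : f (ctr t) = t := by rw [hfQ _ htQ, hctr]
      obtain ⟨hj1, hj2⟩ := hs2 (ctr t) hfctr
      obtain ⟨p, hp1, hp2⟩ := hb t (f₁ (ctr t)) (by rw [hctr]; exact hj1)
      have hpQ : p ∉ Q := by
        intro hpQ
        have h1 := hj2 p hp1
        rw [hfQ p hpQ] at h1
        exact h1 hp2
      obtain ⟨g, hg1, hg2, hg3⟩ := step_lemma G k hk hg c hc ctr hctr Q own hQ1 hQ2 hQ3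
        _ hnew hnewQ t hnewt htQ p hp1.symm hpQ
      have hcpt : c p ≠ t := by rw [hp2]; exact hj1
      -- owners equal to the one of `p`
      have aux : ∀ q ∈ Q, c p = c q → own q = (if p = ctr (c p) then c p else t) → False := by
        intro q hq hcq ho
        by_cases hpc : p = ctr (c p)
        · rw [if_pos hpc] at ho
          have := (hQ1 q hq).1
          rw [ho, ← hpc] at this
          exact hpQ this
        · rw [if_neg hpc] at ho
          have h1 := (hQ1 q hq).2
          rw [ho] at h1
          rcases h1 with h1 | h1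
          · rw [h1, hctr] at hcq
            exact hcpt hcq
          · have h2 := hj2 q h1.symm
            rw [hfQ q hq] at h2
            exact h2 (hcq.symm.trans hp2)
      refine ⟨insert p Q, Set.ssubset_insert hpQ,
        fun x => if x = p then (if p = ctr (c p) then c p else t) else own x, g, ?_, ?_, ?_,
        hg1, ?_⟩
      · intro q hq
        by_cases hqp : q = p
        · subst hqp
          simp only [if_true]
          by_cases hpc : q = ctr (c q)
          · simp only [if_pos hpc]
            exact ⟨by rw [← hpc]; exact Set.mem_insert _ _, Or.inl hpc⟩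
          · simp only [if_neg hpc]
            exact ⟨Set.mem_insert_of_mem _ htQ, Or.inr hp1.symm⟩
        · have hqQ : q ∈ Q := (Set.mem_insert_iff.1 hq).resolve_left hqp
          simp only [if_neg hqp]
          exact ⟨Set.mem_insert_of_mem _ (hQ1 q hqQ).1, (hQ1 q hqQ).2⟩
      · intro q hq q' hq' ho hcc
        by_cases hqp : q = p <;> by_cases hqp' : q' = p
        · rw [hqp, hqp']
        · have hqQ' : q' ∈ Q := (Set.mem_insert_iff.1 hq').resolve_left hqp'
          simp only [if_pos hqp, if_neg hqp'] at ho
          rw [hqp] at hcc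
          exact (aux q' hqQ' hcc ho.symm).elim
        · have hqQ : q ∈ Q := (Set.mem_insert_iff.1 hq).resolve_left hqp
          simp only [if_neg hqp, if_pos hqp'] at ho
          rw [hqp'] at hcc
          exact (aux q hqQ hcc.symm ho).elim
        · have hqQ' : q' ∈ Q := (Set.mem_insert_iff.1 hq').resolve_left hqp'
          have hqQ : q ∈ Q := (Set.mem_insert_iff.1 hq).resolve_left hqp
          simp only [if_neg hqp, if_neg hqp'] at ho
          exact hQ2 q hqQ q' hqQ' ho hcc
      · intro i hi
        by_cases hip : ctr i = p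
        · have hic : c p = i := by rw [← hip, hctr]
          simp only [if_pos hip]
          rw [hic, if_pos hip.symm]
        · have hiQ : ctr i ∈ Q := (Set.mem_insert_iff.1 hi).resolve_left hip
          simp only [if_neg hip]
          exact hQ3 i hiQ
      · intro q hq
        rcases Set.mem_insert_iff.1 hq with h | h
        · rw [h]; exact hg3
        · exact hg2 q h
    · exact enlarge_ctr G k hg c hc ctr hctr Q own hQ1 hQ2 hQ3 f₁ hs3 t hf1t hf1Q htQ
  · have : ∃ t, ∀ x, f x ≠ t := by
      by_contra hcon
      push Not at hcon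
      exact hsurj hcon
    obtain ⟨t, ht⟩ := this
    have htQ : ctr t ∉ Q := by
      intro h
      apply ht (ctr t)
      rw [hfQ _ h, hctr]
    exact enlarge_ctr G k hg c hc ctr hctr Q own hQ1 hQ2 hQ3 f hf t ht
      (fun q hq _ => hfQ q hq) htQ

end Pool.Agent.LibBChrom26
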