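import Mathlib

/-!
# Walk tools
-/

namespace Pool.Agent.LibBChrom26

open SimpleGraph Classical

universe u

variable {V : Type u} {G : SimpleGraph V}

/-- Appending two paths whose supports meet only in the junction. -/
theorem isPath_append {a b c : V} (P : G.Walk a b) (P' : G.Walk b c) (hP : P.IsPath)
    (hP' : P'.IsPath) (h : ∀ x ∈ P.support, x ∈ P'.support → x = b) : (P.append P').IsPath := by
  induction P with
  | nil => simpa using hP'
  | cons hadj P ih =>
    rw [Walk.cons_append, Walk.cons_isPath_iff]
    rw [Walk.cons_isPath_iff] at hP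
    refine ⟨ih P' hP.1 hP' (fun x hx hx' => h x (by
      rw [Walk.support_cons]; exact List.mem_cons_of_mem _ hx) hx'), ?_⟩
    intro hmem
    rw [Walk.mem_support_append_iff] at hmem
    rcases hmem with hm | hm
    · exact hP.2 hm
    · have := h _ (by rw [Walk.support_cons]; exact List.mem_cons_self) hm
      subst this
      exact hP.2 P.end_mem_support

/-- From a walk in a set to a path in the set which is not longer. -/
theorem exists_path_of_walk {a b : V} (S : Set V) (P : G.Walk a b) (h : ∀ x ∈ P.support, x ∈ S) :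
    ∃ P' : G.Walk a b, P'.IsPath ∧ (∀ x ∈ P'.support, x ∈ S) ∧ P'.length ≤ P.length :=
  ⟨P.bypass, P.bypass_isPath, fun x hx => h x (P.support_bypass_subset_support hx), P.length_bypass_le_length⟩

/-- A path from a vertex in `S` to a vertex outside `S` has an exit edge. -/
theorem exit_edge {a b : V} (S : Set V) (P : G.Walk a b) (ha : a ∈ S) (hb : b ∉ S) :
    ∃ x y, x ∈ P.support ∧ y ∈ P.support ∧ x ∈ S ∧ y ∉ S ∧ G.Adj x y ∧ s(x, y) ∈ P.edges := by
  induction P with
  | nil => exact absurd ha hb
  | @cons a v b hadj P ih =>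
    by_cases hv : v ∈ S
    · obtain ⟨x, y, hx, hy, hxS, hyS, hxy, he⟩ := ih hv hb
      refine ⟨x, y, ?_, ?_, hxS, hyS, hxy, ?_⟩
      · rw [Walk.support_cons]; exact List.mem_cons_of_mem _ hx
      · rw [Walk.support_cons]; exact List.mem_cons_of_mem _ hy
      · rw [Walk.edges_cons]; exact List.mem_cons_of_mem _ he
    · refine ⟨a, v, ?_, ?_, ha, hv, hadj, ?_⟩
      · rw [Walk.support_cons]; exact List.mem_cons_self
      · rw [Walk.support_cons]; exact List.mem_cons_of_mem _ P.start_mem_support
      · rw [Walk.edges_cons]; exact List.mem_cons_self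

end Pool.Agent.LibBChrom26
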