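import Mathlib

/-!
# Cycle tools
-/

namespace Pool.Agent.LibBChrom26

open SimpleGraph Classical

universe u

variable {V : Type u} {G : SimpleGraph V}

/-- A vertex `u` of a cycle: the two neighbours on the cycle and the path joining them outside `u`.
The edges `s(u, g₁)`, `s(u, g₂)` are edges of the cycle. (rotate the cycle to `u`) -/
theorem cycle_at {v : V} (w : G.Walk v v) (hw : w.IsCycle) {u : V} (hu : u ∈ w.support) :
    ∃ (g₁ g₂ : V) (P : G.Walk g₁ g₂), g₁ ≠ g₂ ∧ G.Adj u g₁ ∧ G.Adj u g₂ ∧ P.IsPath ∧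
      u ∉ P.support ∧ P.length + 2 = w.length ∧ (∀ x, x ∈ w.support ↔ x = u ∨ x ∈ P.support) ∧
      s(u, g₁) ∈ w.edges ∧ s(u, g₂) ∈ w.edges ∧ (∀ e ∈ P.edges, e ∈ w.edges) := by
  have hw' : (w.rotate u hu).IsCycle := (Walk.isCycle_rotate hu).2 hw
  have hlen : (w.rotate u hu).length = w.length := Walk.length_rotate w u hu
  have hsupp : ∀ x, x ∈ (w.rotate u hu).support ↔ x ∈ w.support := fun x =>
    Walk.mem_support_rotate_iff w u hu
  have hedges : ∀ e, e ∈ (w.rotate u hu).edges ↔ e ∈ w.edges := fun e =>
    (w.rotate_edges u hu).perm.mem_iff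
  generalize w.rotate u hu = w' at hw' hlen hsupp hedges
  cases w' with
  | nil => exact absurd hw' Walk.not_isCycle_nil
  | @cons _ g₁ _ h1 p =>
    rw [Walk.cons_isCycle_iff] at hw'
    obtain ⟨hp, hne⟩ := hw'
    obtain ⟨q, hq⟩ : ∃ q, p.reverse = q := ⟨_, rfl⟩
    have hpq : p = q.reverse := by rw [← hq, Walk.reverse_reverse]
    cases q with
    | nil => exact absurd rfl h1.ne
    | @cons _ g₂ _ h2 r =>
      subst hpq
      rw [Walk.isPath_reverse_iff, Walk.cons_isPath_iff] at hp
      obtain ⟨hr, hur⟩ := hp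
      rw [Walk.edges_reverse, List.mem_reverse, Walk.edges_cons] at hne
      refine ⟨g₁, g₂, r.reverse, ?_, h1, h2, (Walk.isPath_reverse_iff r).2 hr, ?_, ?_, ?_, ?_, ?_,
        ?_⟩
      · rintro rfl
        exact hne List.mem_cons_self
      · rwa [Walk.support_reverse, List.mem_reverse]
      · rw [← hlen, Walk.length_cons, Walk.length_reverse, Walk.length_reverse, Walk.length_cons]
      · intro x
        rw [← hsupp x, Walk.support_cons, List.mem_cons, Walk.support_reverse, List.mem_reverse,
          Walk.support_cons, List.mem_cons, Walk.support_reverse, List.mem_reverse]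
        tauto
      · rw [← hedges, Walk.edges_cons]
        exact List.mem_cons_self
      · rw [← hedges, Walk.edges_cons, Walk.edges_reverse, Walk.edges_cons]
        exact List.mem_cons_of_mem _ (List.mem_reverse.2 List.mem_cons_self)
      · intro e he
        rw [Walk.edges_reverse, List.mem_reverse] at he
        rw [← hedges, Walk.edges_cons, Walk.edges_reverse, Walk.edges_cons]
        exact List.mem_cons_of_mem _ (List.mem_reverse.2 (List.mem_cons_of_mem _ he))

/-- A cycle and two different vertices of it give two different paths between them. -/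
theorem cycle_two_paths {v : V} (w : G.Walk v v) (hw : w.IsCycle) {a b : V} (ha : a ∈ w.support)
    (hb : b ∈ w.support) (hab : a ≠ b) :
    ∃ P P' : G.Walk a b, P.IsPath ∧ P'.IsPath ∧ P ≠ P' ∧ P.length + P'.length = w.length ∧
      (∀ x ∈ P.support, x ∈ w.support) ∧ (∀ x ∈ P'.support, x ∈ w.support) := by
  obtain ⟨g₁, g₂, P, hg, h1, h2, hP, haP, hl, hs, -, -, -⟩ := cycle_at w hw ha
  have hbP : b ∈ P.support := by
    rcases (hs b).1 hb with h | h
    · exact absurd h.symm hab
    · exact h
  refine ⟨Walk.cons h1 (P.takeUntil b hbP), Walk.cons h2 (P.dropUntil b hbP).reverse, ?_, ?_, ?_,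
    ?_, ?_, ?_⟩
  · rw [Walk.cons_isPath_iff]
    exact ⟨hP.takeUntil hbP, fun h => haP (P.support_takeUntil_subset_support hbP h)⟩
  · rw [Walk.cons_isPath_iff, Walk.isPath_reverse_iff, Walk.support_reverse, List.mem_reverse]
    exact ⟨hP.dropUntil hbP, fun h => haP (P.support_dropUntil_subset_support hbP h)⟩
  · intro h
    apply hg
    have h3 := congrArg Walk.snd h
    rwa [Walk.snd_cons, Walk.snd_cons] at h3
  · have h3 := congrArg Walk.length (P.take_spec hbP)
    rw [Walk.length_append] at h3
    rw [Walk.length_cons, Walk.length_cons, Walk.length_reverse]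
    omega
  · intro x hx
    rw [Walk.support_cons, List.mem_cons] at hx
    rcases hx with rfl | hx
    · exact ha
    · exact (hs x).2 (Or.inr (P.support_takeUntil_subset_support hbP hx))
  · intro x hx
    rw [Walk.support_cons, List.mem_cons, Walk.support_reverse, List.mem_reverse] at hx
    rcases hx with rfl | hx
    · exact ha
    · exact (hs x).2 (Or.inr (P.support_dropUntil_subset_support hbP hx))

/-- only the two cycle edges at `u` -/
theorem cycle_edges_at {v : V} (w : G.Walk v v) (hw : w.IsCycle) {u g : V}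
    (hg : s(u, g) ∈ w.edges) : ∃ g', g' ≠ g ∧ s(u, g') ∈ w.edges := by
  have hu : u ∈ w.support := w.fst_mem_support_of_mem_edges hg
  obtain ⟨g₁, g₂, P, hne, -, -, -, -, -, -, he1, he2, -⟩ := cycle_at w hw hu
  by_cases h : g₁ = g
  · exact ⟨g₂, fun h' => hne (h.trans h'.symm), he2⟩
  · exact ⟨g₁, h, he1⟩

end Pool.Agent.LibBChrom26
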