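import Pool.Agent.LibBChrom26.Tools1
import Pool.Agent.LibBChrom26.Tools2
import Pool.Agent.LibBChrom26.Tools3

/-!
# Lemma B: a two-coloured cycle using colour `t`
-/

namespace Pool.Agent.LibBChrom26

open SimpleGraph Classical

universe u

variable {V : Type u} {G : SimpleGraph V}

/-- the number of `T`-positions in an open interval, for an alternating predicate -/
theorem lb_count (T : ℕ → Prop) (hT : ∀ q, T (q + 1) ↔ ¬ T q) (p : ℕ) :
    ∀ l : ℕ, l ≤ 2 * ((Finset.Ioo p (p + 1 + l)).filter T).card + 1 ∧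
      l + 1 ≤ 2 * ((Finset.Ioo p (p + 1 + (l + 1))).filter T).card + 1 := by
  intro l
  induction l with
  | zero => exact ⟨by omega, by omega⟩
  | succ l ih =>
    refine ⟨ih.2, ?_⟩
    have hsub : ((Finset.Ioo p (p + 1 + l)).filter T).card + 1 ≤
        ((Finset.Ioo p (p + 1 + (l + 1 + 1))).filter T).card := by
      obtain ⟨r, hr1, hr2, hr3⟩ : ∃ r, p + 1 + l ≤ r ∧ r < p + 1 + (l + 1 + 1) ∧ T r := by
        by_cases h1 : T (p + 1 + l)
        · exact ⟨p + 1 + l, le_refl _, by omega, h1⟩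
        · exact ⟨p + 1 + l + 1, by omega, by omega, (hT _).2 h1⟩
      have hnot : r ∉ (Finset.Ioo p (p + 1 + l)).filter T := by
        simp only [Finset.mem_filter, Finset.mem_Ioo]
        rintro ⟨⟨_, h2⟩, _⟩
        omega
      rw [← Finset.card_insert_of_notMem hnot]
      apply Finset.card_le_card
      intro x hx
      simp only [Finset.mem_insert, Finset.mem_filter, Finset.mem_Ioo] at hx ⊢
      rcases hx with rfl | ⟨⟨h1, h2⟩, h3⟩
      · exact ⟨⟨by omega, hr2⟩, hr3⟩
      · exact ⟨⟨h1, by omega⟩, h3⟩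
    omega

theorem lb_count' (T : ℕ → Prop) (hT : ∀ q, T (q + 1) ↔ ¬ T q) (p q : ℕ) (hpq : p < q) :
    q - p ≤ 2 * ((Finset.Ioo p q).filter T).card + 2 := by
  obtain ⟨l, rfl⟩ : ∃ l, q = p + 1 + l := ⟨q - (p + 1), by omega⟩
  have := (lb_count T hT p l).1
  omega

theorem lb_parity (T : ℕ → Prop) (hT : ∀ q, T (q + 1) ↔ ¬ T q) (n : ℕ) (hn : T n ↔ T 0) :
    n % 2 = 0 := by
  have key : ∀ q : ℕ, (T (2 * q) ↔ T 0) := by
    intro q
    induction q with
    | zero => simp
    | succ q ih =>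
      have h1 := hT (2 * q)
      have h2 := hT (2 * q + 1)
      have h3 : 2 * (q + 1) = 2 * q + 1 + 1 := by ring
      rw [h3, h2, h1, not_not, ih]
  by_contra hne
  obtain ⟨q, rfl⟩ : ∃ q, n = 2 * q + 1 := ⟨n / 2, by omega⟩
  have h1 := hT (2 * q)
  have h2 := key q
  rw [h1, h2] at hn
  exact not_iff_self hn

/-- The combinatorial core of Lemma B (positions on a cyclic sequence). -/
theorem lb_core (n k m L N1 : ℕ) (M T : ℕ → Prop) (hT : ∀ q, T (q + 1) ↔ ¬ T q)
    (hMp : ∀ q, M (q + n) ↔ M q) (hTp : ∀ q, T (q + n) ↔ T q)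
    (hC : ∀ p, ∀ F : Finset ℕ, (∀ r ∈ F, p ≤ r ∧ r < p + n ∧ T r ∧ ¬ M r) → F.card ≤ N1)
    (hF4 : ∀ p q, p < q → q < p + n → M p → M q → (∃ r, p < r ∧ r < q ∧ ¬ M r) →
      2 * k + 1 ≤ (q - p) + (L + 2))
    (hF5 : ∀ q, T (q + 1) → ¬ (M q ∧ M (q + 2)))
    (hn : 2 * k < n) (hcard : N1 + m ≤ k) (hm1 : 1 ≤ m)
    (hm : 2 * ((k - m) / 2) + 4 + L ≤ 2 * k) :
    m = 1 ∧ n ≤ 2 * k + 2 ∧
      (∃ p, ∃ F : Finset ℕ, (∀ r ∈ F, p ≤ r ∧ r < p + n ∧ T r ∧ ¬ M r) ∧ N1 ≤ F.card) ∧
      ∃ q, M q ∧ ¬ T q := by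
  have hpar : n % 2 = 0 := lb_parity T hT n (by simpa using hTp 0)
  have cnt := lb_count' T hT
  by_cases hall : ∀ r, M r
  · exfalso
    by_cases h0 : T 1
    · exact hF5 0 h0 ⟨hall _, hall _⟩
    · exact hF5 1 ((hT 1).2 h0) ⟨hall _, hall _⟩
  push Not at hall
  obtain ⟨r1, hr1⟩ := hall
  by_cases hnone : ∀ r, ¬ M r
  · exfalso
    have h1 := hC 0 ((Finset.Ioo 0 n).filter T) (by
      intro r hr
      simp only [Finset.mem_filter, Finset.mem_Ioo] at hr
      exact ⟨by omega, by omega, hr.2, hnone r⟩)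
    have h2 := cnt 0 n (by omega)
    omega
  push Not at hnone
  obtain ⟨r0, hr0⟩ := hnone
  have hMp' : ∀ j q, M (q + j * n) ↔ M q := by
    intro j
    induction j with
    | zero => intro q; simp
    | succ j ih =>
      intro q
      have : q + (j + 1) * n = (q + j * n) + n := by ring
      rw [this, hMp, ih]
  -- a marked position followed by an unmarked one
  have hex : ∃ r, r0 ≤ r ∧ ¬ M r := by
    refine ⟨r1 + r0 * n, ?_, by rwa [hMp']⟩
    have : r0 * 1 ≤ r0 * n := Nat.mul_le_mul_left _ (by omega)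
    omega
  obtain ⟨p, hp1, hp2⟩ : ∃ p, M p ∧ ¬ M (p + 1) := by
    have hs := Nat.find_spec hex
    have hmin : ∀ r, r < Nat.find hex → ¬ (r0 ≤ r ∧ ¬ M r) := fun r hr => Nat.find_min hex hr
    set r := Nat.find hex with hrdef
    have hne : r ≠ r0 := by
      intro he
      rw [he] at hs
      exact hs.2 hr0
    have hlt : r0 < r := lt_of_le_of_ne hs.1 (Ne.symm hne)
    refine ⟨r - 1, ?_, ?_⟩
    · by_contra hc
      exact hmin (r - 1) (by omega) ⟨by omega, hc⟩
    · have : r - 1 + 1 = r := by omega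
      rw [this]
      exact hs.2
  -- the next marked position
  have nextM : ∀ r, ¬ M r → ∀ e, r < e → M e → ∃ q, r < q ∧ q ≤ e ∧ M q ∧
      ∀ x, r ≤ x → x < q → ¬ M x := by
    intro r hr e hre he
    have hexq : ∃ q, r < q ∧ M q := ⟨e, hre, he⟩
    refine ⟨Nat.find hexq, (Nat.find_spec hexq).1, Nat.find_min' hexq ⟨hre, he⟩,
      (Nat.find_spec hexq).2, ?_⟩
    intro x hx1 hx2 hx3
    rcases eq_or_lt_of_le hx1 with rfl | hx1
    · exact hr hx3
    · exact Nat.find_min hexq hx2 ⟨hx1, hx3⟩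
  have hMpn : M (p + n) := (hMp p).2 hp1
  obtain ⟨q, hq1, hq2, hq3, hq4⟩ := nextM (p + 1) hp2 (p + n) (by omega) hMpn
  have hs := cnt p q (by omega)
  have hFs : ∀ r ∈ (Finset.Ioo p q).filter T, p ≤ r ∧ r < p + n ∧ T r ∧ ¬ M r := by
    intro r hr
    simp only [Finset.mem_filter, Finset.mem_Ioo] at hr
    exact ⟨by omega, by omega, hr.2, hq4 r (by omega) hr.1.2⟩
  have hs1 := hC p _ hFs
  have hqlt : q < p + n := by
    rcases eq_or_lt_of_le hq2 with h | h
    · exfalso
      omega
    · exact h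
  have h4 := hF4 p q (by omega) hqlt hp1 hq3 ⟨p + 1, by omega, hq1, hp2⟩
  have hrest : ∀ r, q ≤ r → r ≤ p + n → M r := by
    by_contra hcon
    push Not at hcon
    obtain ⟨r2, hr21, hr22, hr23⟩ := hcon
    have hex2 : ∃ r, q ≤ r ∧ ¬ M r := ⟨r2, hr21, hr23⟩
    obtain ⟨p2, hp21, hp22, hp23, hp24⟩ : ∃ p2, q ≤ p2 ∧ p2 + 1 < p + n ∧ M p2 ∧
        ¬ M (p2 + 1) := by
      have hs' := Nat.find_spec hex2
      have hmin : ∀ r, r < Nat.find hex2 → ¬ (q ≤ r ∧ ¬ M r) := fun r hr => Nat.find_min hex2 hr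
      have hle : Nat.find hex2 ≤ r2 := Nat.find_min' hex2 ⟨hr21, hr23⟩
      set r := Nat.find hex2 with hrdef
      have hne : r ≠ q := by
        intro he
        rw [he] at hs'
        exact hs'.2 hq3
      have hne2 : r ≠ p + n := by
        intro he
        rw [he] at hs'
        exact hs'.2 hMpn
      have hlt : q < r := lt_of_le_of_ne hs'.1 (Ne.symm hne)
      refine ⟨r - 1, by omega, by omega, ?_, ?_⟩
      · by_contra hc
        exact hmin (r - 1) (by omega) ⟨by omega, hc⟩
      · have : r - 1 + 1 = r := by omega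
        rw [this]
        exact hs'.2
    obtain ⟨q2, hq21, hq22, hq23, hq24⟩ := nextM (p2 + 1) hp24 (p + n) (by omega) hMpn
    have hs2 := cnt p2 q2 (by omega)
    have h42 := hF4 p2 q2 (by omega) (by omega) hp23 hq23 ⟨p2 + 1, by omega, hq21, hp24⟩
    have hdisj : Disjoint ((Finset.Ioo p q).filter T) ((Finset.Ioo p2 q2).filter T) := by
      rw [Finset.disjoint_left]
      intro x hx hx2
      simp only [Finset.mem_filter, Finset.mem_Ioo] at hx hx2
      omega
    have hU := hC p (((Finset.Ioo p q).filter T) ∪ ((Finset.Ioo p2 q2).filter T)) (by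
      intro r hr
      rcases Finset.mem_union.1 hr with hr | hr
      · exact hFs r hr
      · simp only [Finset.mem_filter, Finset.mem_Ioo] at hr
        exact ⟨by omega, by omega, hr.2, hq24 r (by omega) hr.1.2⟩)
    rw [Finset.card_union_of_disjoint hdisj] at hU
    omega
  have hle2 : p + n ≤ q + 2 := by
    by_contra hcon
    by_cases h1 : T (q + 1)
    · exact hF5 q h1 ⟨hq3, hrest _ (by omega) (by omega)⟩
    · exact hF5 (q + 1) ((hT _).2 h1) ⟨hrest _ (by omega) (by omega),
        hrest _ (by omega) (by omega)⟩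
  refine ⟨by omega, by omega, ⟨p, _, hFs, by omega⟩, ⟨q + 1, hrest _ (by omega) (by omega), ?_⟩⟩
  intro h1
  exact hF5 q h1 ⟨hq3, hrest _ (by omega) (by omega)⟩

/-- walks along a sequence of adjacent vertices -/
theorem lb_walk (y : ℕ → V) (hadj : ∀ q, G.Adj (y q) (y (q + 1))) (p : ℕ) :
    ∀ l : ℕ, ∃ P : G.Walk (y p) (y (p + l)), P.length = l ∧
      P.support = (List.range (l + 1)).map (fun i => y (p + i)) := by
  intro l
  induction l with
  | zero => exact ⟨Walk.nil, rfl, by simp⟩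
  | succ l ih =>
    obtain ⟨P, hP1, hP2⟩ := ih
    refine ⟨P.concat (hadj (p + l)), ?_, ?_⟩
    · rw [Walk.length_concat, hP1]
    · rw [Walk.support_concat, hP2, List.range_succ (n := l + 1), List.map_append]
      simp

/-- Lemma B of the notes (point (11)). `S` is a set in which any two vertices are joined by a path
inside `S` of length at most `L`; no vertex of `S` has colour `t`; every `t`-coloured vertex
without a neighbour in `S` is in `T1`.
Proof: call `x` marked if `x ∈ S` or (`h x = t` and `x` has a neighbour in `S`). A `t`-vertex has at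
most one neighbour in `S` (`L + 2 ≤ 2k`). Colours alternate on the cycle `w`. Cut `w` at its
marked vertices. No marked vertex: `w.length ≤ 2|T1| ≤ 2k`. An arc of `w` with unmarked non-empty
interior and marked ends, containing `s` vertices of `T1`, has length `≤ 2s+2`; if its ends are
different, `2s+2+(L+2) ≥ 2k+1` by `spp` (there is a path between the ends through marked vertices
of length `≤ L+2`), so `2s > k-m`; so there is at most one such arc. If there is none: a
`t`-vertex of `w` has two neighbours in `S`. If it has equal ends: `w.length ≤ 2s+2 ≤ 2k`.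
If there is one: the rest of `w` consists of marked vertices and has no inner `t`-vertex,
so it has length `≤ 2` and `2k+1 ≤ w.length ≤ 2s+4`, `s ≤ |T1| ≤ k-m`; so `m = 1` and `s = |T1|`. -/
theorem lemmaB {k : ℕ} (hg : ∀ (v : V) (w : G.Walk v v), w.IsCycle → 2 * k < w.length)
    {κ : Type*} (h : V → κ) (hprop : ∀ u v, G.Adj u v → h u ≠ h v) (t b : κ) (htb : b ≠ t)
    (S : Set V) (L m : ℕ)
    (hL : ∀ a ∈ S, ∀ a' ∈ S, ∃ P : G.Walk a a', P.IsPath ∧ (∀ x ∈ P.support, x ∈ S) ∧
      P.length ≤ L)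
    (hSt : ∀ a ∈ S, h a ≠ t)
    (T1 : Finset V) (hT1 : ∀ x, h x = t → x ∉ T1 → ∃ a ∈ S, G.Adj x a)
    (hcard : T1.card + m ≤ k) (hm1 : 1 ≤ m) (hm : 2 * ((k - m) / 2) + 4 + L ≤ 2 * k)
    {v : V} (w : G.Walk v v) (hw : w.IsCycle) (hcol : ∀ x ∈ w.support, h x = b ∨ h x = t) :
    m = 1 ∧ w.length ≤ 2 * k + 2 ∧ (∀ x ∈ T1, x ∈ w.support) ∧
      ∃ a ∈ S, a ∈ w.support ∧ h a = b := by
  have hn := hg v w hw
  obtain ⟨n, hndef⟩ : ∃ n, n = w.length := ⟨_, rfl⟩
  rw [← hndef] at hn ⊢
  have hn3 : 4 < n := by omega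
  -- the periodic sequence of vertices
  obtain ⟨y, hydef⟩ : ∃ y : ℕ → V, y = fun q => w.getVert (q % n) := ⟨_, rfl⟩
  have hysup : ∀ q, y q ∈ w.support := by
    intro q
    rw [hydef]
    exact Walk.getVert_mem_support w _
  have hyper : ∀ q, y (q + n) = y q := by
    intro q
    simp only [hydef, Nat.add_mod_right]
  have hyadj : ∀ q, G.Adj (y q) (y (q + 1)) := by
    intro q
    have hlt : q % n < w.length := by
      rw [← hndef]; exact Nat.mod_lt _ (by omega)
    have h1 := Walk.adj_getVert_succ w hlt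
    by_cases h2 : q % n + 1 < n
    · have h3 : (q + 1) % n = q % n + 1 := by
        rw [Nat.add_mod, Nat.mod_eq_of_lt (show 1 < n by omega), Nat.mod_eq_of_lt h2]
      simp only [hydef, h3]
      exact h1
    · have h2' : q % n + 1 = n := by
        have := Nat.mod_lt q (show 0 < n by omega)
        omega
      have h3 : (q + 1) % n = 0 := by
        rw [Nat.add_mod, Nat.mod_eq_of_lt (show 1 < n by omega), h2', Nat.mod_self]
      simp only [hydef, h3]
      rw [h2', hndef, Walk.getVert_length] at h1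
      rw [Walk.getVert_zero, hndef]
      exact h1
  have hyinj : ∀ p q, p < q → q < p + n → y p ≠ y q := by
    intro p q hpq hqn he
    simp only [hydef] at he
    have hp := Nat.mod_lt p (show 0 < n by omega)
    have hq := Nat.mod_lt q (show 0 < n by omega)
    have h1 := hw.getVert_injOn' (show p % n ∈ {i | i ≤ w.length - 1} by
      simp only [Set.mem_ofPred_eq, ← hndef]; omega) (show q % n ∈ {i | i ≤ w.length - 1} by
      simp only [Set.mem_ofPred_eq, ← hndef]; omega) he
    have h2 : (q - p) % n = 0 := by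
      have : p ≡ q [MOD n] := h1
      exact (Nat.modEq_iff_dvd' hpq.le).1 this |> Nat.mod_eq_zero_of_dvd
    rw [Nat.mod_eq_of_lt (by omega)] at h2
    omega
  have hwalk := lb_walk y hyadj
  -- subpaths
  have hpath : ∀ p q, p < q → q < p + n → ∃ P : G.Walk (y p) (y q), P.IsPath ∧
      P.length = q - p ∧ ∀ r, p ≤ r → r ≤ q → y r ∈ P.support := by
    intro p q hpq hqn
    obtain ⟨l, rfl⟩ : ∃ l, q = p + l := ⟨q - p, by omega⟩
    obtain ⟨P, hP1, hP2⟩ := hwalk p l
    refine ⟨P, ?_, by omega, ?_⟩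
    · rw [Walk.isPath_def, hP2]
      refine List.Nodup.map_on ?_ List.nodup_range
      intro i hi j hj hij
      rw [List.mem_range] at hi hj
      by_contra hne
      rcases Nat.lt_or_gt_of_ne hne with hlt | hlt
      · exact hyinj (p + i) (p + j) (by omega) (by omega) hij
      · exact hyinj (p + j) (p + i) (by omega) (by omega) hij.symm
    · intro r hr1 hr2
      rw [hP2, List.mem_map]
      exact ⟨r - p, by rw [List.mem_range]; omega, by congr 1; omega⟩
  -- marked vertices
  let Mk : V → Prop := fun x => x ∈ S ∨ (h x = t ∧ ∃ a ∈ S, G.Adj x a)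
  have hMkpath : ∀ x, Mk x → ∃ a ∈ S, ∃ P : G.Walk x a, P.length ≤ 1 ∧
      ∀ z ∈ P.support, Mk z := by
    intro x hx
    rcases hx with hx | ⟨hx, a, ha, hxa⟩
    · exact ⟨x, hx, Walk.nil, by simp, by intro z hz; simp at hz; subst hz; exact Or.inl hx⟩
    · refine ⟨a, ha, Walk.cons hxa Walk.nil, by simp, ?_⟩
      intro z hz
      simp only [Walk.support_cons, Walk.support_nil, List.mem_cons, List.not_mem_nil,
        or_false] at hz
      rcases hz with rfl | rfl
      · exact Or.inr ⟨hx, a, ha, hxa⟩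
      · exact Or.inl ha
  have hMk2 : ∀ x x', Mk x → Mk x' → ∃ P : G.Walk x x', P.IsPath ∧ P.length ≤ L + 2 ∧
      ∀ z ∈ P.support, Mk z := by
    intro x x' hx hx'
    obtain ⟨a, ha, P1, hP1, hP1'⟩ := hMkpath x hx
    obtain ⟨a', ha', P2, hP2, hP2'⟩ := hMkpath x' hx'
    obtain ⟨Q, _, hQ2, hQ3⟩ := hL a ha a' ha'
    obtain ⟨P, hP, hPs, hPl⟩ := exists_path_of_walk {z | Mk z}
      (P1.append (Q.append P2.reverse)) (by
        intro z hz
        rw [Walk.mem_support_append_iff, Walk.mem_support_append_iff, Walk.support_reverse,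
          List.mem_reverse] at hz
        rcases hz with hz | hz | hz
        · exact hP1' z hz
        · exact Or.inl (hQ2 z hz)
        · exact hP2' z hz)
    refine ⟨P, hP, ?_, hPs⟩
    rw [Walk.length_append, Walk.length_append, Walk.length_reverse] at hPl
    omega
  have hunT1 : ∀ x, h x = t → ¬ Mk x → x ∈ T1 := by
    intro x hx hnx
    by_contra hc
    exact hnx (Or.inr ⟨hx, hT1 x hx hc⟩)
  have hcolb : ∀ q, h (y q) ≠ t → h (y q) = b := by
    intro q hq
    rcases hcol _ (hysup q) with h1 | h1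
    · exact h1
    · exact absurd h1 hq
  have hTalt : ∀ q, h (y (q + 1)) = t ↔ ¬ h (y q) = t := by
    intro q
    have h1 := hprop _ _ (hyadj q)
    constructor
    · intro h2 h3
      exact h1 (h3.trans h2.symm)
    · intro h2
      by_contra h3
      exact h1 ((hcolb q h2).trans (hcolb (q + 1) h3).symm)
  have hinjcard : ∀ p, ∀ F : Finset ℕ,
      (∀ r ∈ F, p ≤ r ∧ r < p + n ∧ h (y r) = t ∧ ¬ Mk (y r)) →
      F.image y ⊆ T1 ∧ (F.image y).card = F.card := by
    intro p F hF
    constructor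
    · intro x hx
      obtain ⟨r, hr, rfl⟩ := Finset.mem_image.1 hx
      exact hunT1 _ (hF r hr).2.2.1 (hF r hr).2.2.2
    · apply Finset.card_image_of_injOn
      intro i hi j hj hij
      by_contra hne
      have hi' := hF i hi
      have hj' := hF j hj
      rcases Nat.lt_or_gt_of_ne hne with hlt | hlt
      · exact hyinj i j hlt (by omega) hij
      · exact hyinj j i hlt (by omega) hij.symm
  have hcore := lb_core n k m L T1.card (fun q => Mk (y q)) (fun q => h (y q) = t) hTalt
    (fun q => by simp only [hyper]) (fun q => by simp only [hyper])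
    (fun p F hF => by
      have h1 := hinjcard p F hF
      rw [← h1.2]
      exact Finset.card_le_card h1.1)
    (fun p q hpq hqn hp hq hr => by
      obtain ⟨r, hr1, hr2, hr3⟩ := hr
      by_contra hcon
      obtain ⟨P1, hP1, hP1l, hP1s⟩ := hpath p q hpq hqn
      obtain ⟨P2, hP2, hP2l, hP2s⟩ := hMk2 _ _ hp hq
      have he := spp hg P1 P2 hP1 hP2 (by omega)
      have := hP1s r hr1.le hr2.le
      rw [he] at this
      exact hr3 (hP2s _ this))
    (fun q hq hMM => by
      obtain ⟨h1, h2⟩ := hMM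
      have hq0 : h (y q) ≠ t := (hTalt q).1 hq
      have hq2 : h (y (q + 2)) ≠ t := fun h3 => (hTalt (q + 1)).1 h3 hq
      have hS0 : y q ∈ S := by
        rcases h1 with h1 | h1
        · exact h1
        · exact absurd h1.1 hq0
      have hS2 : y (q + 2) ∈ S := by
        rcases h2 with h2 | h2
        · exact h2
        · exact absurd h2.1 hq2
      obtain ⟨P1, hP1, hP1l, hP1s⟩ := hpath q (q + 2) (by omega) (by omega)
      obtain ⟨P2, hP2, hP2s, hP2l⟩ := hL _ hS0 _ hS2
      have he := spp hg P1 P2 hP1 hP2 (by omega)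
      have := hP1s (q + 1) (by omega) (by omega)
      rw [he] at this
      exact hSt _ (hP2s _ this) hq)
    hn hcard hm1 hm
  obtain ⟨hm', hn', ⟨p, F, hF, hFc⟩, ⟨q, hq1, hq2⟩⟩ := hcore
  refine ⟨hm', hn', ?_, ?_⟩
  · have h1 := hinjcard p F hF
    have h2 : F.image y = T1 := Finset.eq_of_subset_of_card_le h1.1 (by rw [h1.2]; exact hFc)
    intro x hx
    rw [← h2] at hx
    obtain ⟨r, hr, rfl⟩ := Finset.mem_image.1 hx
    exact hysup r
  · refine ⟨y q, ?_, hysup q, hcolb q hq2⟩
    rcases hq1 with hq1 | hq1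
    · exact hq1
    · exact absurd hq1.1 hq2

end Pool.Agent.LibBChrom26
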