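import Pool.Agent.LibBChrom26.NoA
import Pool.Agent.LibBChrom26.ColP
import Pool.Agent.LibBChrom26.LemmaB

/-!
# Finishing lemma (point (11) of the notes)
-/

namespace Pool.Agent.LibBChrom26

open SimpleGraph Classical

universe u

variable {V : Type u} [Fintype V] {C : Ctx V}

/-- the `t`-coloured vertices with owner outside `A` -/
noncomputable def T1of (C : Ctx V) (A : Finset (Fin C.k)) : Finset V :=
  Finset.univ.filter (fun τ => C.f τ = C.t ∧ C.own τ ∉ A)

/-- (`own` is injective on the `t`-coloured vertices: `t_unique`) -/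
theorem card_T1of (C : Ctx V) (A : Finset (Fin C.k)) : (T1of C A).card + A.card ≤ C.k := by
  have h1 : (T1of C A).card ≤ (Aᶜ).card := by
    apply Finset.card_le_card_of_injOn C.own
    · intro x hx
      simp only [T1of, Finset.coe_filter, Finset.mem_univ, true_and, Set.mem_setOf_eq] at hx
      simpa using hx.2
    · intro x hx y hy hxy
      simp only [T1of, Finset.coe_filter, Finset.mem_univ, true_and, Set.mem_setOf_eq] at hx hy
      exact C.t_unique hx.1 hy.1 hxy
  rw [Finset.card_compl, Fintype.card_fin] at h1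
  have h2 : A.card ≤ C.k := by simpa using Finset.card_le_univ A
  omega

/-- finishing lemma: the colouring `D.col` is acyclic (`isAcyclicColouring_iff`, `col_proper`,
`no_cycle_A`, and `lemmaB` with `S := S'`, `T1 := T1of C A`, `m := A.card`, for the pairs of colours
containing `t`) -/
theorem Cuts.finish {K : Core C} (D : Cuts K) (S' : Set V) (L : ℕ) (A : Finset (Fin C.k))
    (hL : ∀ a ∈ S', ∀ a' ∈ S', ∃ P : C.G.Walk a a',
      P.IsPath ∧ (∀ x ∈ P.support, x ∈ S') ∧ P.length ≤ L)
    (hRS : ∀ x ∈ D.R, x ∈ S') (hSC : ∀ x ∈ S', C.Con x)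
    (hT : ∀ τ, C.f τ = C.t → C.own τ ∈ A → ∃ a ∈ S', C.G.Adj τ a)
    (hA : 2 ≤ A.card) (hm : 2 * ((C.k - A.card) / 2) + 4 + L ≤ 2 * C.k) :
    IsAcyclicColouring C.G D.col := by
  have hprop : Proper C.G D.col := D.col_proper S' L hL (by omega) hRS hSC
  rw [isAcyclicColouring_iff]
  refine ⟨hprop, ?_⟩
  have key : ∀ (b : Fin C.k), b ≠ C.t → ∀ (v : V) (w : C.G.Walk v v), w.IsCycle →
      ¬ ∀ x ∈ w.support, D.col x = b ∨ D.col x = C.t := by
    intro b hb v w hw hcol
    have := lemmaB C.hg D.col hprop C.t b hb S' L A.card hL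
      (fun a ha => D.col_con_ne_t (hSC a ha)) (T1of C A) (fun x hx hxT => by
        rcases D.col_eq_t hx with h | h
        · obtain ⟨r, hr, hxr⟩ := D.W_adj h
          exact ⟨r, hRS r hr, hxr⟩
        · apply hT x h
          by_contra ho
          apply hxT
          simp only [T1of, Finset.mem_filter, Finset.mem_univ, true_and]
          exact ⟨h, ho⟩) (card_T1of C A) (by omega) hm w hw hcol
    omega
  intro i j v w hw hcol
  by_cases hi : i = C.t
  · by_cases hj : j = C.t
    · obtain ⟨b, hb⟩ : ∃ b : Fin C.k, b ≠ C.t := by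
        have hk := C.hk
        have : Nontrivial (Fin C.k) := Fin.nontrivial_iff_two_le.mpr (by omega)
        exact exists_ne C.t
      exact key b hb v w hw (fun x hx => Or.inr (by
        rcases hcol x hx with h | h
        · rw [h, hi]
        · rw [h, hj]))
    · exact key j hj v w hw (fun x hx => by
        rcases hcol x hx with h | h
        · exact Or.inr (by rw [h, hi])
        · exact Or.inl h)
  · by_cases hj : j = C.t
    · exact key i hi v w hw (fun x hx => by
        rcases hcol x hx with h | h
        · exact Or.inl h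
        · exact Or.inr (by rw [h, hj]))
    · exact D.no_cycle_A hprop hi hj w hw hcol

end Pool.Agent.LibBChrom26
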