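import Pool.Agent.LibBChrom26.Enlarge
import Pool.Agent.LibBChrom26.Descend

/-!
# Main theorem
-/

namespace Pool.Agent.LibBChrom26

open SimpleGraph Classical

universe u

variable {V : Type u} [Fintype V]

/-- main theorem for `k ≥ 4`: contradiction from reducibility (iterate `enlarge` from `∅`) -/
theorem main_ge4 (G : SimpleGraph V) (k : ℕ) (hk : 4 ≤ k)
    (hg : ∀ (v : V) (w : G.Walk v v), w.IsCycle → 2 * k < w.length)
    (c : V → Fin k) (hc : IsBColouring G c)
    (hred : ∀ f : V → Fin k, Function.Surjective f → IsAcyclicColouring G f →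
      ∃ (i : Fin k) (f' : V → Fin k), IsAcyclicStep G f f' i)
    (f₀ : V → Fin k) (hf₀ : IsAcyclicColouring G f₀) : False := by
  obtain ⟨hproper, -, hb⟩ := hc
  choose ctr hctr hbv using hb
  have key : ∀ n : ℕ, ∃ Q : Set V, IsState G c ctr Q ∧ n ≤ Q.ncard := by
    intro n
    induction n with
    | zero =>
      exact ⟨∅, ⟨fun _ => ⟨0, by omega⟩, f₀, by simp, by simp, by simp, hf₀, by simp⟩, Nat.zero_le _⟩
    | succ n ih =>
      obtain ⟨Q, hQ, hn⟩ := ih
      obtain ⟨Q', hlt, hQ'⟩ := enlarge G k hk hg c hproper ctr hctr hbv hred Q hQ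
      exact ⟨Q', hQ', by have := Set.ncard_lt_ncard hlt (Set.toFinite Q'); omega⟩
  obtain ⟨Q, -, hQ⟩ := key (Fintype.card V + 1)
  have h1 : Q.ncard ≤ Nat.card V := Set.ncard_le_card Q
  rw [Nat.card_eq_fintype_card] at h1
  omega

/-- the answer to Q1 -/
theorem main (G : SimpleGraph V) (hg : ((2 * bChromaticNumber G : ℕ) : ℕ∞) < G.egirth) :
    bChromaticNumber G ≤ acyclicBChromaticNumber G := by
  by_contra hlt
  push Not at hlt
  set k := bChromaticNumber G with hk
  have hbdd : BddAbove {k : ℕ | ∃ c : V → Fin k, IsBColouring G c} := by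
    refine ⟨Fintype.card V, ?_⟩
    rintro n ⟨c, hc⟩
    exact card_le_of_surj c hc.2.1
  have hbddA : BddAbove {k : ℕ | ∃ c : V → Fin k, Function.Surjective c ∧
      IsAcyclicColouring G c ∧ ¬ ∃ (i : Fin k) (c' : V → Fin k), IsAcyclicStep G c c' i} := by
    refine ⟨Fintype.card V, ?_⟩
    rintro n ⟨c, hc, -⟩
    exact card_le_of_surj c hc
  have hne : {k : ℕ | ∃ c : V → Fin k, IsBColouring G c}.Nonempty := by
    by_contra h
    rw [Set.not_nonempty_iff_eq_empty] at h
    have h0 : k = 0 := by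
      rw [hk, bChromaticNumber, h]
      exact csSup_empty
    omega
  have hmem : k ∈ {k : ℕ | ∃ c : V → Fin k, IsBColouring G c} := Nat.sSup_mem hne hbdd
  obtain ⟨c, hc⟩ := hmem
  have hgirth : ∀ (v : V) (w : G.Walk v v), w.IsCycle → 2 * k < w.length := by
    intro v w hw
    have h1 : ((2 * k : ℕ) : ℕ∞) < (w.length : ℕ∞) := lt_of_lt_of_le hg (egirth_le_length hw)
    exact_mod_cast h1
  have hred : ∀ (n : ℕ), k ≤ n → ∀ f : V → Fin n, Function.Surjective f →
      IsAcyclicColouring G f → ∃ (i : Fin n) (f' : V → Fin n), IsAcyclicStep G f f' i := by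
    intro n hn f hf hfa
    by_contra hno
    have h1 : n ≤ acyclicBChromaticNumber G := le_csSup hbddA ⟨f, hf, hfa, hno⟩
    omega
  have hkV : k ≤ Fintype.card V := card_le_of_surj c hc.2.1
  have hk1 : 1 ≤ k := by omega
  by_cases h4 : 4 ≤ k
  · obtain ⟨f₀, -, hf₀⟩ := descend G k hk1 hred k (by omega) hkV
    exact main_ge4 G k h4 hgirth c hc (hred k le_rfl) f₀ hf₀
  · obtain ⟨f₁, -, hf₁⟩ := descend G k hk1 hred (k - 1) (by omega) (by omega)
    have hca : IsAcyclicColouring G c := small_case G c hc.1 (k - 1) (by omega) f₁ hf₁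
    obtain ⟨i, c', hstep⟩ := hred k le_rfl c hc.2.1 hca
    obtain ⟨v, hv, hbv⟩ := hc.2.2 i
    rw [← hv] at hstep
    exact bvertex_blocks G c v hbv c' hstep

end Pool.Agent.LibBChrom26
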