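import Pool.Agent.LibBChrom26.Reg2
import Pool.Agent.LibBChrom26.DefsIff
import Pool.Agent.LibBChrom26.Tools3

namespace Pool.Agent.LibBChrom26

open SimpleGraph Classical

universe u

variable {V : Type u} [Fintype V] {C : Ctx V}

namespace Cuts

variable {K : Core C} (D : Cuts K)

/-- auxiliary: an arc of a two-coloured cycle from a cut contact `z` to the other neighbour of
`u`. -/
theorem no_cycle_A_aux {u z o : V} (hu : u ∈ K.R0) (hz : z ∈ D.B) (hzu : C.G.Adj z u)
    (hou : C.G.Adj o u) (hzo : z ≠ o) (P : C.G.Walk z o) (huP : u ∉ P.support)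
    (hW : ∀ x ∈ P.support, x ∉ D.W)
    (hcol : ∀ x ∈ P.support, x ∉ K.R0 → C.f x ≠ C.t ∧ (C.f x = C.f z ∨ C.f x = K.h0 u)) :
    False := by
  have ho : o ∉ K.Comp u z := fun h =>
    hzo (D.comp_core hz hu hzu h hu hou).1.symm
  obtain ⟨x, y, hx, hy, hxC, hyC, hxy, -⟩ :=
    exit_edge (K.Comp u z) P (K.self_mem_Comp (D.B1 z hz)) ho
  by_cases hyR : y ∈ K.R0
  · have h1 := D.comp_core hz hu hzu hxC hyR hxy
    rw [h1.2] at hy
    exact huP hy
  · obtain ⟨h1, h2⟩ := hcol y hy hyR
    by_cases hG : C.Gam y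
    · exact hyC (K.Comp_ext hxC hxy ⟨⟨h1, hG⟩, hyR, h2⟩)
    · exact hW y hy ⟨hG, Or.inr ⟨z, hz, u, hu, hzu, x, hxC, hxy.symm, h2⟩⟩

/-- (10) no two-coloured cycle without colour `t`. The cycle `w` avoids `W` and all `t`-coloured
vertices. If it avoids `R0` it is a two-coloured cycle of `f` (`C.hf`). Let `u ∈ w ∩ R0`. The
neighbours on `w` of a vertex of `R0` are contacts (a non-`Γ` neighbour would be in `W`), and the
two neighbours have the same colour (properness, two colours). By `K.hdead` with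
`E = {e | e ∈ w.edges}` no edge of `w` is inside `R0`. So (`cycle_at`) the two neighbours
`g₁ ≠ g₂` of `u` are in `Kset` with `f g₁ = f g₂`, and by `B3` one of them, `z`, is in `B`. The other one is
not in `Comp u z` (`comp_core`), so the path `P` of `cycle_at` from `z` to the other one has an exit edge
`x y` from `Comp u z` (`exit_edge`). `y ∉ R0` (`comp_core` would give `y = u ∉ P.support`); `y` is a
contact outside `R0` with colour in the two colours `f z`, `h0 u`: then `y ∈ Comp` (`Comp_ext`);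
`y ∉ Γ`: then `y ∈ W`. (the colours `i, j` are the colours of `z` and `u`, i.e. `f z` and `h0 u`.) -/
theorem no_cycle_A (hprop : Proper C.G D.col) {i j : Fin C.k} (hi : i ≠ C.t) (hj : j ≠ C.t)
    {v : V} (w : C.G.Walk v v) (hw : w.IsCycle)
    (hcol : ∀ x ∈ w.support, D.col x = i ∨ D.col x = j) : False := by
  have hW : ∀ x ∈ w.support, x ∉ D.W := by
    intro x hx hxW
    have := hcol x hx
    simp only [col, if_pos hxW] at this
    rcases this with h | h
    · exact hi h.symm
    · exact hj h.symm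
  have hh : ∀ x ∈ w.support, D.col x = K.hcol x := fun x hx => by simp [col, hW x hx]
  have hne : ∀ x ∈ w.support, D.col x ≠ C.t := by
    intro x hx
    rcases hcol x hx with h | h
    · rw [h]; exact hi
    · rw [h]; exact hj
  by_cases hav : ∀ x ∈ w.support, x ∉ K.R0
  · refine ((isAcyclicColouring_iff _ _).1 C.hf).2 i j v w hw (fun x hx => ?_)
    have := hcol x hx
    rw [hh x hx, K.hcol_not_mem (hav x hx)] at this
    exact this
  push Not at hav
  obtain ⟨u, hu, huR⟩ := hav
  have two : ∀ x ∈ w.support, ∀ y ∈ w.support, ∀ z ∈ w.support, C.G.Adj x y → C.G.Adj x z →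
      D.col y = D.col z := by
    intro x hx y hy z hz hxy hxz
    have h1 := hprop x y hxy
    have h2 := hprop x z hxz
    rcases hcol x hx with h3 | h3 <;> rcases hcol y hy with h4 | h4 <;>
      rcases hcol z hz with h5 | h5
    · exact h4.trans h5.symm
    · exact absurd (h3.trans h4.symm) h1
    · exact absurd (h3.trans h5.symm) h2
    · exact h4.trans h5.symm
    · exact h4.trans h5.symm
    · exact absurd (h3.trans h5.symm) h2
    · exact absurd (h3.trans h4.symm) h1
    · exact h4.trans h5.symm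
  have hedge : ∀ x ∈ K.R0, ∀ g, s(x, g) ∈ w.edges → C.G.Adj x g ∧ C.Con g := by
    intro x hx g hg
    have hadj : C.G.Adj x g := w.adj_of_mem_edges hg
    have hgs : g ∈ w.support := w.snd_mem_support_of_mem_edges hg
    refine ⟨hadj, ?_⟩
    by_cases hgR : g ∈ K.R0
    · exact K.hcon g hgR
    · refine ⟨?_, ?_⟩
      · have := hne g hgs
        rw [hh g hgs, K.hcol_not_mem hgR] at this
        exact this
      · by_contra hG
        exact hW g hgs ⟨hG, Or.inl ⟨x, hx, hadj.symm⟩⟩
  have hdead : ∀ x ∈ K.R0, ∀ y ∈ K.R0, s(x, y) ∉ w.edges := by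
    have := K.hdead {e | e ∈ w.edges} hedge
      (fun x _ g hg => cycle_edges_at w hw hg) (by
        intro x hx g g' hg hg'
        have hxs : x ∈ w.support := w.fst_mem_support_of_mem_edges hg
        have hgs : g ∈ w.support := w.snd_mem_support_of_mem_edges hg
        have hgs' : g' ∈ w.support := w.snd_mem_support_of_mem_edges hg'
        have h1 := two x hxs g hgs g' hgs' (w.adj_of_mem_edges hg) (w.adj_of_mem_edges hg')
        rw [hh g hgs, hh g' hgs'] at h1
        exact h1)
    exact this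
  obtain ⟨g₁, g₂, P, hg12, hu1, hu2, hP, huP, -, hsup, he1, he2, -⟩ := cycle_at w hw hu
  have hPs : ∀ x ∈ P.support, x ∈ w.support := fun x hx => (hsup x).2 (Or.inr hx)
  have hg1s : g₁ ∈ w.support := hPs _ P.start_mem_support
  have hg2s : g₂ ∈ w.support := hPs _ P.end_mem_support
  have hg1R : g₁ ∉ K.R0 := fun h => hdead u huR g₁ h he1
  have hg2R : g₂ ∉ K.R0 := fun h => hdead u huR g₂ h he2
  have hf12 : C.f g₁ = C.f g₂ := by
    have := two u hu g₁ hg1s g₂ hg2s hu1 hu2
    rw [hh g₁ hg1s, hh g₂ hg2s, K.hcol_not_mem hg1R, K.hcol_not_mem hg2R] at this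
    exact this
  have hK1 : g₁ ∈ K.Kset := K.mem_Kset.2 ⟨(hedge u huR g₁ he1).2, hg1R, u, huR, hu1.symm⟩
  have hK2 : g₂ ∈ K.Kset := K.mem_Kset.2 ⟨(hedge u huR g₂ he2).2, hg2R, u, huR, hu2.symm⟩
  have hcol' : ∀ x ∈ P.support, x ∉ K.R0 →
      C.f x ≠ C.t ∧ (C.f x = C.f g₁ ∨ C.f x = K.h0 u) := by
    intro x hx hxR
    have hxs := hPs x hx
    have h1 := hne x hxs
    have h2 := hcol x hxs
    have h3 := hcol g₁ hg1s
    have h4 := hcol u hu
    have h5 := hprop u g₁ hu1
    rw [hh x hxs, K.hcol_not_mem hxR] at h1 h2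
    rw [hh g₁ hg1s, K.hcol_not_mem hg1R] at h3 h5
    rw [hh u hu, K.hcol_mem huR] at h4 h5
    refine ⟨h1, ?_⟩
    rcases h2 with h2 | h2 <;> rcases h3 with h3 | h3 <;> rcases h4 with h4 | h4
    · exact Or.inl (h2.trans h3.symm)
    · exact Or.inl (h2.trans h3.symm)
    · exact Or.inr (h2.trans h4.symm)
    · exact absurd (h4.trans h3.symm) h5
    · exact absurd (h4.trans h3.symm) h5
    · exact Or.inr (h2.trans h4.symm)
    · exact Or.inl (h2.trans h3.symm)
    · exact Or.inl (h2.trans h3.symm)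
  rcases D.B3 u huR g₁ hK1 g₂ hK2 hg12 hu1.symm hu2.symm hf12 with hB | hB
  · exact D.no_cycle_A_aux huR hB hu1.symm hu2.symm hg12 P huP
      (fun x hx => hW x (hPs x hx)) hcol'
  · refine D.no_cycle_A_aux huR hB hu2.symm hu1.symm hg12.symm P.reverse ?_ ?_ ?_
    · rw [Walk.support_reverse, List.mem_reverse]; exact huP
    · intro x hx
      rw [Walk.support_reverse, List.mem_reverse] at hx
      exact hW x (hPs x hx)
    · intro x hx hxR
      rw [Walk.support_reverse, List.mem_reverse] at hx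
      rw [← hf12]
      exact hcol' x hx hxR

end Cuts

end Pool.Agent.LibBChrom26
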