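import Pool.Agent.LibBChrom26.RegDef
import Pool.Agent.LibBChrom26.StarInj

namespace Pool.Agent.LibBChrom26

open SimpleGraph Classical

universe u

variable {V : Type u} [Fintype V] {C : Ctx V}

namespace Core

variable (K : Core C)

/-- extending a component by an adjacent allowed vertex -/
theorem Comp_ext {u z x y : V} (hx : x ∈ K.Comp u z) (hxy : C.G.Adj x y) (hy : y ∈ K.Y u z) :
    y ∈ K.Comp u z := by
  obtain ⟨P, hP⟩ := hx
  refine ⟨P.concat hxy, fun w hw => ?_⟩
  rw [Walk.support_concat] at hw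
  have hw' : w ∈ P.support ∨ w = y := by simpa using hw
  rcases hw' with h | h
  · exact hP w h
  · rw [h]; exact hy

/-- paths inside components -/
theorem Comp_path {u z x : V} (hx : x ∈ K.Comp u z) : ∃ P : C.G.Walk z x, P.IsPath ∧
    (∀ y ∈ P.support, y ∈ K.Y u z) ∧ (∀ y ∈ P.support, y ∈ K.Comp u z) := by
  obtain ⟨P, hP⟩ := hx
  obtain ⟨P', hP', h1, -⟩ := exists_path_of_walk (K.Y u z) P hP
  refine ⟨P', hP', h1, fun y hy => ⟨P'.takeUntil y hy, fun w hw => ?_⟩⟩
  exact h1 w (P'.support_takeUntil_subset_support hy hw)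

/-- core path, with the bound by the size of the core -/
theorem core_path {x y : V} (hx : x ∈ K.R0) (hy : y ∈ K.R0) :
    ∃ P : C.G.Walk x y, P.IsPath ∧ (∀ z ∈ P.support, z ∈ K.R0) ∧ P.length ≤ 2 ∧
      P.length + 1 ≤ K.R0.card := by
  obtain ⟨P, hP, h1, h2⟩ := K.hconn x hx y hy
  refine ⟨P, hP, h1, h2, ?_⟩
  rw [← Walk.length_support, ← List.toFinset_card_of_nodup hP.support_nodup]
  exact Finset.card_le_card (fun z hz => h1 z (List.mem_toFinset.1 hz))

theorem core_inj {a b : V} (ha : a ∈ K.R0 ∨ a ∈ K.Kset) (hb : b ∈ K.R0 ∨ b ∈ K.Kset)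
    (hab : a ≠ b) : C.ι a ≠ C.ι b := by
  have key : ∀ a, (a ∈ K.R0 ∨ a ∈ K.Kset) →
      (a ∈ {x | x ∈ K.R0} ∨ (C.Con a ∧ ∃ u ∈ {x | x ∈ K.R0}, C.G.Adj a u)) := by
    rintro a (h | h)
    · exact Or.inl h
    · obtain ⟨h1, -, h3⟩ := K.mem_Kset.1 h
      exact Or.inr ⟨h1, h3⟩
  exact star_inj C {x | x ∈ K.R0} (fun x hx => K.hcon x hx) (fun x hx => K.hnQ x hx)
    (fun x hx y hy => K.hconn x hx y hy) (key a ha) (key b hb) hab

/-- (injectivity of the index on `R0 ∪ Kset`) -/
theorem card_le : K.R0.card + K.Kset.card ≤ C.k := by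
  have hdisj : Disjoint K.R0 K.Kset := by
    rw [Finset.disjoint_left]
    intro a ha hb
    exact (K.mem_Kset.1 hb).2.1 ha
  rw [← Finset.card_union_of_disjoint hdisj]
  calc (K.R0 ∪ K.Kset).card ≤ (Finset.univ : Finset (Fin C.k)).card := by
        refine Finset.card_le_card_of_injOn C.ι (fun _ _ => Finset.mem_coe.2 (Finset.mem_univ _)) ?_
        intro a ha b hb hab
        by_contra hne
        exact K.core_inj (Finset.mem_union.1 (Finset.mem_coe.1 ha))
          (Finset.mem_union.1 (Finset.mem_coe.1 hb)) hne hab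
    _ = C.k := by rw [Finset.card_univ, Fintype.card_fin]

/-- a vertex outside the core has at most one neighbour in the core (`spp`) -/
theorem core_unique {z u u' : V} (hz : z ∉ K.R0) (hu : u ∈ K.R0) (hu' : u' ∈ K.R0)
    (h : C.G.Adj z u) (h' : C.G.Adj z u') : u = u' := by
  by_contra hne
  obtain ⟨P, hP, h1, h2⟩ := K.hconn u hu u' hu'
  have hQ : (Walk.cons h.symm (Walk.cons h' Walk.nil) : C.G.Walk u u').IsPath := by
    rw [Walk.cons_isPath_iff, Walk.cons_isPath_iff]
    refine ⟨⟨Walk.IsPath.nil, ?_⟩, ?_⟩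
    · rw [Walk.support_nil, List.mem_singleton]
      exact h'.ne
    · rw [Walk.support_cons, Walk.support_nil]
      simp only [List.mem_cons, List.not_mem_nil, or_false, not_or]
      exact ⟨h.symm.ne, hne⟩
  have hk := C.hk
  have heq := spp C.hg P _ hP hQ (by
    simp only [Walk.length_cons, Walk.length_nil]
    omega)
  apply hz
  apply h1
  rw [heq]
  simp

/-- the path `g ... u - z - P` where `P` is a path outside the core starting at `z ~ u` -/
theorem path_through {g u z x : V} (hg : g ∈ K.R0) (hu : u ∈ K.R0) (hzu : C.G.Adj z u)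
    (P : C.G.Walk z x) (hP : P.IsPath) (hPR : ∀ y ∈ P.support, y ∉ K.R0) :
    ∃ P' : C.G.Walk g x, P'.IsPath ∧
      (∀ y, y ∈ P'.support → y ∈ K.R0 ∨ y ∈ P.support) ∧
      (∀ y ∈ P.support, y ∈ P'.support) ∧
      P'.length ≤ P.length + 3 ∧ P'.length ≤ P.length + K.R0.card ∧
      (g = u → P'.length = P.length + 1) := by
  obtain ⟨P₀, hP₀, h1, h2, h3⟩ := K.core_path hg hu
  have hcons : (Walk.cons hzu.symm P).IsPath := by
    rw [Walk.cons_isPath_iff]
    exact ⟨hP, fun h => hPR u h hu⟩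
  refine ⟨P₀.append (Walk.cons hzu.symm P), ?_, ?_, ?_, ?_, ?_, ?_⟩
  · refine isPath_append _ _ hP₀ hcons ?_
    intro y hy hy'
    rw [Walk.support_cons, List.mem_cons] at hy'
    rcases hy' with h | h
    · exact h
    · exact absurd (h1 y hy) (hPR y h)
  · intro y hy
    rw [Walk.mem_support_append_iff, Walk.support_cons, List.mem_cons] at hy
    rcases hy with h | h | h
    · exact Or.inl (h1 y h)
    · rw [h]; exact Or.inl hu
    · exact Or.inr h
  · intro y hy
    rw [Walk.mem_support_append_iff, Walk.support_cons, List.mem_cons]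
    exact Or.inr (Or.inr hy)
  · rw [Walk.length_append, Walk.length_cons]; omega
  · rw [Walk.length_append, Walk.length_cons]; omega
  · intro hgu
    subst hgu
    have : P₀ = Walk.nil := Walk.isPath_iff_eq_nil.1 hP₀
    rw [Walk.length_append, Walk.length_cons, this, Walk.length_nil]
    omega

end Core

end Pool.Agent.LibBChrom26
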