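import Pool.Agent.LibBChrom26.Depth

namespace Pool.Agent.LibBChrom26

open SimpleGraph Classical

universe u

variable {V : Type u} [Fintype V] {C : Ctx V}

namespace Cuts

variable {K : Core C} (D : Cuts K)

/-- if there is a cut contact then there are at least two contacts (`B2`) -/
theorem two_le_card {z : V} (hz : z ∈ D.B) : 2 ≤ K.Kset.card := by
  have hzK := D.B1 z hz
  obtain ⟨-, -, u, hu, hzu⟩ := K.mem_Kset.1 hzK
  obtain ⟨o, hoK, hoB, -⟩ := D.B2 z hz u hu hzu
  have hne : z ≠ o := fun h => hoB (h ▸ hz)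
  rw [← Finset.card_pair hne]
  apply Finset.card_le_card
  intro y hy
  rw [Finset.mem_insert, Finset.mem_singleton] at hy
  rcases hy with rfl | rfl
  · exact hzK
  · exact hoK

/-- if there are two different cut contacts then there are at least three contacts (`B2`) -/
theorem three_le_card {z z' : V} (hz : z ∈ D.B) (hz' : z' ∈ D.B) (h : z ≠ z') :
    3 ≤ K.Kset.card := by
  have hzK := D.B1 z hz
  obtain ⟨-, -, u, hu, hzu⟩ := K.mem_Kset.1 hzK
  obtain ⟨o, hoK, hoB, -⟩ := D.B2 z hz u hu hzu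
  have hne : z ≠ o := fun h => hoB (h ▸ hz)
  have hne' : z' ≠ o := fun h => hoB (h ▸ hz')
  rw [← Finset.card_eq_three.2 ⟨z, z', o, h, hne, hne', rfl⟩]
  apply Finset.card_le_card
  intro y hy
  rw [Finset.mem_insert, Finset.mem_insert, Finset.mem_singleton] at hy
  rcases hy with rfl | rfl | rfl
  · exact hzK
  · exact D.B1 _ hz'
  · exact hoK

/-- (5) the only edge between a cut component and the core. Two paths from `u` to `x`:
`u z .. x` (length `≤ k`) and `u .. g x` (length `≤ 3`); `spp`. -/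
theorem comp_core {z u x g : V} (hz : z ∈ D.B) (hu : u ∈ K.R0) (hzu : C.G.Adj z u)
    (hx : x ∈ K.Comp u z) (hg : g ∈ K.R0) (hxg : C.G.Adj x g) : x = z ∧ g = u := by
  obtain ⟨P, hP, hPY, -⟩ := K.Comp_path hx
  have hdep := D.depth hz hu hzu P hP hPY
  have h2 := D.two_le_card hz
  have h1 : 1 ≤ K.R0.card := Finset.card_pos.2 ⟨_, K.hp⟩
  have hk := C.hk
  have hPR : ∀ y ∈ P.support, y ∉ K.R0 := fun y hy => (hPY y hy).2.1
  have hxR : x ∉ K.R0 := hPR x P.end_mem_support
  have hzR : z ∉ K.R0 := hPR z P.start_mem_support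
  obtain ⟨P', hP', hP'R, hP'l⟩ := K.hconn u hu g hg
  have hA : (Walk.cons hzu.symm P).IsPath := by
    rw [Walk.cons_isPath_iff]
    exact ⟨hP, fun h => hPR u h hu⟩
  have hA' : (P'.concat hxg.symm).IsPath := by
    rw [Walk.concat_isPath_iff]
    exact ⟨hP', fun h => hxR (hP'R x h)⟩
  have heq := spp C.hg _ _ hA hA' (by
    rw [Walk.length_cons, Walk.length_concat]
    omega)
  have hzx : x = z := by
    have h3 : z ∈ (P'.concat hxg.symm).support := by
      rw [← heq, Walk.support_cons]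
      exact List.mem_cons_of_mem _ P.start_mem_support
    rw [Walk.support_concat, List.mem_append, List.mem_singleton] at h3
    rcases h3 with h3 | h3
    · exact absurd (hP'R z h3) hzR
    · exact h3.symm
  subst hzx
  exact ⟨rfl, K.core_unique hzR hg hu hxg hzu⟩

/-- (4') path from the core to a vertex of a cut component -/
theorem path_comp {z u x g : V} (hz : z ∈ D.B) (hu : u ∈ K.R0) (hzu : C.G.Adj z u)
    (hx : x ∈ K.Comp u z) (hg : g ∈ K.R0) :
    ∃ P : C.G.Walk g x, P.IsPath ∧ (∀ y ∈ P.support, y ∈ K.R0 ∨ y ∈ K.Comp u z) ∧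
      P.length + K.Kset.card ≤ C.k + 2 ∧ z ∈ P.support := by
  obtain ⟨P, hP, hPY, hPC⟩ := K.Comp_path hx
  have hdep := D.depth hz hu hzu P hP hPY
  obtain ⟨P', hP', h1, h2, -, h4, -⟩ := K.path_through hg hu hzu P hP
    (fun y hy => (hPY y hy).2.1)
  refine ⟨P', hP', fun y hy => (h1 y hy).imp_right (hPC y), ?_, h2 z P.start_mem_support⟩
  omega

/-- (4') path from the core to a vertex of the region -/
theorem path_R {g r : V} (hg : g ∈ K.R0) (hr : r ∈ D.R) :
    ∃ P : C.G.Walk g r, P.IsPath ∧ (∀ y ∈ P.support, y ∈ D.R) ∧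
      P.length + K.Kset.card ≤ C.k + 2 := by
  rcases hr with hr | ⟨z, hz, u, hu, hzu, hr⟩
  · obtain ⟨P, hP, h1, -, h3⟩ := K.core_path hg hr
    have := K.card_le
    exact ⟨P, hP, fun y hy => Or.inl (h1 y hy), by omega⟩
  · obtain ⟨P, hP, h1, h2, -⟩ := D.path_comp hz hu hzu hr hg
    refine ⟨P, hP, fun y hy => ?_, h2⟩
    rcases h1 y hy with h | h
    · exact Or.inl h
    · exact Or.inr ⟨z, hz, u, hu, hzu, h⟩

theorem R_con {r : V} (hr : r ∈ D.R) : C.Con r := by
  rcases hr with hr | ⟨z, hz, u, hu, hzu, hr⟩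
  · exact K.hcon r hr
  · exact (K.Comp_sub hr).1

end Cuts

end Pool.Agent.LibBChrom26
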