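import Pool.Agent.LibBChrom26.Reg2

namespace Pool.Agent.LibBChrom26

open SimpleGraph Classical

universe u

variable {V : Type u} [Fintype V] {C : Ctx V}

namespace Cuts

variable {K : Core C} (D : Cuts K)

/-- (6) the index of `p` occurs only at `p` (`core_inj` if `r ∈ R0`, else `path_R`, `window'`) -/
theorem ι_ne_p {r : V} (hr : r ∈ D.R) (h : r ≠ C.p) : C.ι r ≠ C.ι C.p := by
  rcases hr with hr0 | ⟨z, hz, u, hu, hzu, hx⟩
  · exact K.core_inj (Or.inl hr0) (Or.inl K.hp) h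
  · have hr : r ∈ D.R := Or.inr ⟨z, hz, u, hu, hzu, hx⟩
    obtain ⟨P, hP, hPR, hl⟩ := D.path_R K.hp hr
    have h2 := D.two_le_card hz
    have hk := C.hk
    exact (C.window' P hP h.symm (fun x hx => D.R_con (hPR x hx)) (by omega)
      P.start_mem_support C.hpQ).symm

/-- (6) the index of an open contact does not occur in the region: path `o u .. r` of length
`≤ k+3-|K| ≤ k+1` (`o ∉ R` by `comp_core`), `window'` -/
theorem ι_open {o r : V} (ho : o ∈ K.Kset) (hoB : o ∉ D.B) (hB : D.B.Nonempty) (hr : r ∈ D.R) :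
    C.ι r ≠ C.ι o := by
  obtain ⟨z0, hz0⟩ := hB
  have h2 := D.two_le_card hz0
  obtain ⟨hoc, hoR0, u, hu, hou⟩ := K.mem_Kset.1 ho
  have hoR : o ∉ D.R := by
    rintro (h | ⟨z, hz, u', hu', hzu', hx⟩)
    · exact hoR0 h
    · obtain ⟨h1, -⟩ := D.comp_core hz hu' hzu' hx hu hou
      exact hoB (h1 ▸ hz)
  obtain ⟨P, hP, hPR, hl⟩ := D.path_R hu hr
  have hne : o ≠ r := by
    rintro rfl
    exact hoR hr
  have hk := C.hk
  have hP' : (Walk.cons hou P).IsPath := by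
    rw [Walk.cons_isPath_iff]
    exact ⟨hP, fun h => hoR (hPR o h)⟩
  refine (C.window' (Walk.cons hou P) hP' hne ?_ ?_ (y := u) ?_ (K.hnQ u hu)).symm
  · intro x hx
    rw [Walk.support_cons, List.mem_cons] at hx
    rcases hx with rfl | hx
    · exact hoc
    · exact D.R_con (hPR x hx)
  · rw [Walk.length_cons]
    omega
  · rw [Walk.support_cons]
    exact List.mem_cons_of_mem _ P.start_mem_support

theorem m_lt (hB : D.B.Nonempty) : D.idx.card + 1 ≤ C.k := by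
  obtain ⟨z, hz⟩ := id hB
  obtain ⟨-, -, u, hu, hzu⟩ := K.mem_Kset.1 (D.B1 z hz)
  obtain ⟨o, ho, hoB, -⟩ := D.B2 z hz u hu hzu
  have hnot : C.ι o ∉ D.idx := by
    intro h
    obtain ⟨r, hr, hι⟩ := D.mem_idx.1 h
    exact D.ι_open ho hoB hB hr hι
  have h1 := Finset.card_lt_univ_of_notMem hnot
  rw [Fintype.card_fin] at h1
  exact h1

theorem two_le_m (hB : D.B.Nonempty) : 2 ≤ D.idx.card := by
  obtain ⟨z, hz⟩ := hB
  have hzK := D.B1 z hz
  obtain ⟨-, hzR0, u, hu, hzu⟩ := K.mem_Kset.1 hzK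
  have hzR : z ∈ D.R := Or.inr ⟨z, hz, u, hu, hzu, K.self_mem_Comp hzK⟩
  have hpR : C.p ∈ D.R := D.R0_sub K.hp
  have hne : z ≠ C.p := by
    rintro rfl
    exact hzR0 K.hp
  exact Finset.one_lt_card.2 ⟨C.ι z, D.mem_idx.2 ⟨z, hzR, rfl⟩, C.ι C.p,
    D.mem_idx.2 ⟨C.p, hpR, rfl⟩, D.ι_ne_p hzR hne⟩

/-- no vertex of the region is owned by `t` (as a protected vertex) -/
theorem own_ne_t {r : V} (hr : r ∈ D.R) (hrQ : r ∈ C.Q) : C.own r ≠ C.t := by
  have hne : r ≠ C.p := by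
    rintro rfl
    exact C.hpQ hrQ
  have h := D.ι_ne_p hr hne
  rwa [C.ι_Q hrQ, C.ι_p] at h

end Cuts

end Pool.Agent.LibBChrom26
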