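import Pool.Agent.LibBChrom26.CoreDef

/-!
# Definitions: contacts of the core, components, cuts, region, shield, new colouring
-/

namespace Pool.Agent.LibBChrom26

open SimpleGraph Classical

universe u

variable {V : Type u} [Fintype V] {C : Ctx V}

namespace Core

variable (K : Core C)

/-- colour after recolouring the core only -/
noncomputable def hcol (z : V) : Fin C.k := hcolOf C K.R0 K.h0 z

theorem hcol_mem {z : V} (h : z ∈ K.R0) : K.hcol z = K.h0 z := by simp [hcol, hcolOf, h]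

theorem hcol_not_mem {z : V} (h : z ∉ K.R0) : K.hcol z = C.f z := by simp [hcol, hcolOf, h]

/-- the contacts of the core -/
noncomputable def Kset : Finset V :=
  Finset.univ.filter (fun z => C.Con z ∧ z ∉ K.R0 ∧ ∃ u ∈ K.R0, C.G.Adj z u)

/-- the vertices allowed in the component at `u`, `z` -/
def Y (u z : V) : Set V := {x | C.Con x ∧ x ∉ K.R0 ∧ (C.f x = C.f z ∨ C.f x = K.h0 u)}

/-- the component `C_z` (for `z` attached to `u ∈ R0`) -/
def Comp (u z : V) : Set V := {x | ∃ P : C.G.Walk z x, ∀ y ∈ P.support, y ∈ K.Y u z}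

theorem mem_Kset {z : V} : z ∈ K.Kset ↔ C.Con z ∧ z ∉ K.R0 ∧ ∃ u ∈ K.R0, C.G.Adj z u := by
  simp [Kset]

theorem Comp_sub {u z x : V} (hx : x ∈ K.Comp u z) : x ∈ K.Y u z := by
  obtain ⟨P, hP⟩ := hx
  exact hP x P.end_mem_support

theorem self_mem_Comp {u z : V} (hz : z ∈ K.Kset) : z ∈ K.Comp u z := by
  refine ⟨Walk.nil, fun y hy => ?_⟩
  rw [Walk.support_nil, List.mem_singleton] at hy
  subst hy
  exact ⟨(K.mem_Kset.1 hz).1, (K.mem_Kset.1 hz).2.1, Or.inl rfl⟩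

end Core

/-- The choice of cut contacts. -/
structure Cuts {C : Ctx V} (K : Core C) where
  B : Set V
  B1 : ∀ z ∈ B, z ∈ K.Kset
  B2 : ∀ z ∈ B, ∀ u ∈ K.R0, C.G.Adj z u → ∃ o ∈ K.Kset, o ∉ B ∧ C.G.Adj o u ∧
    C.f o = C.f z ∧ (K.Comp u z).ncard ≤ (K.Comp u o).ncard
  B3 : ∀ u ∈ K.R0, ∀ z₁ ∈ K.Kset, ∀ z₂ ∈ K.Kset, z₁ ≠ z₂ → C.G.Adj z₁ u → C.G.Adj z₂ u →
    C.f z₁ = C.f z₂ → z₁ ∈ B ∨ z₂ ∈ B

namespace Cuts

variable {K : Core C} (D : Cuts K)

/-- the region -/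
def R : Set V := {x | x ∈ K.R0 ∨ ∃ z ∈ D.B, ∃ u ∈ K.R0, C.G.Adj z u ∧ x ∈ K.Comp u z}

/-- the shield: vertices that get the colour `t` -/
def W : Set V := {w | ¬ C.Gam w ∧ ((∃ u ∈ K.R0, C.G.Adj w u) ∨
  ∃ z ∈ D.B, ∃ u ∈ K.R0, C.G.Adj z u ∧ ∃ x ∈ K.Comp u z, C.G.Adj w x ∧
    (C.f w = C.f z ∨ C.f w = K.h0 u))}

/-- the new colouring -/
noncomputable def col (x : V) : Fin C.k := if x ∈ D.W then C.t else K.hcol x

/-- region plus the centres of its protected vertices -/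
def S : Set V := {x | x ∈ D.R ∨ ∃ r ∈ D.R, r ∈ C.Q ∧ x = C.ctr (C.own r)}

/-- the set of indices of the region -/
noncomputable def idx : Finset (Fin C.k) := Finset.univ.filter (fun i => ∃ r ∈ D.R, C.ι r = i)

theorem mem_idx {i : Fin C.k} : i ∈ D.idx ↔ ∃ r ∈ D.R, C.ι r = i := by simp [idx]

theorem R0_sub {x : V} (hx : x ∈ K.R0) : x ∈ D.R := Or.inl hx

theorem W_not_Gam {x : V} (hx : x ∈ D.W) : ¬ C.Gam x := hx.1

end Cuts

end Pool.Agent.LibBChrom26
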