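import Pool.Agent.LibBChrom26.Defs

namespace Pool.Agent.LibBChrom26

open SimpleGraph Classical

universe u

variable {V : Type u}

/-- A state: protected set `Q` with owners and an acyclic colouring agreeing with `c` on `Q`. -/
def IsState (G : SimpleGraph V) {k : ℕ} (c : V → Fin k) (ctr : Fin k → V) (Q : Set V) : Prop :=
  ∃ (own : V → Fin k) (f : V → Fin k),
    (∀ q ∈ Q, ctr (own q) ∈ Q ∧ (q = ctr (own q) ∨ G.Adj q (ctr (own q)))) ∧
    (∀ q ∈ Q, ∀ q' ∈ Q, own q = own q' → c q = c q' → q = q') ∧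
    (∀ i, ctr i ∈ Q → own (ctr i) = i) ∧
    IsAcyclicColouring G f ∧ (∀ q ∈ Q, f q = c q)

end Pool.Agent.LibBChrom26
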