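import Mathlib

/-!
# Walk tools for graphs of large girth
`hg : ∀ v (w : G.Walk v v), w.IsCycle → N < w.length` says girth > N.
-/

namespace Pool.Agent.LibBChrom26

open SimpleGraph Classical

universe u

variable {V : Type u} {G : SimpleGraph V}

/-- Short path principle. Proof idea: let `H` be the graph whose edges are the edges of `P` and
`P'`. If `H` is acyclic then `P = P'` (`IsAcyclic.path_unique`, via `Walk.transfer`); a cycle of
`H` is a cycle of `G` with at most `P.length + P'.length` edges. -/
theorem spp {N : ℕ} (hg : ∀ (v : V) (w : G.Walk v v), w.IsCycle → N < w.length)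
    {a b : V} (P P' : G.Walk a b) (hP : P.IsPath) (hP' : P'.IsPath)
    (h : P.length + P'.length ≤ N) : P = P' := by
  set H : SimpleGraph V := fromEdgeSet {e | e ∈ P.edges ∨ e ∈ P'.edges} with hH
  have hE : H.edgeSet = {e | e ∈ P.edges ∨ e ∈ P'.edges} := by
    rw [hH, edgeSet_fromEdgeSet]
    ext e
    simp only [Set.mem_sdiff, Set.mem_ofPred_eq, and_iff_left_iff_imp]
    rintro (he | he) hd
    · exact G.not_isDiag_of_mem_edgeSet (P.edges_subset_edgeSet he) hd
    · exact G.not_isDiag_of_mem_edgeSet (P'.edges_subset_edgeSet he) hd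
  have hle : H ≤ G := by
    rw [← edgeSet_subset_edgeSet, hE]
    rintro e (he | he)
    · exact P.edges_subset_edgeSet he
    · exact P'.edges_subset_edgeSet he
  have h1 : ∀ e ∈ P.edges, e ∈ H.edgeSet := fun e he => by rw [hE]; exact Or.inl he
  have h2 : ∀ e ∈ P'.edges, e ∈ H.edgeSet := fun e he => by rw [hE]; exact Or.inr he
  have hac : H.IsAcyclic := by
    intro v w hw
    have h3 : w.edges ⊆ P.edges ++ P'.edges := by
      intro e he
      have h4 := w.edges_subset_edgeSet he
      rw [hE] at h4
      rw [List.mem_append]
      exact h4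
    have h5 : w.edges.length ≤ (P.edges ++ P'.edges).length :=
      (hw.isTrail.edges_nodup.subperm h3).length_le
    rw [List.length_append, Walk.length_edges, Walk.length_edges, Walk.length_edges] at h5
    have h6 := hg v (w.mapLe hle) (hw.mapLe hle)
    rw [Walk.length_map] at h6
    omega
  have h3 := hac.path_unique ⟨P.transfer H h1, hP.transfer h1⟩ ⟨P'.transfer H h2, hP'.transfer h2⟩
  have h4 : P.transfer H h1 = P'.transfer H h2 := congrArg Subtype.val h3
  have h5 := congrArg Walk.support h4
  rw [Walk.support_transfer, Walk.support_transfer] at h5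
  exact Walk.ext_support h5

end Pool.Agent.LibBChrom26
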