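import Pool.Agent.LibBChrom26.Ctx
import Pool.Agent.LibBChrom26.Tools1
import Pool.Agent.LibBChrom26.Tools2

/-!
# Window lemma (point (1) of the notes)
-/

namespace Pool.Agent.LibBChrom26

open SimpleGraph Classical

universe u

namespace Ctx

variable {V : Type u} [Fintype V] (C : Ctx V)

omit [Fintype V] in
/-- Two vertices with a common neighbour. -/
theorem window_path2 {G : SimpleGraph V} {a m b : V} (h1 : G.Adj a m) (h2 : G.Adj m b)
    (hne : a ≠ b) : ∃ P : G.Walk a b, P.IsPath ∧ P.length = 2 ∧ m ∈ P.support ∧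
      ∀ x ∈ P.support, x = a ∨ x = m ∨ x = b := by
  refine ⟨Walk.cons h1 (Walk.cons h2 Walk.nil), ?_, rfl, ?_, ?_⟩
  · simp [Walk.cons_isPath_iff, h1.ne, h2.ne, hne]
  · simp
  · intro x hx
    simpa using hx

omit [Fintype V] in
theorem window_path3 {G : SimpleGraph V} {a m n b : V} (h1 : G.Adj a m) (h2 : G.Adj m n)
    (h3 : G.Adj n b) (hab : a ≠ b) (han : a ≠ n) (hmb : m ≠ b) :
    ∃ P : G.Walk a b, P.IsPath ∧ P.length = 3 ∧ m ∈ P.support := by
  refine ⟨Walk.cons h1 (Walk.cons h2 (Walk.cons h3 Walk.nil)), ?_, rfl, ?_⟩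
  · simp [Walk.cons_isPath_iff, h1.ne, h2.ne, h3.ne, hab, han, hmb]
  · simp

/-- The case of an end outside `Q`. -/
theorem window_aux {a b : V} (P : C.G.Walk a b) (hP : P.IsPath) (hne : a ≠ b)
    (hcon : ∀ x ∈ P.support, C.Con x) (hlen : P.length + 3 ≤ 2 * C.k) (hι : C.ι a = C.ι b)
    (ha : a ∉ C.Q) : False := by
  have hca : C.Con a := hcon a P.start_mem_support
  have hcb : C.Con b := hcon b P.end_mem_support
  obtain ⟨τ, hτt, haτ, hτo⟩ := C.ι_nQ ha hca
  -- a short path through `τ` is impossible
  have key : ∀ P' : C.G.Walk a b, P'.IsPath → P'.length ≤ 3 → τ ∈ P'.support → False := by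
    intro P' hP' hl hτ
    have h1 := spp C.hg P P' hP hP' (by omega)
    rw [← h1] at hτ
    exact (hcon τ hτ).1 hτt
  have hbτ : τ ≠ b := by
    rintro rfl
    exact hcb.1 hτt
  by_cases hb : b ∈ C.Q
  · have hτQ : τ ∈ C.Q := C.hft τ hτt
    have hob : C.own b = C.own τ := by rw [← C.ι_Q hb, ← hι, hτo]
    obtain ⟨hcQ, h1⟩ := C.hQ1 τ hτQ
    obtain ⟨-, h2⟩ := C.hQ1 b hb
    rw [hob] at h2
    rcases h1 with h1 | h1
    · rcases h2 with h2 | h2
      · exact hbτ (h1.trans h2.symm)
      · rw [← h1] at h2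
        obtain ⟨P', h3, h4, h5, -⟩ := window_path2 haτ h2.symm hne
        exact key P' h3 (by omega) h5
    · rcases h2 with h2 | h2
      · rw [← h2] at h1
        obtain ⟨P', h3, h4, h5, -⟩ := window_path2 haτ h1 hne
        exact key P' h3 (by omega) h5
      · have han : a ≠ C.ctr (C.own τ) := by
          intro h
          exact ha (h ▸ hcQ)
        obtain ⟨P', h3, h4, h5⟩ := window_path3 haτ h1 h2.symm hne han hbτ
        exact key P' h3 (by omega) h5
  · obtain ⟨τ', hτt', hbτ', hτo'⟩ := C.ι_nQ hb hcb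
    have h1 : τ = τ' := C.t_unique hτt hτt' (by rw [hτo, hτo', hι])
    rw [← h1] at hbτ'
    obtain ⟨P', h3, h4, h5, -⟩ := window_path2 haτ hbτ'.symm hne
    exact key P' h3 (by omega) h5

/-- WINDOW LEMMA. A path of contacts of length `≤ 2k-3` whose two different ends have the same
index runs inside `Q`, has length at most 2 and contains the centre of the index.
Proof. Both ends in `Q`: `a - b` or `a - ctr i - b` is a path of length `≤ 2`, by `spp` it is `P`.
Otherwise (`ι_nQ`) there is a path of length `≤ 3` from `a` to `b` through the `t`-coloured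
vertex `τ` with owner `i` (`t_unique`); all vertices of `P` are contacts, so it is not `P`;
contradiction to `spp`. -/
theorem window {a b : V} (P : C.G.Walk a b) (hP : P.IsPath) (hne : a ≠ b)
    (hcon : ∀ x ∈ P.support, C.Con x) (hlen : P.length + 3 ≤ 2 * C.k) (hι : C.ι a = C.ι b) :
    (∀ x ∈ P.support, x ∈ C.Q) ∧ P.length ≤ 2 ∧ C.ctr (C.ι a) ∈ P.support := by
  by_cases ha : a ∈ C.Q
  swap
  · exact (C.window_aux P hP hne hcon hlen hι ha).elim
  by_cases hb : b ∈ C.Q
  swap
  · refine (C.window_aux P.reverse hP.reverse hne.symm (fun x hx => hcon x ?_) ?_ hι.symm hb).elim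
    · rwa [Walk.support_reverse, List.mem_reverse] at hx
    · rw [Walk.length_reverse]
      exact hlen
  have hob : C.own b = C.own a := by rw [← C.ι_Q hb, ← hι, C.ι_Q ha]
  obtain ⟨hcQ, h1⟩ := C.hQ1 a ha
  obtain ⟨-, h2⟩ := C.hQ1 b hb
  rw [hob] at h2
  rw [C.ι_Q ha]
  have hone : ∀ (hadj : C.G.Adj a b), P = Walk.cons hadj Walk.nil := by
    intro hadj
    apply spp C.hg P _ hP
    · simp [Walk.cons_isPath_iff, hadj.ne]
    · rw [Walk.length_cons, Walk.length_nil]
      omega
  rcases h1 with h1 | h1
  · rcases h2 with h2 | h2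
    · exact absurd (h1.trans h2.symm) hne
    · rw [← h1] at h2
      have hPe := hone h2.symm
      refine ⟨?_, ?_, ?_⟩
      · intro x hx
        rw [hPe] at hx
        simp only [Walk.support_cons, Walk.support_nil, List.mem_cons, List.not_mem_nil,
          or_false] at hx
        rcases hx with rfl | rfl
        · exact ha
        · exact hb
      · rw [hPe, Walk.length_cons, Walk.length_nil]
        omega
      · rw [← h1]
        exact P.start_mem_support
  · rcases h2 with h2 | h2
    · rw [← h2] at h1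
      have hPe := hone h1
      refine ⟨?_, ?_, ?_⟩
      · intro x hx
        rw [hPe] at hx
        simp only [Walk.support_cons, Walk.support_nil, List.mem_cons, List.not_mem_nil,
          or_false] at hx
        rcases hx with rfl | rfl
        · exact ha
        · exact hb
      · rw [hPe, Walk.length_cons, Walk.length_nil]
        omega
      · rw [← h2]
        exact P.end_mem_support
    · obtain ⟨P', h3, h4, h5, h6⟩ := window_path2 h1 h2.symm hne
      have hPe : P = P' := spp C.hg P P' hP h3 (by omega)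
      refine ⟨?_, ?_, ?_⟩
      · intro x hx
        rw [hPe] at hx
        rcases h6 x hx with rfl | rfl | rfl
        · exact ha
        · exact hcQ
        · exact hb
      · rw [hPe, h4]
      · rw [hPe]
        exact h5

/-- Consequence: a path of contacts through a vertex outside `Q`. -/
theorem window' {a b : V} (P : C.G.Walk a b) (hP : P.IsPath) (hne : a ≠ b)
    (hcon : ∀ x ∈ P.support, C.Con x) (hlen : P.length + 3 ≤ 2 * C.k)
    {y : V} (hy : y ∈ P.support) (hyQ : y ∉ C.Q) : C.ι a ≠ C.ι b := by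
  intro hι
  exact hyQ ((C.window P hP hne hcon hlen hι).1 y hy)

end Ctx

end Pool.Agent.LibBChrom26
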